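import Mathlib

set_option autoImplicit false

/-!
# The `A`-adic tree of squares

Squares of level `k` are indexed by `ℤ × ℤ`. The ancestor `j` levels above is obtained by floor
division by `A ^ j`.
-/

namespace Pool.Agent.H88.Yau

open Finset

/-- The ancestor `j` levels above. -/
def anc (A j : ℕ) (q : ℤ × ℤ) : ℤ × ℤ := (q.1 / (A : ℤ) ^ j, q.2 / (A : ℤ) ^ j)

/-- The indices differ by at most `H`. -/
def near (H : ℤ) (q q' : ℤ × ℤ) : Prop := |q.1 - q'.1| ≤ H ∧ |q.2 - q'.2| ≤ H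

/-- The descendants `j` levels below. -/
noncomputable def desc (A j : ℕ) (q : ℤ × ℤ) : Finset (ℤ × ℤ) :=
  Ico (q.1 * (A : ℤ) ^ j) ((q.1 + 1) * (A : ℤ) ^ j) ×ˢ
    Ico (q.2 * (A : ℤ) ^ j) ((q.2 + 1) * (A : ℤ) ^ j)

/-- The squares of the same level with indices at most `H` apart. -/
noncomputable def nbr (H : ℤ) (q : ℤ × ℤ) : Finset (ℤ × ℤ) :=
  Icc (q.1 - H) (q.1 + H) ×ˢ Icc (q.2 - H) (q.2 + H)

variable {A : ℕ}

lemma powpos (hA : 2 ≤ A) (j : ℕ) : (0 : ℤ) < (A : ℤ) ^ j := by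
  have : (0 : ℤ) < A := by exact_mod_cast (by omega : 0 < A)
  positivity

lemma mem_desc (hA : 2 ≤ A) {j : ℕ} {q c : ℤ × ℤ} : c ∈ desc A j q ↔ anc A j c = q := by
  have hp := powpos hA j
  unfold desc anc
  rw [mem_product, mem_Ico, mem_Ico, Prod.ext_iff]
  simp only
  constructor
  · rintro ⟨⟨h1, h2⟩, h3, h4⟩
    constructor
    · exact Int.ediv_eq_iff_of_pos hp |>.mpr ⟨h1, by linarith [h2]⟩
    · exact Int.ediv_eq_iff_of_pos hp |>.mpr ⟨h3, by linarith [h4]⟩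
  · rintro ⟨h1, h2⟩
    have h3 := (Int.ediv_eq_iff_of_pos hp).mp h1
    have h4 := (Int.ediv_eq_iff_of_pos hp).mp h2
    exact ⟨⟨h3.1, by linarith [h3.2]⟩, h4.1, by linarith [h4.2]⟩

lemma anc_zero (q : ℤ × ℤ) : anc A 0 q = q := by simp [anc]

lemma anc_add (i j : ℕ) (q : ℤ × ℤ) : anc A i (anc A j q) = anc A (i + j) q := by
  unfold anc
  have h : (0 : ℤ) ≤ (A : ℤ) ^ j := by positivity
  simp only [pow_add, Prod.mk.injEq]
  rw [Int.ediv_ediv_of_nonneg h, Int.ediv_ediv_of_nonneg h, mul_comm]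
  exact ⟨rfl, rfl⟩

lemma card_desc (j : ℕ) (q : ℤ × ℤ) : ((desc A j q).card : ℝ) = (A : ℝ) ^ (2 * j) := by
  unfold desc
  rw [card_product, Int.card_Ico, Int.card_Ico]
  have h : ∀ a : ℤ, (a + 1) * (A : ℤ) ^ j - a * (A : ℤ) ^ j = ((A ^ j : ℕ) : ℤ) := by
    intro a; push_cast; ring
  rw [h, h, Int.toNat_natCast]
  push_cast
  ring

lemma card_nbr (H : ℕ) (q : ℤ × ℤ) : ((nbr (H : ℤ) q).card : ℝ) = (2 * H + 1) ^ 2 := by
  unfold nbr
  rw [card_product, Int.card_Icc, Int.card_Icc]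
  have h : ∀ a : ℤ, a + H + 1 - (a - H) = ((2 * H + 1 : ℕ) : ℤ) := by
    intro a; push_cast; ring
  rw [h, h, Int.toNat_natCast]
  push_cast
  ring

lemma mem_nbr {H : ℤ} {q c : ℤ × ℤ} : c ∈ nbr H q ↔ near H c q := by
  unfold nbr near
  rw [mem_product, mem_Icc, mem_Icc, abs_le, abs_le]
  constructor
  · rintro ⟨⟨h1, h2⟩, h3, h4⟩
    exact ⟨⟨by linarith, by linarith⟩, by linarith, by linarith⟩
  · rintro ⟨⟨h1, h2⟩, h3, h4⟩
    exact ⟨⟨by linarith, by linarith⟩, by linarith, by linarith⟩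

lemma near_symm {H : ℤ} {q c : ℤ × ℤ} (h : near H q c) : near H c q := by
  unfold near at *
  rw [abs_sub_comm c.1, abs_sub_comm c.2]
  exact h

lemma near_refl {H : ℤ} (hH : 0 ≤ H) (q : ℤ × ℤ) : near H q q := by
  unfold near; simp [hH]

lemma near_trans {H H' : ℤ} {a b c : ℤ × ℤ} (h : near H a b) (h' : near H' b c) :
    near (H + H') a c := by
  unfold near at *
  constructor
  · calc |a.1 - c.1| ≤ |a.1 - b.1| + |b.1 - c.1| := abs_sub_le _ _ _
      _ ≤ _ := add_le_add h.1 h'.1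
  · calc |a.2 - c.2| ≤ |a.2 - b.2| + |b.2 - c.2| := abs_sub_le _ _ _
      _ ≤ _ := add_le_add h.2 h'.2

lemma near_mono {H H' : ℤ} (hH : H ≤ H') {a b : ℤ × ℤ} (h : near H a b) : near H' a b :=
  ⟨h.1.trans hH, h.2.trans hH⟩

lemma abs_ediv_sub {P : ℤ} (hP : 0 < P) {a b H : ℤ} (hH : H ≤ P) (h : |a - b| ≤ H) :
    |a / P - b / P| ≤ 1 := by
  rw [abs_le] at h ⊢
  have h1 := Int.emod_add_mul_ediv a P
  have h2 := Int.emod_add_mul_ediv b P
  have h3 := Int.emod_nonneg a hP.ne'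
  have h4 := Int.emod_nonneg b hP.ne'
  have h5 := Int.emod_lt_of_pos a hP
  have h6 := Int.emod_lt_of_pos b hP
  constructor
  · by_contra hcon
    push Not at hcon
    have : P * (a / P - b / P) ≤ P * (-2) := mul_le_mul_of_nonneg_left (by omega) hP.le
    nlinarith
  · by_contra hcon
    push Not at hcon
    have : P * 2 ≤ P * (a / P - b / P) := mul_le_mul_of_nonneg_left (by omega) hP.le
    nlinarith

/-- Going up at least one level makes the distance at most one. -/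
lemma near_anc (hA : 2 ≤ A) {H : ℤ} (hH : H ≤ A) {j : ℕ} (hj : 1 ≤ j) {a b : ℤ × ℤ}
    (h : near H a b) : near 1 (anc A j a) (anc A j b) := by
  have hP := powpos hA j
  have hA1 : (1 : ℤ) ≤ A := by exact_mod_cast (by omega : 1 ≤ A)
  have hle : H ≤ (A : ℤ) ^ j := by
    calc H ≤ (A : ℤ) := hH
      _ = (A : ℤ) ^ 1 := (pow_one _).symm
      _ ≤ (A : ℤ) ^ j := pow_le_pow_right₀ hA1 hj
  exact ⟨abs_ediv_sub hP hle h.1, abs_ediv_sub hP hle h.2⟩

lemma near_one_anc (hA : 2 ≤ A) (j : ℕ) {a b : ℤ × ℤ}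
    (h : near 1 a b) : near 1 (anc A j a) (anc A j b) := by
  rcases Nat.eq_zero_or_pos j with rfl | hj
  · rwa [anc_zero, anc_zero]
  · exact near_anc hA (by exact_mod_cast (by omega : 1 ≤ A)) hj h

/-- Summation over the descendants in two steps. -/
lemma sum_desc_add (hA : 2 ≤ A) (i j : ℕ) (q : ℤ × ℤ) (f : ℤ × ℤ → ℝ) :
    ∑ c ∈ desc A (i + j) q, f c = ∑ d ∈ desc A i q, ∑ c ∈ desc A j d, f c := by
  rw [← Finset.sum_fiberwise_of_maps_to (s := desc A (i + j) q) (t := desc A i q)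
    (g := anc A j) (fun c hc => by
      rw [mem_desc hA] at hc ⊢
      rw [anc_add]; exact hc)]
  refine Finset.sum_congr rfl fun d hd => ?_
  refine Finset.sum_congr ?_ fun _ _ => rfl
  ext c
  rw [mem_filter, mem_desc hA, mem_desc hA]
  rw [mem_desc hA] at hd
  constructor
  · exact fun h => h.2
  · intro h
    refine ⟨?_, h⟩
    rw [← anc_add, h, hd]

end Pool.Agent.H88.Yau
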