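import Pool.Agent.H24.Near.Defs
import Pool.Agent.H88.Yau.Tree

set_option autoImplicit false

/-!
# Affine majorants of `log |u|` and the statements at unit scale

At unit scale the majorants live on the square of radius `8`, the deficits are averaged over the
square of radius `1/2` with resolution `1/16`. The basic square has side `1/16`.
-/

namespace Pool.Agent.H88.Yau

open MeasureTheory Set Metric Pool.Agent.H24.Near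

/-- `Δu + q u = 0` on `S`, `|q| ≤ Λ²`, and the first derivatives of `q` are at most `σ Λ²`. -/
structure SolS (q u : ℝ × ℝ → ℝ) (Λ σ : ℝ) (S : Set (ℝ × ℝ)) : Prop where
  smooth_q : Smooth q
  smooth_u : Smooth u
  eq : ∀ p ∈ S, lap u p + q p * u p = 0
  bq : ∀ p ∈ S, |q p| ≤ Λ ^ 2
  bq1 : ∀ p ∈ S, |d1 q p| ≤ σ * Λ ^ 2
  bq2 : ∀ p ∈ S, |d2 q p| ≤ σ * Λ ^ 2

/-- An affine function. -/
def aff (a : ℝ) (b z : ℝ × ℝ) : ℝ := a + b.1 * z.1 + b.2 * z.2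

/-- The affine function is a majorant of `log |u|` on the square of radius `8`. -/
def IsMaj (u : ℝ × ℝ → ℝ) (a : ℝ) (b : ℝ × ℝ) : Prop :=
  ∀ z ∈ closedBall (0 : ℝ × ℝ) 8, |u z| ≤ Real.exp (aff a b z)

/-- `u` divided by the exponential of an affine function. -/
noncomputable def tw (u : ℝ × ℝ → ℝ) (a : ℝ) (b : ℝ × ℝ) (z : ℝ × ℝ) : ℝ :=
  u z * Real.exp (-aff a b z)

/-- The mean deficit of a majorant (the square of radius `1/2` has area one). -/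
noncomputable def Defi (u : ℝ × ℝ → ℝ) (a : ℝ) (b : ℝ × ℝ) : ℝ :=
  ∫ z in closedBall (0 : ℝ × ℝ) (1 / 2), -Real.log (M (tw u a b) z (1 / 16))

/-- Rescaling. -/
def resc (u : ℝ × ℝ → ℝ) (x : ℝ × ℝ) (r : ℝ) (z : ℝ × ℝ) : ℝ := u (x + r • z)

/-- The centre of the square with index `q` in the grid of squares of side `1 / (16 P)`; the square
with index `0` for `P = 1` is centred at the origin. -/
noncomputable def cen (P : ℕ) (q : ℤ × ℤ) : ℝ × ℝ :=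
  ((((q.1 : ℝ) + 1 / 2) / P - 1 / 2) / 16, (((q.2 : ℝ) + 1 / 2) / P - 1 / 2) / 16)

/-- `u` has no zero square: all the maxima that occur are positive. -/
def PosM (u : ℝ × ℝ → ℝ) (S : Set (ℝ × ℝ)) : Prop := ∀ z ∈ S, ∀ r > 0, 0 < M u z r

/-- U1: two majorants. -/
def U1 : Prop := ∃ C0 : ℝ, 1 ≤ C0 ∧ ∀ (u : ℝ × ℝ → ℝ) (a a' : ℝ) (b b' : ℝ × ℝ), Continuous u →
  PosM u (closedBall 0 (1 / 2)) → IsMaj u a b → IsMaj u a' b' →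
  ‖b - b'‖ ≤ C0 * (Defi u a b + Defi u a' b')

/-- U2: growth. -/
def U2 : Prop := ∀ A : ℕ, 1 ≤ A → ∃ K CA : ℝ, 1 ≤ K ∧ 1 ≤ CA ∧
  ∀ (m Λ σ : ℝ) (q u : ℝ × ℝ → ℝ) (a : ℝ) (b : ℝ × ℝ), SolS q u Λ σ (closedBall 0 8) → 0 ≤ Λ →
    0 ≤ σ → σ ≤ 1 → PosM u (closedBall 0 1) → IsMaj u a b → ‖b‖ + Defi u a b ≤ m → K ≤ m →
    K * Λ ≤ m → ∀ z ∈ closedBall (0 : ℝ × ℝ) (1 / 4), ∀ z' ∈ closedBall (0 : ℝ × ℝ) 1,
      |u z'| ≤ M u z (1 / (16 * A)) * Real.exp (CA * m)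

/-- U3: one step. -/
def U3 : Prop := ∀ κ : ℝ, 0 < κ → ∃ A0 : ℕ, ∀ A : ℕ, A0 ≤ A → ∃ K CA : ℝ, 1 ≤ K ∧ 1 ≤ CA ∧
  ∀ (m d Λ σ : ℝ) (q u : ℝ × ℝ → ℝ) (a : ℝ) (b : ℝ × ℝ), SolS q u Λ σ (closedBall 0 8) → 0 ≤ Λ →
    0 ≤ σ → σ ≤ 1 → PosM u (closedBall 0 1) → IsMaj u a b → m = ‖b‖ + Defi u a b → K ≤ m →
    K * Λ ≤ m → Defi u a b ≤ d → Real.sqrt m ≤ d → CA * (σ * Λ ^ 2) / m ≤ d →
    ∃ (a' : ℤ × ℤ → ℝ) (b' : ℤ × ℤ → ℝ × ℝ),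
      (∀ c ∈ desc A 1 0, IsMaj (resc u (cen A c) (1 / A)) (a' c) (b' c)) ∧
      ∑ c ∈ desc A 1 0, Defi (resc u (cen A c) (1 / A)) (a' c) (b' c) ≤
        (A : ℝ) ^ 2 * (κ / A * d) ∧
      ∑ c ∈ desc A 1 0, ‖(A : ℝ) • b' c - b‖ ≤ (A : ℝ) ^ 2 * (CA * d)

/-- U4: nondegeneracy. Here `B` will be a power of `A`. -/
def U4 : Prop := ∀ C ε : ℝ, 0 < C → 0 < ε → ∃ B0 : ℕ, ∀ B : ℕ, B0 ≤ B →
  ∃ c0 c1 K : ℝ, 0 < c0 ∧ 0 < c1 ∧ 1 ≤ K ∧ ∀ (m Λ σ : ℝ) (q u : ℝ × ℝ → ℝ),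
    SolS q u Λ σ (closedBall 0 64) → 0 ≤ Λ → 0 ≤ σ → σ ≤ 1 → PosM u (closedBall 0 64) → K ≤ m →
    K * Λ ≤ m → (∀ z ∈ closedBall (0 : ℝ × ℝ) 64, ∀ z' ∈ closedBall (0 : ℝ × ℝ) 64,
      |u z'| ≤ M u z (1 / 16) * Real.exp (C * m)) →
    (∃ a : ℝ, IsMaj u a 0 ∧ Defi u a 0 ≤ ε * m) ∨
    ∃ G : Finset (ℤ × ℤ), c0 * (B : ℝ) ^ 2 ≤ G.card ∧ ∀ c ∈ G,
      cen B c ∈ closedBall (0 : ℝ × ℝ) 9 ∧ ∃ (a : ℝ) (b : ℝ × ℝ),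
        IsMaj (resc u (cen B c) (1 / B)) a b ∧ c1 * m ≤ B * ‖b‖ ∧
        Defi (resc u (cen B c) (1 / B)) a b ≤ ε * ‖b‖

end Pool.Agent.H88.Yau
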