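import Pool.Agent.H88.Yau.Unit
import Pool.Agent.H24.Near.Index

set_option autoImplicit false

/-!
# Basic facts on majorants and deficits
-/

namespace Pool.Agent.H88.Yau

open MeasureTheory Set Metric Pool.Agent.H24.Near

lemma continuous_aff (a : ℝ) (b : ℝ × ℝ) : Continuous (aff a b) := by
  unfold aff; fun_prop

lemma continuous_tw {u : ℝ × ℝ → ℝ} (hu : Continuous u) (a : ℝ) (b : ℝ × ℝ) :
    Continuous (tw u a b) := by
  unfold tw
  exact hu.mul (Real.continuous_exp.comp (continuous_aff a b).neg)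

lemma continuous_resc {u : ℝ × ℝ → ℝ} (hu : Continuous u) (x : ℝ × ℝ) (r : ℝ) :
    Continuous (resc u x r) := by
  unfold resc; fun_prop

lemma resc_resc (u : ℝ × ℝ → ℝ) (x x' : ℝ × ℝ) (r r' : ℝ) :
    resc (resc u x r) x' r' = resc u (x + r • x') (r * r') := by
  funext z
  unfold resc
  rw [smul_add, smul_smul, add_assoc]

lemma M_resc {u : ℝ × ℝ → ℝ} (x : ℝ × ℝ) {r : ℝ} (hr : 0 < r) (z : ℝ × ℝ) (s : ℝ) :
    M (resc u x r) z s = M u (x + r • z) (r * s) := M_scale x hr z s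

lemma add_smul_mem {x y z : ℝ × ℝ} {r ρ s : ℝ} (hr : 0 ≤ r) (hx : ‖x - y‖ + r * ρ ≤ s)
    (hz : z ∈ closedBall (0 : ℝ × ℝ) ρ) : x + r • z ∈ closedBall y s := by
  rw [mem_closedBall_zero_iff] at hz
  rw [mem_closedBall, dist_eq_norm]
  calc ‖x + r • z - y‖ = ‖(x - y) + r • z‖ := by congr 1; abel
    _ ≤ ‖x - y‖ + ‖r • z‖ := norm_add_le _ _
    _ ≤ ‖x - y‖ + r * ρ := by
        rw [norm_smul, Real.norm_eq_abs, abs_of_nonneg hr]
        gcongr
    _ ≤ s := hx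

/-- Rescaling of solutions. -/
lemma SolS.resc {q u : ℝ × ℝ → ℝ} {Λ σ : ℝ} {S : Set (ℝ × ℝ)} (h : SolS q u Λ σ S)
    (c : ℝ × ℝ) {r : ℝ} (hr : 0 ≤ r) {T : Set (ℝ × ℝ)} (hT : ∀ p ∈ T, c + r • p ∈ S) :
    SolS (fun x => r ^ 2 * q (c + r • x)) (resc u c r) (r * Λ) (r * σ) T where
  smooth_q := contDiff_const.mul (h.smooth_q.scale c r)
  smooth_u := h.smooth_u.scale c r
  eq := by
    intro p hp
    change lap (fun x => u (c + r • x)) p + r ^ 2 * q (c + r • p) * u (c + r • p) = 0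
    rw [lap_scale h.smooth_u]
    linear_combination r ^ 2 * h.eq _ (hT p hp)
  bq := by
    intro p hp
    rw [abs_mul, abs_of_nonneg (by positivity : 0 ≤ r ^ 2), mul_pow]
    exact mul_le_mul_of_nonneg_left (h.bq _ (hT p hp)) (by positivity)
  bq1 := by
    intro p hp
    rw [d1_const_mul (r ^ 2) ((h.smooth_q.scale c r).differentiable p),
      d1_scale h.smooth_q.differentiable, abs_mul, abs_mul,
      abs_of_nonneg (by positivity : 0 ≤ r ^ 2), abs_of_nonneg hr]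
    have h1 := h.bq1 _ (hT p hp)
    calc r ^ 2 * (r * |d1 q (c + r • p)|) ≤ r ^ 2 * (r * (σ * Λ ^ 2)) := by gcongr
      _ = _ := by ring
  bq2 := by
    intro p hp
    rw [d2_const_mul (r ^ 2) ((h.smooth_q.scale c r).differentiable p),
      d2_scale h.smooth_q.differentiable, abs_mul, abs_mul,
      abs_of_nonneg (by positivity : 0 ≤ r ^ 2), abs_of_nonneg hr]
    have h1 := h.bq2 _ (hT p hp)
    calc r ^ 2 * (r * |d2 q (c + r • p)|) ≤ r ^ 2 * (r * (σ * Λ ^ 2)) := by gcongr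
      _ = _ := by ring

lemma PosM.resc {u : ℝ × ℝ → ℝ} {S T : Set (ℝ × ℝ)} (h : PosM u S) (c : ℝ × ℝ) {r : ℝ}
    (hr : 0 < r) (hT : ∀ p ∈ T, c + r • p ∈ S) : PosM (resc u c r) T := by
  intro z hz s hs
  rw [M_resc c hr]
  exact h _ (hT z hz) _ (mul_pos hr hs)

lemma PosM.mono {u : ℝ × ℝ → ℝ} {S T : Set (ℝ × ℝ)} (h : PosM u S) (hT : T ⊆ S) : PosM u T :=
  fun z hz r hr => h z (hT hz) r hr

lemma M_pos_tw {u : ℝ × ℝ → ℝ} (hu : Continuous u) (a : ℝ) (b z : ℝ × ℝ) {r : ℝ} (hr : 0 ≤ r)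
    (h : 0 < M u z r) : 0 < M (tw u a b) z r := by
  obtain ⟨p, hp, hpM⟩ := exists_M hu hr
  have h1 := le_M (continuous_tw hu a b) hp
  refine lt_of_lt_of_le ?_ h1
  unfold tw
  rw [abs_mul, hpM, Real.abs_exp]
  positivity

/-- The deficit at a point is nonnegative. -/
lemma deficit_nonneg {u : ℝ × ℝ → ℝ} {a : ℝ} {b z : ℝ × ℝ} (h : IsMaj u a b)
    (hz : z ∈ closedBall (0 : ℝ × ℝ) (1 / 2)) : 0 ≤ -Real.log (M (tw u a b) z (1 / 16)) := by
  rw [neg_nonneg]
  apply Real.log_nonpos M_nonneg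
  apply M_le (by norm_num)
  intro p hp
  unfold tw
  rw [abs_mul, Real.abs_exp]
  have hp8 : p ∈ closedBall (0 : ℝ × ℝ) 8 := by
    rw [mem_closedBall] at *
    calc dist p 0 ≤ dist p z + dist z 0 := dist_triangle _ _ _
      _ ≤ 1 / 16 + 1 / 2 := add_le_add hp hz
      _ ≤ 8 := by norm_num
  calc |u p| * Real.exp (-aff a b p) ≤ Real.exp (aff a b p) * Real.exp (-aff a b p) := by
        gcongr
        exact h p hp8
    _ = 1 := by rw [← Real.exp_add]; simp

lemma Defi_nonneg {u : ℝ × ℝ → ℝ} {a : ℝ} {b : ℝ × ℝ} (h : IsMaj u a b) : 0 ≤ Defi u a b :=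
  setIntegral_nonneg measurableSet_closedBall fun _ hz => deficit_nonneg h hz

lemma volume_half : (volume (closedBall (0 : ℝ × ℝ) (1 / 2))).toReal = 1 := by
  rw [show closedBall (0 : ℝ × ℝ) (1 / 2) = closedBall (0 : ℝ) (1 / 2) ×ˢ closedBall (0 : ℝ) (1 / 2)
    from (closedBall_prod_same (0 : ℝ) (0 : ℝ) (1 / 2)).symm, Measure.volume_eq_prod,
    Measure.prod_prod, Real.volume_closedBall, ENNReal.toReal_mul]
  norm_num

lemma continuousOn_deficit {u : ℝ × ℝ → ℝ} (hu : Continuous u) (a : ℝ) (b : ℝ × ℝ)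
    (hp : PosM u (closedBall 0 (1 / 2))) :
    ContinuousOn (fun z => -Real.log (M (tw u a b) z (1 / 16))) (closedBall (0 : ℝ × ℝ) (1 / 2)) := by
  apply ContinuousOn.neg
  apply ContinuousOn.log
  · exact (continuous_M (continuous_tw hu a b) (by norm_num)).continuousOn
  · intro z hz
    exact (M_pos_tw hu a b z (by norm_num) (hp z hz _ (by norm_num))).ne'

lemma integrableOn_deficit {u : ℝ × ℝ → ℝ} (hu : Continuous u) (a : ℝ) (b : ℝ × ℝ)
    (hp : PosM u (closedBall 0 (1 / 2))) :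
    IntegrableOn (fun z => -Real.log (M (tw u a b) z (1 / 16)))
      (closedBall (0 : ℝ × ℝ) (1 / 2)) :=
  (continuousOn_deficit hu a b hp).integrableOn_compact (isCompact_closedBall _ _)

/-- A pointwise bound gives a bound of the mean deficit. -/
lemma Defi_le {u : ℝ × ℝ → ℝ} (hu : Continuous u) {a : ℝ} {b : ℝ × ℝ} {s : ℝ}
    (hp : PosM u (closedBall 0 (1 / 2)))
    (h : ∀ z ∈ closedBall (0 : ℝ × ℝ) (1 / 2), -Real.log (M (tw u a b) z (1 / 16)) ≤ s) :
    Defi u a b ≤ s := by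
  have h1 : Defi u a b ≤ ∫ z in closedBall (0 : ℝ × ℝ) (1 / 2), s := by
    apply setIntegral_mono_on (integrableOn_deficit hu a b hp)
      (integrableOn_const (measure_closedBall_lt_top).ne) measurableSet_closedBall h
  refine h1.trans (le_of_eq ?_)
  rw [setIntegral_const, smul_eq_mul, Measure.real, volume_half, one_mul]

/-- There are near-minimisers of the deficit. -/
lemma exists_best {u : ℝ × ℝ → ℝ} (hu : Continuous u) : ∃ (a : ℝ) (b : ℝ × ℝ), IsMaj u a b ∧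
    ∀ a' b', IsMaj u a' b' → Defi u a b ≤ Defi u a' b' + 1 := by
  set T : Set ℝ := {x | ∃ a b, IsMaj u a b ∧ Defi u a b = x} with hT
  have hne : T.Nonempty := by
    refine ⟨_, Real.log (M u 0 8 + 1), 0, ?_, rfl⟩
    intro z hz
    have h1 := le_M hu hz
    have h2 : 0 ≤ M u 0 8 := M_nonneg
    unfold aff
    simp only [Prod.fst_zero, Prod.snd_zero, zero_mul, add_zero]
    rw [Real.exp_log (by linarith)]
    linarith
  have hbdd : BddBelow T := ⟨0, by rintro x ⟨a, b, h, rfl⟩; exact Defi_nonneg h⟩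
  obtain ⟨x, ⟨a, b, h, rfl⟩, hx⟩ := exists_lt_of_csInf_lt hne (lt_add_one (sInf T))
  refine ⟨a, b, h, fun a' b' h' => ?_⟩
  have h1 := csInf_le hbdd ⟨a', b', h', rfl⟩
  linarith

end Pool.Agent.H88.Yau
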