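import Pool.Agent.H88.Yau.TwoSlopes

set_option autoImplicit false

/-!
# Near-minimising majorants and the unit-scale statements for them
-/

namespace Pool.Agent.H88.Yau

open MeasureTheory Set Metric Pool.Agent.H24.Near

open scoped Classical in
/-- A near-minimising majorant. -/
noncomputable def best (u : ℝ × ℝ → ℝ) : ℝ × (ℝ × ℝ) :=
  if h : Continuous u then ((exists_best h).choose, (exists_best h).choose_spec.choose) else 0

/-- The slope of the near-minimising majorant. -/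
noncomputable def Bs (u : ℝ × ℝ → ℝ) : ℝ × ℝ := (best u).2

/-- The deficit of the near-minimising majorant. -/
noncomputable def Ds (u : ℝ × ℝ → ℝ) : ℝ := Defi u (best u).1 (best u).2

/-- The size. -/
noncomputable def mo (u : ℝ × ℝ → ℝ) : ℝ := ‖Bs u‖ + Ds u

lemma best_spec {u : ℝ × ℝ → ℝ} (hu : Continuous u) : IsMaj u (best u).1 (best u).2 ∧
    ∀ a' b', IsMaj u a' b' → Ds u ≤ Defi u a' b' + 1 := by
  unfold Ds best
  rw [dif_pos hu]
  exact (exists_best hu).choose_spec.choose_spec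

lemma Ds_nonneg {u : ℝ × ℝ → ℝ} (hu : Continuous u) : 0 ≤ Ds u := Defi_nonneg (best_spec hu).1

lemma mo_nonneg {u : ℝ × ℝ → ℝ} (hu : Continuous u) : 0 ≤ mo u :=
  add_nonneg (norm_nonneg _) (Ds_nonneg hu)

/-- Comparison of the near-minimiser with any majorant. -/
lemma Bs_sub_le {C0 : ℝ} (hC0 : 1 ≤ C0)
    (h1 : ∀ (u : ℝ × ℝ → ℝ) (a a' : ℝ) (b b' : ℝ × ℝ), Continuous u →
      PosM u (closedBall 0 (1 / 2)) → IsMaj u a b → IsMaj u a' b' →
      ‖b - b'‖ ≤ C0 * (Defi u a b + Defi u a' b'))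
    {u : ℝ × ℝ → ℝ} (hu : Continuous u) (hp : PosM u (closedBall 0 (1 / 2))) {a : ℝ} {b : ℝ × ℝ}
    (h : IsMaj u a b) : ‖Bs u - b‖ ≤ C0 * (2 * Defi u a b + 1) := by
  obtain ⟨h2, h3⟩ := best_spec hu
  have h4 := h1 u _ a _ b hu hp h2 h
  have h5 := h3 a b h
  unfold Bs
  refine h4.trans (mul_le_mul_of_nonneg_left ?_ (by linarith))
  unfold Ds at h5
  linarith

/-- The restriction to a small square. -/
noncomputable def child (v : ℝ × ℝ → ℝ) (A : ℕ) (c : ℤ × ℤ) : ℝ × ℝ → ℝ :=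
  resc v (cen A c) (1 / A)

lemma continuous_child {v : ℝ × ℝ → ℝ} (hv : Continuous v) (A : ℕ) (c : ℤ × ℤ) :
    Continuous (child v A c) := continuous_resc hv _ _

lemma cen_coord_le {P : ℕ} (hP : 1 ≤ P) {x i : ℤ} {H : ℝ} (h1 : i * (P : ℤ) ≤ x)
    (h2 : x + 1 ≤ (i + 1) * (P : ℤ)) (hi : |(i : ℝ)| ≤ H) :
    |(((x : ℝ) + 1 / 2) / P - 1 / 2) / 16| ≤ (H + 1 / 2) / 16 := by
  have hP0 : (0 : ℝ) < P := by exact_mod_cast (by omega : 0 < P)
  have h1' : (i : ℝ) * P ≤ x := by exact_mod_cast h1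
  have h2' : (x : ℝ) + 1 ≤ (i + 1) * P := by exact_mod_cast h2
  rw [abs_le] at hi
  have h3 : (i : ℝ) ≤ ((x : ℝ) + 1 / 2) / P := by
    rw [le_div_iff₀ hP0]; linarith
  have h4 : ((x : ℝ) + 1 / 2) / P ≤ i + 1 := by
    rw [div_le_iff₀ hP0]; linarith only [h2']
  rw [abs_le]
  constructor <;> linarith only [h3, hi.1, h4, hi.2]

/-- Centres of the squares below the roots with index at most `H`. -/
lemma norm_cen_le {A : ℕ} (hA : 2 ≤ A) {k : ℕ} {c : ℤ × ℤ} {H : ℕ} (h : near H (anc A k c) 0) :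
    ‖cen (A ^ k) c‖ ≤ ((H : ℝ) + 1 / 2) / 16 := by
  have hp := powpos hA k
  have hPN : 1 ≤ A ^ k := Nat.one_le_pow _ _ (by omega)
  obtain ⟨h1, h2⟩ := h
  simp only [anc, Prod.fst_zero, Prod.snd_zero, sub_zero] at h1 h2
  have key : ∀ x : ℤ, |x / (A : ℤ) ^ k| ≤ (H : ℤ) →
      |(((x : ℝ) + 1 / 2) / ((A ^ k : ℕ) : ℝ) - 1 / 2) / 16| ≤ ((H : ℝ) + 1 / 2) / 16 := by
    intro x hx
    have e := (Int.ediv_eq_iff_of_pos hp (x := x) (y := x / (A : ℤ) ^ k)).mp rfl
    refine cen_coord_le hPN (i := x / (A : ℤ) ^ k) ?_ ?_ ?_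
    · push_cast; exact e.1
    · push_cast; linarith only [e.2]
    · rw [← Int.cast_abs]; exact_mod_cast hx
  rw [Prod.norm_def, max_le_iff, Real.norm_eq_abs, Real.norm_eq_abs]
  unfold cen
  exact ⟨key _ h1, key _ h2⟩

lemma PosM.child {v : ℝ × ℝ → ℝ} {A : ℕ} (hA : 2 ≤ A) {c : ℤ × ℤ} {H : ℕ}
    (hc : near H (anc A 1 c) 0) {ρ s : ℝ} (hv : PosM v (closedBall 0 ρ))
    (h : ((H : ℝ) + 1 / 2) / 16 + 1 / A * s ≤ ρ) :
    PosM (child v A c) (closedBall 0 s) := by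
  have hA0 : (0 : ℝ) < 1 / A := by
    have : (0 : ℝ) < A := by exact_mod_cast (by omega : 0 < A)
    positivity
  apply hv.resc _ hA0
  intro p hp
  apply add_smul_mem hA0.le _ hp
  rw [sub_zero]
  have := norm_cen_le (k := 1) hA hc
  rw [pow_one] at this
  linarith only [h, this]

/-- U2 for near-minimisers. -/
lemma U2_best (h2 : U2) : ∀ A : ℕ, 12 ≤ A → ∃ K CA : ℝ, 1 ≤ K ∧ 1 ≤ CA ∧
    ∀ (m Λ σ : ℝ) (q v : ℝ × ℝ → ℝ), SolS q v Λ σ (closedBall 0 8) → 0 ≤ Λ →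
    0 ≤ σ → σ ≤ 1 → PosM v (closedBall 0 1) → mo v ≤ m → K ≤ m → K * Λ ≤ m →
      (∀ z ∈ closedBall (0 : ℝ × ℝ) (1 / 4), ∀ z' ∈ closedBall (0 : ℝ × ℝ) 1,
        |v z'| ≤ M v z (1 / (16 * A)) * Real.exp (CA * m)) ∧
      ∀ c, near 1 (anc A 1 c) 0 → mo (child v A c) ≤ CA * m := by
  obtain ⟨C0, hC0, h1⟩ := u1
  intro A hA
  obtain ⟨K, CA, hK, hCA, h2⟩ := h2 A (by omega)
  refine ⟨K, 2 * C0 * CA + C0 + CA + 1, hK, by nlinarith only [hC0, hCA], ?_⟩
  intro m Λ σ q v hs hΛ hσ hσ1 hp hm hKm hKΛ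
  have hv : Continuous v := hs.smooth_u.continuous
  have hm1 : 1 ≤ m := hK.trans hKm
  have hgr := h2 m Λ σ q v _ _ hs hΛ hσ hσ1 hp (best_spec hv).1 hm hKm hKΛ
  have hA0 : (0 : ℝ) < A := by exact_mod_cast (by omega : 0 < A)
  have hA12 : (12 : ℝ) ≤ A := by exact_mod_cast hA
  refine ⟨fun z hz z' hz' => (hgr z hz z' hz').trans ?_, ?_⟩
  · have : 0 ≤ M v z (1 / (16 * A)) := M_nonneg
    gcongr
    nlinarith only [hC0, hCA]
  · intro c hc
    have hcn := norm_cen_le (k := 1) (H := 1) (by omega) hc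
    rw [pow_one] at hcn
    norm_num at hcn
    set w := child v A c with hw
    have hwc : Continuous w := continuous_child hv A c
    have hinv : 1 / (A : ℝ) ≤ 1 / 12 := by gcongr
    have hinv0 : 0 < 1 / (A : ℝ) := by positivity
    have hwp : PosM w (closedBall 0 (1 / 2)) :=
      PosM.child (H := 1) (by omega) hc hp (by push_cast; nlinarith only [hinv])
    -- the constant majorant
    set T := M v 0 1 with hT
    have hTpos : 0 < T := by
      have := hp 0 (by simp) 1 one_pos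
      exact this
    have hmaj : IsMaj w (Real.log T) 0 := by
      intro z hz
      have : cen A c + (1 / (A : ℝ)) • z ∈ closedBall (0 : ℝ × ℝ) 1 := by
        apply add_smul_mem hinv0.le _ hz
        rw [sub_zero]
        nlinarith only [hcn, hinv, hinv0]
      have h3 := le_M hv this
      unfold aff
      simp only [Prod.fst_zero, Prod.snd_zero, zero_mul, add_zero]
      rw [Real.exp_log hTpos]
      exact h3
    have hdef : Defi w (Real.log T) 0 ≤ CA * m := by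
      apply Defi_le hwc hwp
      intro z hz
      have hz1 : cen A c + (1 / (A : ℝ)) • z ∈ closedBall (0 : ℝ × ℝ) (1 / 4) := by
        apply add_smul_mem hinv0.le _ hz
        rw [sub_zero]
        nlinarith only [hcn, hinv]
      have h3 : T ≤ M w z (1 / 16) * Real.exp (CA * m) := by
        apply M_le (by norm_num)
        intro z' hz'
        have := hgr _ hz1 z' hz'
        rw [hw, child, M_resc _ hinv0]
        have e : 1 / (A : ℝ) * (1 / 16) = 1 / (16 * A) := by ring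
        rw [e]
        exact this
      have hMw := hwp z hz (1 / 16) (by norm_num)
      have h4 : M (tw w (Real.log T) 0) z (1 / 16) = M w z (1 / 16) * T⁻¹ := by
        have : tw w (Real.log T) 0 = fun x => T⁻¹ * w x := by
          funext x
          unfold tw aff
          simp only [Prod.fst_zero, Prod.snd_zero, zero_mul, add_zero]
          rw [Real.exp_neg, Real.exp_log hTpos]
          ring
        rw [this, M_const_mul (by positivity)]
        ring
      rw [h4, Real.log_mul hMw.ne' (by positivity), Real.log_inv]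
      have h5 : Real.log T ≤ Real.log (M w z (1 / 16)) + CA * m := by
        rw [← Real.log_exp (CA * m), ← Real.log_mul hMw.ne' (Real.exp_pos _).ne']
        exact Real.log_le_log hTpos h3
      linarith only [h5]
    have h3 := (best_spec hwc).2 _ _ hmaj
    have h4 := Bs_sub_le hC0 h1 hwc hwp hmaj
    rw [sub_zero] at h4
    unfold mo
    have h5 : C0 * (2 * Defi w (Real.log T) 0 + 1) ≤ C0 * (2 * (CA * m) + 1) := by gcongr
    nlinarith only [hC0, hK, hKm, hdef, h3, h4]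

/-- U3 for near-minimisers. -/
lemma U3_best (h3 : U3) : ∀ κ : ℝ, 0 < κ → ∃ A0 : ℕ, ∀ A : ℕ, A0 ≤ A → ∃ K CA : ℝ, 1 ≤ K ∧
    1 ≤ CA ∧ ∀ (Λ σ : ℝ) (q v : ℝ × ℝ → ℝ), SolS q v Λ σ (closedBall 0 8) → 0 ≤ Λ →
    0 ≤ σ → σ ≤ 1 → PosM v (closedBall 0 1) → K ≤ mo v → K * Λ ≤ mo v →
    ∑ c ∈ desc A 1 0, Ds (child v A c) ≤
      (A : ℝ) ^ 2 * (κ / A * (Ds v + Real.sqrt (mo v) + CA * (σ * Λ ^ 2) / mo v)) ∧
    ∑ c ∈ desc A 1 0, ‖(A : ℝ) • Bs (child v A c) - Bs v‖ ≤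
      (A : ℝ) ^ 2 * (CA * (Ds v + Real.sqrt (mo v) + CA * (σ * Λ ^ 2) / mo v)) := by
  obtain ⟨C0, hC0, h1⟩ := u1
  intro κ hκ
  obtain ⟨A0, h3⟩ := h3 (κ / 2) (by positivity)
  refine ⟨max A0 12, fun A hA => ?_⟩
  have hA12 : 12 ≤ A := le_trans (le_max_right _ _) hA
  obtain ⟨K, CA, hK, hCA, h3⟩ := h3 A (le_trans (le_max_left _ _) hA)
  have hA0 : (0 : ℝ) < A := by exact_mod_cast (by omega : 0 < A)
  refine ⟨max K ((2 * A / κ) ^ 2), C0 * (2 * κ + 1) + CA, le_trans hK (le_max_left _ _),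
    by nlinarith only [hC0, hκ, hCA], ?_⟩
  intro Λ σ q v hs hΛ hσ hσ1 hp hKm hKΛ
  have hv : Continuous v := hs.smooth_u.continuous
  have hK1 : K ≤ mo v := le_trans (le_max_left _ _) hKm
  have hK2 : (2 * A / κ) ^ 2 ≤ mo v := le_trans (le_max_right _ _) hKm
  have hm1 : 1 ≤ mo v := hK.trans hK1
  set CA' : ℝ := C0 * (2 * κ + 1) + CA with hCA'
  have hCACA : CA ≤ CA' := by rw [hCA']; nlinarith only [hC0, hκ]
  set d : ℝ := Ds v + Real.sqrt (mo v) + CA' * (σ * Λ ^ 2) / mo v with hd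
  have hDs := Ds_nonneg hv
  have hsq : 0 ≤ Real.sqrt (mo v) := Real.sqrt_nonneg _
  have hthird : 0 ≤ CA' * (σ * Λ ^ 2) / mo v := by positivity
  have hthird' : CA * (σ * Λ ^ 2) / mo v ≤ CA' * (σ * Λ ^ 2) / mo v := by gcongr
  have hsqA : 2 * A / κ ≤ Real.sqrt (mo v) := by
    apply Real.le_sqrt_of_sq_le hK2
  have hdA : 2 * A / κ ≤ d := by linarith only [hDs, hthird, hsqA]
  have hdA' : (A : ℝ) ≤ κ / 2 * d := by
    have : κ / 2 * (2 * A / κ) = A := by field_simp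
    rw [← this]
    gcongr
  obtain ⟨a', b', hmaj, hsum1, hsum2⟩ := h3 (mo v) d Λ σ q v _ _ hs hΛ hσ hσ1 hp
    (best_spec hv).1 rfl hK1 (le_trans (by gcongr; exact le_max_left _ _) hKΛ)
    (by change Ds v ≤ d; linarith only [hsq, hthird]) (by linarith only [hDs, hthird]) (by linarith only [hDs, hsq, hthird'])
  have hchp : ∀ c ∈ desc A 1 0, PosM (child v A c) (closedBall 0 (1 / 2)) := by
    intro c hc
    rw [mem_desc (by omega)] at hc
    refine PosM.child (H := 1) (by omega) (by rw [hc]; exact near_refl (by norm_num) _) hp ?_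
    have : 1 / (A : ℝ) ≤ 1 / 12 := by
      have : (12 : ℝ) ≤ A := by exact_mod_cast hA12
      gcongr
    push_cast
    linarith only [this]
  have hone : ∑ c ∈ desc A 1 (0 : ℤ × ℤ), (1 : ℝ) = (A : ℝ) ^ 2 := by
    rw [Finset.sum_const, nsmul_eq_mul, mul_one, card_desc]
  constructor
  · calc ∑ c ∈ desc A 1 0, Ds (child v A c)
        ≤ ∑ c ∈ desc A 1 0, (Defi (resc v (cen A c) (1 / A)) (a' c) (b' c) + 1) := by
          apply Finset.sum_le_sum
          intro c hc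
          exact (best_spec (continuous_child hv A c)).2 _ _ (hmaj c hc)
      _ = ∑ c ∈ desc A 1 0, Defi (resc v (cen A c) (1 / A)) (a' c) (b' c) + (A : ℝ) ^ 2 := by
          rw [Finset.sum_add_distrib, hone]
      _ ≤ (A : ℝ) ^ 2 * (κ / 2 / A * d) + (A : ℝ) ^ 2 * 1 := by
          rw [mul_one]; gcongr
      _ ≤ (A : ℝ) ^ 2 * (κ / 2 / A * d) + (A : ℝ) ^ 2 * (κ / 2 / A * d) := by
          gcongr
          rw [div_mul_eq_mul_div, le_div_iff₀ hA0, one_mul]
          exact hdA'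
      _ = (A : ℝ) ^ 2 * (κ / A * d) := by ring
  · have hpt : ∀ c ∈ desc A 1 0, ‖(A : ℝ) • Bs (child v A c) - Bs v‖ ≤
        A * (C0 * (2 * Defi (resc v (cen A c) (1 / A)) (a' c) (b' c) + 1)) +
          ‖(A : ℝ) • b' c - (best v).2‖ := by
      intro c hc
      have e : (A : ℝ) • Bs (child v A c) - Bs v =
          (A : ℝ) • (Bs (child v A c) - b' c) + ((A : ℝ) • b' c - (best v).2) := by
        unfold Bs
        rw [smul_sub]; abel
      rw [e]
      refine (norm_add_le _ _).trans ?_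
      rw [norm_smul, Real.norm_eq_abs, abs_of_pos hA0]
      gcongr
      exact Bs_sub_le hC0 h1 (continuous_child hv A c) (hchp c hc) (hmaj c hc)
    calc ∑ c ∈ desc A 1 0, ‖(A : ℝ) • Bs (child v A c) - Bs v‖
        ≤ ∑ c ∈ desc A 1 0, (A * (C0 * (2 * Defi (resc v (cen A c) (1 / A)) (a' c) (b' c) + 1)) +
          ‖(A : ℝ) • b' c - (best v).2‖) := Finset.sum_le_sum hpt
      _ = 2 * A * C0 * ∑ c ∈ desc A 1 0, Defi (resc v (cen A c) (1 / A)) (a' c) (b' c) +
          A * C0 * (A : ℝ) ^ 2 + ∑ c ∈ desc A 1 0, ‖(A : ℝ) • b' c - (best v).2‖ := by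
          rw [← hone, Finset.mul_sum, Finset.mul_sum, ← Finset.sum_add_distrib,
            ← Finset.sum_add_distrib]
          apply Finset.sum_congr rfl
          intro c _
          ring
      _ ≤ 2 * A * C0 * ((A : ℝ) ^ 2 * (κ / 2 / A * d)) + κ / 2 * d * C0 * (A : ℝ) ^ 2 +
          (A : ℝ) ^ 2 * (CA * d) := by gcongr
      _ = (A : ℝ) ^ 2 * ((C0 * (κ + κ / 2) + CA) * d) := by
          field_simp
      _ ≤ (A : ℝ) ^ 2 * (CA' * d) := by
          have hd0 : 0 ≤ d := by positivity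
          gcongr
          rw [hCA']
          nlinarith only [hC0, hCACA]

/-- U4 for near-minimisers. -/
lemma U4_best (h4 : U4) : ∀ C ε : ℝ, 0 < C → 0 < ε → ∃ B0 : ℕ, ∀ B : ℕ, B0 ≤ B →
  ∃ c0 c1 K : ℝ, 0 < c0 ∧ 0 < c1 ∧ 1 ≤ K ∧ ∀ (m Λ σ : ℝ) (q v : ℝ × ℝ → ℝ),
    SolS q v Λ σ (closedBall 0 64) → 0 ≤ Λ → 0 ≤ σ → σ ≤ 1 → PosM v (closedBall 0 64) → K ≤ m →
    K * Λ ≤ m → (∀ z ∈ closedBall (0 : ℝ × ℝ) 64, ∀ z' ∈ closedBall (0 : ℝ × ℝ) 64,
      |v z'| ≤ M v z (1 / 16) * Real.exp (C * m)) →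
    mo v < m ∨ ∃ G : Finset (ℤ × ℤ), c0 * (B : ℝ) ^ 2 ≤ G.card ∧ ∀ c ∈ G,
      cen B c ∈ closedBall (0 : ℝ × ℝ) 9 ∧ c1 * m ≤ B * ‖Bs (child v B c)‖ ∧
        Ds (child v B c) ≤ ε * ‖Bs (child v B c)‖ := by
  obtain ⟨C0, hC0, h1⟩ := u1
  intro C ε hC hε
  set ε' : ℝ := min (ε / 4) (1 / (16 * C0)) with hε'
  have hε'0 : 0 < ε' := by
    apply lt_min <;> positivity
  have hε'1 : ε' ≤ ε / 4 := min_le_left _ _
  have hε'2 : ε' * (16 * C0) ≤ 1 := by
    have : ε' ≤ 1 / (16 * C0) := min_le_right _ _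
    rwa [le_div_iff₀ (by positivity)] at this
  obtain ⟨B0, h4⟩ := h4 C ε' hC hε'0
  refine ⟨max B0 1, fun B hB => ?_⟩
  obtain ⟨c0, c1, K, hc0, hc1, hK, h4⟩ := h4 B (le_trans (le_max_left _ _) hB)
  have hB1 : 1 ≤ B := le_trans (le_max_right _ _) hB
  have hBpos : (0 : ℝ) < B := by exact_mod_cast hB1
  have hB1' : (1 : ℝ) ≤ B := by exact_mod_cast hB1
  refine ⟨c0, c1 / 2, max (max K (4 * (C0 + 1))) (max (4 * C0 * B / c1) (B / (ε' * c1))), hc0,
    by positivity, le_trans hK (le_trans (le_max_left _ _) (le_max_left _ _)), ?_⟩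
  intro m Λ σ q v hs hΛ hσ hσ1 hp hKm hKΛ hgr
  have hv : Continuous v := hs.smooth_u.continuous
  have hK1 : K ≤ m := le_trans (le_trans (le_max_left _ _) (le_max_left _ _)) hKm
  have hK2 : 4 * (C0 + 1) ≤ m := le_trans (le_trans (le_max_right _ _) (le_max_left _ _)) hKm
  have hK3 : 4 * C0 * B / c1 ≤ m := le_trans (le_trans (le_max_left _ _) (le_max_right _ _)) hKm
  have hK4 : B / (ε' * c1) ≤ m := le_trans (le_trans (le_max_right _ _) (le_max_right _ _)) hKm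
  have hm0 : 0 < m := by linarith only [hC0, hK2]
  have hKΛ1 : K * Λ ≤ m := le_trans
    (by gcongr; exact le_trans (le_max_left _ _) (le_max_left _ _)) hKΛ
  rcases h4 m Λ σ q v hs hΛ hσ hσ1 hp hK1 hKΛ1 hgr with ⟨a, hmaj, hdef⟩ | ⟨G, hG1, hG2⟩
  · left
    have e1 := (best_spec hv).2 _ _ hmaj
    have e2 := Bs_sub_le hC0 h1 hv
      (hp.mono (closedBall_subset_closedBall (by norm_num))) hmaj
    rw [sub_zero] at e2
    have e3 : C0 * (2 * Defi v a 0 + 1) ≤ C0 * (2 * (ε' * m) + 1) := by gcongr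
    have e4 : ε' * C0 ≤ 1 / 16 := by linarith only [hε'2]
    have e5 : ε' ≤ 1 / 16 := by nlinarith only [hC0, hε'2]
    unfold mo
    have e6 : C0 * (2 * (ε' * m) + 1) = 2 * (ε' * C0) * m + C0 := by ring
    nlinarith only [hC0, hε'0, hε'2, hK, hK1, hK2, hdef, e1, e2, e3, e5]
  · right
    refine ⟨G, hG1, fun c hc => ?_⟩
    obtain ⟨g1, a, b, hmaj, g2, g3⟩ := hG2 c hc
    refine ⟨g1, ?_⟩
    have hchp : PosM (child v B c) (closedBall 0 (1 / 2)) := by
      apply hp.resc _ (by positivity)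
      intro p hp'
      apply add_smul_mem (by positivity) _ hp'
      rw [sub_zero]
      rw [mem_closedBall_zero_iff] at g1
      have : 1 / (B : ℝ) ≤ 1 := by rw [div_le_one hBpos]; exact hB1'
      linarith only [g1, this]
    have hchc : Continuous (child v B c) := continuous_child hv B c
    have e1 := (best_spec hchc).2 _ _ hmaj
    have e2 := Bs_sub_le hC0 h1 hchc hchp hmaj
    have hb0 := norm_nonneg b
    have f1 : c1 * m / B ≤ ‖b‖ := by
      rw [div_le_iff₀ hBpos]; linarith only [g2]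
    have f2 : 4 * C0 ≤ ‖b‖ := by
      refine le_trans ?_ f1
      rw [le_div_iff₀ hBpos]
      rw [div_le_iff₀ hc1] at hK3
      linarith only [hK3]
    have f3 : 1 ≤ ε' * ‖b‖ := by
      have : B ≤ m * (ε' * c1) := by
        rwa [div_le_iff₀ (by positivity)] at hK4
      have h5 : 1 ≤ ε' * (c1 * m / B) := by
        rw [← mul_div_assoc, le_div_iff₀ hBpos]; linarith only [this]
      exact h5.trans (by gcongr)
    have f4 : C0 * (2 * Defi (child v B c) a b + 1) ≤ C0 * (2 * (ε' * ‖b‖) + 1) := by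
      gcongr
      exact g3
    have f5 : C0 * (2 * (ε' * ‖b‖) + 1) ≤ ‖b‖ / 2 := by
      have : ε' * C0 ≤ 1 / 16 := by linarith only [hε'2]
      have : C0 * (2 * (ε' * ‖b‖) + 1) = 2 * (ε' * C0) * ‖b‖ + C0 := by ring
      nlinarith only [hε'0, hε'2, f3]
    have f6 : ‖b‖ ≤ ‖Bs (child v B c)‖ + ‖Bs (child v B c) - b‖ := by
      have : b = Bs (child v B c) - (Bs (child v B c) - b) := by abel
      calc ‖b‖ = ‖Bs (child v B c) - (Bs (child v B c) - b)‖ := by rw [← this]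
        _ ≤ _ := norm_sub_le _ _
    have f7 : ‖b‖ / 2 ≤ ‖Bs (child v B c)‖ := by linarith only [e2, f4, f5, f6]
    constructor
    · nlinarith only [g2, e2, f4, f5, f6]
    · have g3' : Defi (child v B c) a b ≤ ε' * ‖b‖ := g3
      calc Ds (child v B c) ≤ ε' * ‖b‖ + ε' * ‖b‖ := by linarith only [e1, f3, g3']
        _ = 4 * ε' * (‖b‖ / 2) := by ring
        _ ≤ ε * ‖Bs (child v B c)‖ := by
            apply mul_le_mul _ f7 (by positivity) hε.le
            linarith only [hε'1]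

end Pool.Agent.H88.Yau
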