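import Pool.Agent.H88.Yau.Persist

set_option autoImplicit false

/-!
# The bounded average
-/

namespace Pool.Agent.H88.Yau

open Finset

variable {E : Type*} [NormedAddCommGroup E]

/-- The size of a square. -/
def RR (p : ℕ → ℤ × ℤ → E) (y : ℕ → ℤ × ℤ → ℝ) (k : ℕ) (q : ℤ × ℤ) : ℝ := ‖p k q‖ + y k q

/-- First passage squares of a size function `R`. -/
def FP (A J : ℕ) (K1 K2 : ℝ) (R : ℕ → ℤ × ℤ → ℝ) (k : ℕ) (q : ℤ × ℤ) : Prop :=
  1 ≤ k ∧ k ≤ J ∧ anc A k q = 0 ∧ K2 ≤ R k q ∧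
    ∀ j < k, (∀ i, j ≤ i → i < k → K1 ≤ R i (anc A (k - i) q)) → R j (anc A (k - j) q) < K2

/-- The square `(k1, q1)` kills the finer square `(k2, q2)`. -/
def kill (A H : ℕ) (K1 : ℝ) (R : ℕ → ℤ × ℤ → ℝ) (k1 : ℕ) (q1 : ℤ × ℤ) (k2 : ℕ) (q2 : ℤ × ℤ) :
    Prop :=
  k1 < k2 ∧ near ((H : ℤ) + 1) (anc A (k2 - k1) q2) q1 ∧
    ∀ i, k1 ≤ i → i < k2 → K1 ≤ R i (anc A (k2 - i) q2)

/-- The greedy selection. -/
def sel (A J H : ℕ) (K1 K2 : ℝ) (R : ℕ → ℤ × ℤ → ℝ) (k : ℕ) (q : ℤ × ℤ) : Prop :=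
  FP A J K1 K2 R k q ∧ ∀ k1, (_ : k1 < k) → ∀ q1, sel A J H K1 K2 R k1 q1 →
    ¬ kill A H K1 R k1 q1 k q
termination_by k

lemma sel_iff {A J H : ℕ} {K1 K2 : ℝ} {R : ℕ → ℤ × ℤ → ℝ} {k : ℕ} {q : ℤ × ℤ} :
    sel A J H K1 K2 R k q ↔ FP A J K1 K2 R k q ∧ ∀ k1 < k, ∀ q1, sel A J H K1 K2 R k1 q1 →
      ¬ kill A H K1 R k1 q1 k q := by
  rw [sel]

lemma sel_FP {A J H : ℕ} {K1 K2 : ℝ} {R : ℕ → ℤ × ℤ → ℝ} {k : ℕ} {q : ℤ × ℤ}
    (h : sel A J H K1 K2 R k q) : FP A J K1 K2 R k q := (sel_iff.mp h).1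

/-- A first passage square is selected or killed by a selected square. -/
lemma sel_or_killed {A J H : ℕ} {K1 K2 : ℝ} {R : ℕ → ℤ × ℤ → ℝ} {k : ℕ} {q : ℤ × ℤ}
    (h : FP A J K1 K2 R k q) : sel A J H K1 K2 R k q ∨
      ∃ k1 q1, sel A J H K1 K2 R k1 q1 ∧ kill A H K1 R k1 q1 k q := by
  by_cases hs : sel A J H K1 K2 R k q
  · exact Or.inl hs
  · right
    rw [sel_iff] at hs
    push Not at hs
    obtain ⟨k1, _, q1, h1, h2⟩ := hs h
    exact ⟨k1, q1, h1, h2⟩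

/-- The parent of a first passage square is below `K2`. -/
lemma FP_parent {A J : ℕ} {K1 K2 : ℝ} {R : ℕ → ℤ × ℤ → ℝ} {k : ℕ} {q : ℤ × ℤ}
    (h : FP A J K1 K2 R k q) (hK : K1 ≤ K2) : R (k - 1) (anc A 1 q) < K2 := by
  obtain ⟨h1, h2, h3, h4, h5⟩ := h
  by_cases hc : K1 ≤ R (k - 1) (anc A 1 q)
  · have := h5 (k - 1) (by omega) (fun i hi hi' => by
      obtain rfl : i = k - 1 := by omega
      rw [show k - (k - 1) = 1 by omega]
      exact hc)
    rwa [show k - (k - 1) = 1 by omega] at this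
  · push Not at hc
    linarith only [hK, hc]

/-- Nested squares killed by the same square do not exist. -/
lemma killed_disjoint {A J H : ℕ} {K1 K2 : ℝ} {R : ℕ → ℤ × ℤ → ℝ} (hA : 2 ≤ A) {k1 : ℕ}
    {q1 : ℤ × ℤ} {k2 k3 : ℕ} {q2 q3 : ℤ × ℤ} (h2 : FP A J K1 K2 R k2 q2)
    (h3 : FP A J K1 K2 R k3 q3) (g2 : kill A H K1 R k1 q1 k2 q2)
    (g3 : kill A H K1 R k1 q1 k3 q3) {T : ℤ × ℤ} (t2 : T ∈ desc A (J - k2) q2)
    (t3 : T ∈ desc A (J - k3) q3) : ¬ k2 < k3 := by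
  intro hlt
  rw [mem_desc hA] at t2 t3
  have e : anc A (k3 - k2) q3 = q2 := by
    have := h3.2.1
    rw [← t3, anc_add, show k3 - k2 + (J - k3) = J - k2 by omega, t2]
  have := h3.2.2.2.2 k2 hlt (fun i hi hi' => g3.2.2 i (by have := g2.1; omega) hi')
  rw [e] at this
  exact absurd h2.2.2.2.1 (not_le.mpr this)

open scoped Classical in
/-- The set of first passage squares. -/
noncomputable def Fam (A J : ℕ) (K1 K2 : ℝ) (R : ℕ → ℤ × ℤ → ℝ) : Finset (ℕ × (ℤ × ℤ)) :=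
  ((range (J + 1)) ×ˢ ((range (J + 1)).biUnion fun k => desc A k 0)).filter
    fun x => FP A J K1 K2 R x.1 x.2

lemma mem_Fam {A J : ℕ} {K1 K2 : ℝ} {R : ℕ → ℤ × ℤ → ℝ} (hA : 2 ≤ A) {x : ℕ × (ℤ × ℤ)} :
    x ∈ Fam A J K1 K2 R ↔ FP A J K1 K2 R x.1 x.2 := by
  classical
  unfold Fam
  rw [mem_filter]
  constructor
  · exact fun h => h.2
  · intro h
    refine ⟨?_, h⟩
    rw [mem_product, mem_range, mem_biUnion]
    refine ⟨by have := h.2.1; omega, x.1, ?_, ?_⟩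
    · rw [mem_range]; have := h.2.1; omega
    · rw [mem_desc hA]; exact h.2.2.1

open scoped Classical in
/-- The selected squares. -/
noncomputable def Sel (A J H : ℕ) (K1 K2 : ℝ) (R : ℕ → ℤ × ℤ → ℝ) : Finset (ℕ × (ℤ × ℤ)) :=
  (Fam A J K1 K2 R).filter fun x => sel A J H K1 K2 R x.1 x.2

lemma mem_Sel {A J H : ℕ} {K1 K2 : ℝ} {R : ℕ → ℤ × ℤ → ℝ} (hA : 2 ≤ A) {x : ℕ × (ℤ × ℤ)} :
    x ∈ Sel A J H K1 K2 R ↔ sel A J H K1 K2 R x.1 x.2 := by
  classical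
  unfold Sel
  rw [mem_filter, mem_Fam hA]
  exact ⟨fun h => h.2, fun h => ⟨sel_FP h, h⟩⟩

/-- The area of a square, in units of level `J`. -/
noncomputable def wt (A J : ℕ) (x : ℕ × (ℤ × ℤ)) : ℝ := (A : ℝ) ^ (2 * (J - x.1))

lemma wt_nonneg (A J : ℕ) (x : ℕ × (ℤ × ℤ)) : 0 ≤ wt A J x := by unfold wt; positivity

open scoped Classical in
/-- The squares killed by one square have bounded total area. -/
lemma killed_sum {A J H : ℕ} {K1 K2 : ℝ} {R : ℕ → ℤ × ℤ → ℝ} (hA : 2 ≤ A) {k1 : ℕ}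
    {q1 : ℤ × ℤ} (hk1 : k1 ≤ J) :
    ∑ x ∈ (Fam A J K1 K2 R).filter (fun x => kill A H K1 R k1 q1 x.1 x.2), wt A J x ≤
      (2 * H + 3) ^ 2 * (A : ℝ) ^ (2 * (J - k1)) := by
  set S := (Fam A J K1 K2 R).filter (fun x => kill A H K1 R k1 q1 x.1 x.2) with hS
  have hmem : ∀ x ∈ S, FP A J K1 K2 R x.1 x.2 ∧ kill A H K1 R k1 q1 x.1 x.2 := by
    intro x hx
    rw [hS, mem_filter, mem_Fam hA] at hx
    exact hx
  have hdisj : ∀ x ∈ S, ∀ z ∈ S, x ≠ z →
      Disjoint (desc A (J - x.1) x.2) (desc A (J - z.1) z.2) := by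
    intro x hx z hz hne
    rw [Finset.disjoint_left]
    intro T hT1 hT2
    obtain ⟨a1, a2⟩ := hmem x hx
    obtain ⟨b1, b2⟩ := hmem z hz
    have c1 := killed_disjoint hA a1 b1 a2 b2 hT1 hT2
    have c2 := killed_disjoint hA b1 a1 b2 a2 hT2 hT1
    have c3 : x.1 = z.1 := by omega
    apply hne
    rw [mem_desc hA] at hT1 hT2
    rw [Prod.ext_iff]
    refine ⟨c3, ?_⟩
    rw [← hT1, ← hT2, c3]
  have hcard := Finset.card_biUnion (s := S) (t := fun x => desc A (J - x.1) x.2) hdisj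
  have hsub : S.biUnion (fun x => desc A (J - x.1) x.2) ⊆
      (nbr (((H + 1 : ℕ) : ℤ)) q1).biUnion (fun d => desc A (J - k1) d) := by
    intro T hT
    rw [mem_biUnion] at hT ⊢
    obtain ⟨x, hx, hT⟩ := hT
    obtain ⟨a1, a2⟩ := hmem x hx
    rw [mem_desc hA] at hT
    refine ⟨anc A (J - k1) T, ?_, ?_⟩
    · rw [mem_nbr]
      have := a1.2.1
      have e : anc A (J - k1) T = anc A (x.1 - k1) x.2 := by
        rw [← hT, anc_add, show x.1 - k1 + (J - x.1) = J - k1 by have := a2.1; omega]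
      rw [e]
      have := a2.2.1
      push_cast
      exact this
    · rw [mem_desc hA]
  have h1 : ∑ x ∈ S, wt A J x =
      ((S.biUnion (fun x => desc A (J - x.1) x.2)).card : ℝ) := by
    rw [hcard]
    push_cast
    refine Finset.sum_congr rfl fun x _ => ?_
    rw [card_desc]
    rfl
  rw [h1]
  calc ((S.biUnion (fun x => desc A (J - x.1) x.2)).card : ℝ)
      ≤ (((nbr (((H + 1 : ℕ) : ℤ)) q1).biUnion (fun d => desc A (J - k1) d)).card : ℝ) := by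
        exact_mod_cast Finset.card_le_card hsub
    _ ≤ ((∑ d ∈ nbr (((H + 1 : ℕ) : ℤ)) q1, (desc A (J - k1) d).card : ℕ) : ℝ) := by
        exact_mod_cast Finset.card_biUnion_le
    _ = (2 * H + 3) ^ 2 * (A : ℝ) ^ (2 * (J - k1)) := by
        rw [Nat.cast_sum, Finset.sum_congr rfl (fun d _ => card_desc (A := A) (J - k1) d),
          Finset.sum_const, nsmul_eq_mul, card_nbr (H + 1) q1]
        push_cast
        ring

lemma sum_biUnion_le' {α β : Type*} [DecidableEq β] (s : Finset α) (t : α → Finset β)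
    (f : β → ℝ) (hf : ∀ x, 0 ≤ f x) : ∑ x ∈ s.biUnion t, f x ≤ ∑ a ∈ s, ∑ x ∈ t a, f x := by
  classical
  induction s using Finset.induction_on with
  | empty => simp
  | insert a s ha ih =>
    rw [Finset.biUnion_insert, Finset.sum_insert ha]
    have h0 : 0 ≤ ∑ x ∈ t a ∩ s.biUnion t, f x := Finset.sum_nonneg fun x _ => hf x
    have h1 := Finset.sum_union_inter (s₁ := t a) (s₂ := s.biUnion t) (f := f)
    linarith

/-- The first passage squares cost no more than the selected ones. -/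
lemma Fam_sum_le {A J H : ℕ} {K1 K2 : ℝ} {R : ℕ → ℤ × ℤ → ℝ} (hA : 2 ≤ A) :
    ∑ x ∈ Fam A J K1 K2 R, wt A J x ≤
      (1 + (2 * H + 3) ^ 2) * ∑ x ∈ Sel A J H K1 K2 R, wt A J x := by
  classical
  have h1 : Fam A J K1 K2 R ⊆ Sel A J H K1 K2 R ∪ (Sel A J H K1 K2 R).biUnion (fun z =>
      (Fam A J K1 K2 R).filter (fun x => kill A H K1 R z.1 z.2 x.1 x.2)) := by
    intro x hx
    have hx' := (mem_Fam hA).mp hx
    rcases sel_or_killed (H := H) hx' with h | ⟨k1, q1, h, h'⟩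
    · exact mem_union_left _ ((mem_Sel hA).mpr h)
    · apply mem_union_right
      rw [mem_biUnion]
      exact ⟨(k1, q1), (mem_Sel hA).mpr h, mem_filter.mpr ⟨hx, h'⟩⟩
  calc ∑ x ∈ Fam A J K1 K2 R, wt A J x
      ≤ ∑ x ∈ Sel A J H K1 K2 R ∪ (Sel A J H K1 K2 R).biUnion (fun z =>
      (Fam A J K1 K2 R).filter (fun x => kill A H K1 R z.1 z.2 x.1 x.2)), wt A J x :=
        Finset.sum_le_sum_of_subset_of_nonneg h1 fun x _ _ => wt_nonneg A J x
    _ ≤ ∑ x ∈ Sel A J H K1 K2 R, wt A J x + ∑ x ∈ (Sel A J H K1 K2 R).biUnion (fun z =>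
      (Fam A J K1 K2 R).filter (fun x => kill A H K1 R z.1 z.2 x.1 x.2)), wt A J x := by
        rw [← Finset.sum_union_inter]
        have : 0 ≤ ∑ x ∈ Sel A J H K1 K2 R ∩ (Sel A J H K1 K2 R).biUnion (fun z =>
          (Fam A J K1 K2 R).filter (fun x => kill A H K1 R z.1 z.2 x.1 x.2)), wt A J x :=
          Finset.sum_nonneg fun x _ => wt_nonneg A J x
        linarith only [this]
    _ ≤ ∑ x ∈ Sel A J H K1 K2 R, wt A J x + ∑ z ∈ Sel A J H K1 K2 R,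
        ∑ x ∈ (Fam A J K1 K2 R).filter (fun x => kill A H K1 R z.1 z.2 x.1 x.2), wt A J x := by
        gcongr
        exact sum_biUnion_le' _ _ _ fun x => wt_nonneg A J x
    _ ≤ ∑ x ∈ Sel A J H K1 K2 R, wt A J x + ∑ z ∈ Sel A J H K1 K2 R,
        (2 * H + 3) ^ 2 * wt A J z := by
        gcongr with z hz
        exact killed_sum hA ((sel_FP ((mem_Sel hA).mp hz)).2.1)
    _ = _ := by
        rw [← Finset.mul_sum]
        ring

open scoped Classical in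
/-- The persistent set of a square. -/
noncomputable def PS (A m ks H : ℕ) (θ : ℝ) (R : ℕ → ℤ × ℤ → ℝ) (x : ℕ × (ℤ × ℤ)) :
    Finset (ℤ × ℤ) :=
  ((nbr 1 0).biUnion (desc A m)).filter fun T =>
    near H (anc A (m - x.1) T) x.2 ∧ ∀ i, x.1 + ks ≤ i → i ≤ m → θ ≤ R i (anc A (m - i) T)

lemma mem_PS {A m ks H : ℕ} {θ : ℝ} {R : ℕ → ℤ × ℤ → ℝ} {x : ℕ × (ℤ × ℤ)} {T : ℤ × ℤ}
    (hA : 2 ≤ A) : T ∈ PS A m ks H θ R x ↔ near 1 (anc A m T) 0 ∧
      near H (anc A (m - x.1) T) x.2 ∧ ∀ i, x.1 + ks ≤ i → i ≤ m → θ ≤ R i (anc A (m - i) T) := by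
  classical
  unfold PS
  rw [mem_filter, mem_biUnion]
  have : (∃ a ∈ nbr 1 0, T ∈ desc A m a) ↔ near 1 (anc A m T) 0 := by
    constructor
    · rintro ⟨a, ha, hT⟩
      rw [mem_desc hA] at hT
      rw [hT]
      exact mem_nbr.mp ha
    · intro h
      exact ⟨anc A m T, mem_nbr.mpr h, (mem_desc hA).mpr rfl⟩
  rw [this]

/-- The persistent sets of selected squares of different levels are disjoint. -/
lemma PS_disjoint {A J ks H : ℕ} {K1 K2 CA θ : ℝ} {R : ℕ → ℤ × ℤ → ℝ} (hA : 2 ≤ A)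
    (hH : H ≤ A) (hK1 : 0 < K1) (hCA : 1 ≤ CA)
    (F1 : ∀ k < J + ks, ∀ q c, near 1 (anc A k q) 0 → near 1 (anc A (k + 1) c) 0 →
      near 1 (anc A 1 c) q → R (k + 1) c ≤ CA * max (R k q) K1)
    (hθ : CA ^ (ks + 1) * K1 < θ) {x z : ℕ × (ℤ × ℤ)} (hx : sel A J H K1 K2 R x.1 x.2)
    (hz : sel A J H K1 K2 R z.1 z.2) {T : ℤ × ℤ} (tx : T ∈ PS A (J + ks) ks H θ R x)
    (tz : T ∈ PS A (J + ks) ks H θ R z) : ¬ x.1 < z.1 := by
  intro hlt
  obtain ⟨k1, q1⟩ := x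
  obtain ⟨k2, q2⟩ := z
  simp only at hlt hx hz
  rw [mem_PS hA] at tx tz
  obtain ⟨t1, t2, t3⟩ := tx
  obtain ⟨s1, s2, s3⟩ := tz
  simp only at t2 t3 s2 s3
  have hk1 := (sel_FP hx).2.1
  have hk2 := (sel_FP hz).2.1
  have hnk := (sel_iff.mp hz).2 k1 hlt q1 hx
  have hHA : (H : ℤ) ≤ (A : ℤ) := by exact_mod_cast hH
  have hnear : near ((H : ℤ) + 1) (anc A (k2 - k1) q2) q1 := by
    have h1 := near_anc hA hHA (by omega : 1 ≤ k2 - k1) s2
    rw [anc_add, show k2 - k1 + (J + ks - k2) = J + ks - k1 by omega] at h1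
    have h2 := near_trans (near_symm h1) t2
    rwa [add_comm] at h2
  have hex : ∃ i0, k1 ≤ i0 ∧ i0 < k2 ∧ R i0 (anc A (k2 - i0) q2) < K1 := by
    by_contra hcon
    push Not at hcon
    exact hnk ⟨hlt, hnear, hcon⟩
  obtain ⟨i0, hi1, hi2, hi3⟩ := hex
  have hq2 : anc A k2 q2 = 0 := (sel_FP hz).2.2.1
  have hnear0 : near 1 (anc A (J + ks - i0) T) (anc A (k2 - i0) q2) := by
    have h1 := near_anc hA hHA (by omega : 1 ≤ k2 - i0) s2
    rwa [anc_add, show k2 - i0 + (J + ks - k2) = J + ks - i0 by omega] at h1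
  have hT0 : ∀ i ≤ J + ks, near 1 (anc A i (anc A (J + ks - i) T)) 0 := by
    intro i hi
    rw [anc_add, show i + (J + ks - i) = J + ks by omega]
    exact t1
  have key : ∀ n, i0 + 1 + n ≤ J + ks →
      R (i0 + 1 + n) (anc A (J + ks - (i0 + 1 + n)) T) ≤ CA ^ (n + 1) * K1 := by
    intro n
    induction n with
    | zero =>
      intro hn
      have h1 := F1 i0 (by omega) (anc A (k2 - i0) q2) (anc A (J + ks - (i0 + 1)) T)
        (by rw [anc_add, show i0 + (k2 - i0) = k2 by omega, hq2]; exact near_refl (by norm_num) _)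
        (hT0 (i0 + 1) (by omega))
        (by rw [anc_add, show 1 + (J + ks - (i0 + 1)) = J + ks - i0 by omega]; exact hnear0)
      rw [max_eq_right hi3.le] at h1
      simpa using h1
    | succ n ih =>
      intro hn
      have h0 := ih (by omega)
      have h1 := F1 (i0 + 1 + n) (by omega) (anc A (J + ks - (i0 + 1 + n)) T)
        (anc A (J + ks - (i0 + 1 + n + 1)) T) (hT0 _ (by omega)) (hT0 _ (by omega))
        (by
          rw [anc_add, show 1 + (J + ks - (i0 + 1 + n + 1)) = J + ks - (i0 + 1 + n) by omega]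
          exact near_refl (by norm_num) _)
      have h2 : K1 ≤ CA ^ (n + 1) * K1 := by
        have : (1 : ℝ) ≤ CA ^ (n + 1) := one_le_pow₀ hCA
        nlinarith only [hK1, this]
      calc R (i0 + 1 + (n + 1)) (anc A (J + ks - (i0 + 1 + (n + 1))) T)
          ≤ CA * max (R (i0 + 1 + n) (anc A (J + ks - (i0 + 1 + n)) T)) K1 := h1
        _ ≤ CA * (CA ^ (n + 1) * K1) := by
            gcongr
            exact max_le h0 h2
        _ = CA ^ (n + 1 + 1) * K1 := by ring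
  set i := max (i0 + 1) (k1 + ks) with hi
  have hi4 : i0 + 1 ≤ i := le_max_left _ _
  have hi5 : k1 + ks ≤ i := le_max_right _ _
  have hi6 : i ≤ J + ks := max_le (by omega) (by omega)
  have hi7 : i - (i0 + 1) ≤ ks := by
    rcases max_choice (i0 + 1) (k1 + ks) with h | h <;> omega
  have h1 := key (i - (i0 + 1)) (by omega)
  rw [show i0 + 1 + (i - (i0 + 1)) = i by omega] at h1
  have h2 := t3 i hi5 hi6
  have h3 : CA ^ (i - (i0 + 1) + 1) * K1 ≤ CA ^ (ks + 1) * K1 := by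
    gcongr
  linarith only [hθ, h1, h2, h3]

/-- The selected squares have bounded total area. -/
lemma Sel_sum_le {A J ks H : ℕ} {K1 K2 CA c0 θ : ℝ} {R : ℕ → ℤ × ℤ → ℝ} (hA : 2 ≤ A)
    (hH : H ≤ A) (hK1 : 0 < K1) (hCA : 1 ≤ CA) (hc0 : 0 < c0)
    (F1 : ∀ k < J + ks, ∀ q c, near 1 (anc A k q) 0 → near 1 (anc A (k + 1) c) 0 →
      near 1 (anc A 1 c) q → R (k + 1) c ≤ CA * max (R k q) K1)
    (hθ : CA ^ (ks + 1) * K1 < θ)
    (hP : ∀ x, FP A J K1 K2 R x.1 x.2 → c0 / 2 * (A : ℝ) ^ (2 * (J + ks - x.1)) ≤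
      ((PS A (J + ks) ks H θ R x).card : ℝ)) :
    ∑ x ∈ Sel A J H K1 K2 R, wt A J x ≤ 18 / c0 * (2 * H + 1) ^ 2 * (A : ℝ) ^ (2 * J) := by
  classical
  have hA0 : (0 : ℝ) < A := by exact_mod_cast (by omega : 0 < A)
  set S := Sel A J H K1 K2 R with hS
  set Reg : Finset (ℤ × ℤ) := (nbr 1 0).biUnion (desc A (J + ks)) with hReg
  have hRegc : (Reg.card : ℝ) ≤ 9 * (A : ℝ) ^ (2 * (J + ks)) := by
    calc (Reg.card : ℝ) ≤ ((∑ d ∈ nbr 1 0, (desc A (J + ks) d).card : ℕ) : ℝ) := by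
          exact_mod_cast Finset.card_biUnion_le
      _ = 9 * (A : ℝ) ^ (2 * (J + ks)) := by
          rw [Nat.cast_sum, Finset.sum_congr rfl (fun d _ => card_desc (A := A) (J + ks) d),
            Finset.sum_const, nsmul_eq_mul]
          have := card_nbr 1 0
          rw [Nat.cast_one] at this
          rw [this]
          norm_num
  have hcount : ∀ T ∈ Reg, ((S.filter fun x => T ∈ PS A (J + ks) ks H θ R x).card : ℝ) ≤
      (2 * H + 1) ^ 2 := by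
    intro T _
    rcases (S.filter fun x => T ∈ PS A (J + ks) ks H θ R x).eq_empty_or_nonempty with h | h
    · rw [h]; simp; positivity
    · obtain ⟨x0, hx0⟩ := h
      have hsub : (S.filter fun x => T ∈ PS A (J + ks) ks H θ R x) ⊆
          (nbr (H : ℤ) (anc A (J + ks - x0.1) T)).image (fun q => (x0.1, q)) := by
        intro x hx
        rw [mem_filter, hS, mem_Sel hA] at hx hx0
        have e : x.1 = x0.1 := by
          have h1 := PS_disjoint hA hH hK1 hCA F1 hθ hx.1 hx0.1 hx.2 hx0.2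
          have h2 := PS_disjoint hA hH hK1 hCA F1 hθ hx0.1 hx.1 hx0.2 hx.2
          omega
        rw [mem_image]
        refine ⟨x.2, ?_, ?_⟩
        · rw [mem_nbr, ← e]
          exact near_symm ((mem_PS hA).mp hx.2).2.1
        · rw [← e]
      calc ((S.filter fun x => T ∈ PS A (J + ks) ks H θ R x).card : ℝ)
          ≤ (((nbr (H : ℤ) (anc A (J + ks - x0.1) T)).image (fun q => (x0.1, q))).card : ℝ) := by
            exact_mod_cast Finset.card_le_card hsub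
        _ ≤ ((nbr (H : ℤ) (anc A (J + ks - x0.1) T)).card : ℝ) := by
            exact_mod_cast Finset.card_image_le
        _ = (2 * H + 1) ^ 2 := card_nbr H _
  have h1 : ∑ x ∈ S, c0 / 2 * (A : ℝ) ^ (2 * (J + ks - x.1)) ≤
      (2 * H + 1) ^ 2 * (9 * (A : ℝ) ^ (2 * (J + ks))) := by
    calc ∑ x ∈ S, c0 / 2 * (A : ℝ) ^ (2 * (J + ks - x.1))
        ≤ ∑ x ∈ S, ((PS A (J + ks) ks H θ R x).card : ℝ) := by
          gcongr with x hx
          exact hP x (sel_FP ((mem_Sel hA).mp hx))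
      _ = ∑ x ∈ S, ∑ T ∈ Reg, (if T ∈ PS A (J + ks) ks H θ R x then (1 : ℝ) else 0) := by
          refine Finset.sum_congr rfl fun x _ => ?_
          rw [Finset.sum_ite_mem, Finset.sum_const, nsmul_eq_mul, mul_one]
          congr 2
          rw [eq_comm, Finset.inter_eq_right]
          unfold PS
          exact Finset.filter_subset _ _
      _ = ∑ T ∈ Reg, ((S.filter fun x => T ∈ PS A (J + ks) ks H θ R x).card : ℝ) := by
          rw [Finset.sum_comm]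
          refine Finset.sum_congr rfl fun T _ => ?_
          rw [Finset.sum_ite, Finset.sum_const_zero, add_zero, Finset.sum_const, nsmul_eq_mul,
            mul_one]
      _ ≤ ∑ T ∈ Reg, ((2 : ℝ) * H + 1) ^ 2 := Finset.sum_le_sum hcount
      _ = (Reg.card : ℝ) * (2 * H + 1) ^ 2 := by rw [Finset.sum_const, nsmul_eq_mul]
      _ ≤ (2 * H + 1) ^ 2 * (9 * (A : ℝ) ^ (2 * (J + ks))) := by
          rw [mul_comm]
          gcongr
  have h2 : ∑ x ∈ S, c0 / 2 * (A : ℝ) ^ (2 * (J + ks - x.1)) =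
      c0 / 2 * (A : ℝ) ^ (2 * ks) * ∑ x ∈ S, wt A J x := by
    rw [Finset.mul_sum]
    refine Finset.sum_congr rfl fun x hx => ?_
    have hxJ : x.1 ≤ J := (sel_FP ((mem_Sel hA).mp hx)).2.1
    unfold wt
    rw [show 2 * (J + ks - x.1) = 2 * ks + 2 * (J - x.1) by omega, pow_add]
    ring
  rw [h2] at h1
  have hp : (0 : ℝ) < (A : ℝ) ^ (2 * ks) := by positivity
  have h3 : (A : ℝ) ^ (2 * (J + ks)) = (A : ℝ) ^ (2 * ks) * (A : ℝ) ^ (2 * J) := by
    rw [← pow_add]; congr 1; ring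
  rw [h3] at h1
  have h4 : c0 / 2 * ∑ x ∈ S, wt A J x ≤ 9 * (2 * H + 1) ^ 2 * (A : ℝ) ^ (2 * J) := by
    have : (A : ℝ) ^ (2 * ks) * (c0 / 2 * ∑ x ∈ S, wt A J x) ≤
        (A : ℝ) ^ (2 * ks) * (9 * (2 * H + 1) ^ 2 * (A : ℝ) ^ (2 * J)) := by
      calc _ = c0 / 2 * (A : ℝ) ^ (2 * ks) * ∑ x ∈ S, wt A J x := by ring
        _ ≤ _ := h1
        _ = _ := by ring
    exact le_of_mul_le_mul_left this hp
  have h5 : ∑ x ∈ S, wt A J x = 2 / c0 * (c0 / 2 * ∑ x ∈ S, wt A J x) := by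
    field_simp
  rw [h5]
  calc 2 / c0 * (c0 / 2 * ∑ x ∈ S, wt A J x)
      ≤ 2 / c0 * (9 * (2 * H + 1) ^ 2 * (A : ℝ) ^ (2 * J)) := by gcongr
    _ = _ := by ring

/-- The persistent set of a first passage square is large. -/
lemma PS_card {A J ks H : ℕ} {K1 K2 CA C κ c0 c1 : ℝ}
    {e : ℕ → ℝ} {p : ℕ → ℤ × ℤ → E} {y : ℕ → ℤ × ℤ → ℝ} (hA : 2 ≤ A) (hH : H ≤ A)
    (h : OneStep A (J + ks) K1 C κ e p y) (hC : 1 ≤ C) (hκ0 : 0 ≤ κ) (hκ : κ ≤ 1 / 2)
    (he : ∑ k ∈ range (J + ks), e k ≤ 1 / (192 * C)) (hK1 : 0 < K1) (hCA : 1 ≤ CA)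
    (hK1' : K1 ≤ K2)
    (F3 : ∀ k, 1 ≤ k → k ≤ J → ∀ q, anc A k q = 0 → K2 ≤ ‖p k q‖ + y k q →
      ‖p (k - 1) (anc A 1 q)‖ + y (k - 1) (anc A 1 q) < K2 →
      ∃ G : Finset (ℤ × ℤ), c0 * (A : ℝ) ^ (2 * ks) ≤ G.card ∧
        ∀ c ∈ G, near H (anc A ks c) q ∧ c1 * K2 ≤ ‖p (k + ks) c‖ ∧
          y (k + ks) c ≤ 1 / (64 * C) * ‖p (k + ks) c‖)
    (hK : 4 * (CA ^ (ks + 1) * K1) < c1 * K2)
    (x : ℕ × (ℤ × ℤ)) (hx : FP A J K1 K2 (RR p y) x.1 x.2) :
    c0 / 2 * (A : ℝ) ^ (2 * (J + ks - x.1)) ≤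
      ((PS A (J + ks) ks H (c1 * K2 / 4) (RR p y) x).card : ℝ) := by
  classical
  obtain ⟨k, q⟩ := x
  have hpar := FP_parent hx hK1'
  obtain ⟨hk1, hkJ, hq, hqK, -⟩ := hx
  simp only at hk1 hkJ hq hqK hpar ⊢
  obtain ⟨G, hG1, hG2⟩ := F3 k hk1 hkJ q hq hqK hpar
  have hHA : (H : ℤ) ≤ (A : ℤ) := by exact_mod_cast hH
  have hroot : ∀ c ∈ G, near 1 (anc A (k + ks) c) 0 := by
    intro c hc
    have h1 := near_anc hA hHA hk1 (hG2 c hc).1
    rw [anc_add, hq] at h1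
    exact h1
  have hyn := h.y_nonneg
  set Pc : ℤ × ℤ → Finset (ℤ × ℤ) := fun c => (desc A (J + ks - (k + ks)) c).filter fun T =>
    ∀ i, k + ks ≤ i → i ≤ J + ks → (‖p (k + ks) c‖ + y (k + ks) c) / 4 ≤
      ‖p i (anc A (J + ks - i) T)‖ + y i (anc A (J + ks - i) T) with hPc
  have hcard : ∀ c ∈ G, (A : ℝ) ^ (2 * (J + ks - (k + ks))) / 2 ≤ ((Pc c).card : ℝ) := by
    intro c hc
    refine persist hA h hC hκ0 hκ he hK1 (by omega) (hroot c hc) (hG2 c hc).2.2 ?_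
    have h1 := (hG2 c hc).2.1
    have h2 := hyn (k + ks) c
    have h3 : K1 ≤ CA ^ (ks + 1) * K1 := by
      have : (1 : ℝ) ≤ CA ^ (ks + 1) := one_le_pow₀ hCA
      nlinarith only [hK1, this]
    linarith only [hK, h1, h2, h3]
  have hdisj : ∀ a ∈ G, ∀ b ∈ G, a ≠ b → Disjoint (Pc a) (Pc b) := by
    intro a _ b _ hab
    rw [Finset.disjoint_left]
    intro T h1 h2
    rw [hPc, mem_filter, mem_desc hA] at h1 h2
    exact hab (h1.1.symm.trans h2.1)
  have hsub : G.biUnion Pc ⊆ PS A (J + ks) ks H (c1 * K2 / 4) (RR p y) (k, q) := by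
    intro T hT
    rw [mem_biUnion] at hT
    obtain ⟨c, hc, hT⟩ := hT
    rw [hPc, mem_filter, mem_desc hA] at hT
    obtain ⟨hT1, hT2⟩ := hT
    have hTm : anc A (J + ks - k) T = anc A ks c := by
      rw [← hT1, anc_add]
      congr 1
      omega
    rw [mem_PS hA]
    refine ⟨?_, ?_, ?_⟩
    · have := hroot c hc
      rwa [← hT1, anc_add, show k + ks + (J + ks - (k + ks)) = J + ks by omega] at this
    · simp only
      rw [hTm]
      exact (hG2 c hc).1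
    · intro i hi1 hi2
      have h1 := hT2 i hi1 hi2
      have h2 := (hG2 c hc).2.1
      have h3 := hyn (k + ks) c
      unfold RR
      linarith only [h1, h2, h3]
  have hsum : ((G.biUnion Pc).card : ℝ) = ∑ c ∈ G, ((Pc c).card : ℝ) := by
    rw [Finset.card_biUnion hdisj]
    push_cast
    rfl
  calc c0 / 2 * (A : ℝ) ^ (2 * (J + ks - k))
      = (c0 * (A : ℝ) ^ (2 * ks)) * ((A : ℝ) ^ (2 * (J + ks - (k + ks))) / 2) := by
        rw [show 2 * (J + ks - k) = 2 * ks + 2 * (J + ks - (k + ks)) by omega, pow_add]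
        ring
    _ ≤ (G.card : ℝ) * ((A : ℝ) ^ (2 * (J + ks - (k + ks))) / 2) := by gcongr
    _ = ∑ c ∈ G, (A : ℝ) ^ (2 * (J + ks - (k + ks))) / 2 := by
        rw [Finset.sum_const, nsmul_eq_mul]
    _ ≤ ∑ c ∈ G, ((Pc c).card : ℝ) := Finset.sum_le_sum hcard
    _ = ((G.biUnion Pc).card : ℝ) := hsum.symm
    _ ≤ _ := by exact_mod_cast Finset.card_le_card hsub

/-- The abstract theorem: the average of `‖p‖ + y` over the squares of level `J` is bounded by a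
constant independent of `J`. -/
theorem endgame {A J ks H : ℕ} {K1 K2 CA C κ c0 c1 : ℝ}
    {e : ℕ → ℝ} {p : ℕ → ℤ × ℤ → E} {y : ℕ → ℤ × ℤ → ℝ} (hA : 2 ≤ A) (hH : H ≤ A)
    (h : OneStep A (J + ks) K1 C κ e p y) (hC : 1 ≤ C) (hκ0 : 0 ≤ κ) (hκ : κ ≤ 1 / 2)
    (he : ∑ k ∈ range (J + ks), e k ≤ 1 / (192 * C)) (hK1 : 0 < K1) (hCA : 1 ≤ CA)
    (hc0 : 0 < c0)
    -- (F1) growth from one level to the next
    (F1 : ∀ k < J + ks, ∀ q c, near 1 (anc A k q) 0 → near 1 (anc A (k + 1) c) 0 →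
      near 1 (anc A 1 c) q →
      ‖p (k + 1) c‖ + y (k + 1) c ≤ CA * max (‖p k q‖ + y k q) K1)
    -- (F3) nondegeneracy at first passages
    (F3 : ∀ k, 1 ≤ k → k ≤ J → ∀ q, anc A k q = 0 → K2 ≤ ‖p k q‖ + y k q →
      ‖p (k - 1) (anc A 1 q)‖ + y (k - 1) (anc A 1 q) < K2 →
      ∃ G : Finset (ℤ × ℤ), c0 * (A : ℝ) ^ (2 * ks) ≤ G.card ∧
        ∀ c ∈ G, near H (anc A ks c) q ∧ c1 * K2 ≤ ‖p (k + ks) c‖ ∧
          y (k + ks) c ≤ 1 / (64 * C) * ‖p (k + ks) c‖)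
    (hK : 4 * (CA ^ (ks + 1) * K1) < c1 * K2) (hK2 : CA * K1 ≤ K2)
    -- the roots
    (root : ∀ q, near 1 q 0 → ‖p 0 q‖ + y 0 q < K2) :
    ∑ T ∈ desc A J 0, (‖p J T‖ + y J T) ≤
      (K2 + (2 + 8 * C) * CA * K2 * (1 + (2 * H + 3) ^ 2) * (18 / c0 * (2 * H + 1) ^ 2)) *
        (A : ℝ) ^ (2 * J) := by
  classical
  have hK12 : K1 ≤ K2 := le_trans (by nlinarith only [hK1, hCA]) hK2
  have hK2p : 0 < K2 := lt_of_lt_of_le hK1 hK12
  have hyn := h.y_nonneg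
  have hRn : ∀ k q, 0 ≤ ‖p k q‖ + y k q := fun k q => add_nonneg (norm_nonneg _) (hyn k q)
  have hsel := Sel_sum_le (K2 := K2) (R := RR p y) hA hH hK1 hCA hc0 F1
    (by linarith only [hK] : CA ^ (ks + 1) * K1 < c1 * K2 / 4)
    (PS_card hA hH h hC hκ0 hκ he hK1 hCA hK12 F3 hK)
  have hfam := Fam_sum_le (J := J) (H := H) (K1 := K1) (K2 := K2) (R := RR p y) hA
  have hFb : ∀ x ∈ Fam A J K1 K2 (RR p y), RR p y x.1 x.2 ≤ CA * K2 := by
    intro x hx
    rw [mem_Fam hA] at hx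
    obtain ⟨k, q⟩ := x
    have hpar := FP_parent hx hK12
    obtain ⟨hk1, hkJ, hq, hqK, -⟩ := hx
    simp only at hk1 hkJ hq hqK hpar ⊢
    have h1 := F1 (k - 1) (by omega) (anc A 1 q) q
      (by rw [anc_add, show k - 1 + 1 = k by omega, hq]; exact near_refl (by norm_num) _)
      (by rw [show k - 1 + 1 = k by omega, hq]; exact near_refl (by norm_num) _)
      (near_refl (by norm_num) _)
    rw [show k - 1 + 1 = k by omega] at h1
    calc RR p y k q ≤ CA * max (‖p (k - 1) (anc A 1 q)‖ + y (k - 1) (anc A 1 q)) K1 := h1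
      _ ≤ CA * K2 := by
        gcongr
        exact max_le hpar.le hK12
  -- the active descendants
  set Ac : ℕ × (ℤ × ℤ) → Finset (ℤ × ℤ) := fun x => (desc A (J - x.1) x.2).filter
    (fun T => ∀ i, x.1 ≤ i → i ≤ J →
        K1 ≤ ‖p i (anc A (J - i) T)‖ + y i (anc A (J - i) T)) with hAc
  have hcover : (desc A J 0).filter (fun T => K2 ≤ ‖p J T‖ + y J T) ⊆
      (Fam A J K1 K2 (RR p y)).biUnion Ac := by
    intro T hT
    rw [mem_filter, mem_desc hA] at hT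
    obtain ⟨hT0, hTK⟩ := hT
    have hex : ∃ k, k ≤ J ∧ K2 ≤ RR p y k (anc A (J - k) T) ∧
        ∀ i, k ≤ i → i ≤ J → K1 ≤ RR p y i (anc A (J - i) T) := by
      refine ⟨J, le_rfl, ?_, ?_⟩
      · rw [Nat.sub_self, anc_zero]; exact hTK
      · intro i h1 h2
        obtain rfl : i = J := by omega
        rw [Nat.sub_self, anc_zero]
        exact hK12.trans hTK
    obtain ⟨hkJ, hkK, hka⟩ := Nat.find_spec hex
    have hmin := fun j => Nat.find_min hex (m := j)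
    set k := Nat.find hex with hk
    have hk0 : anc A k (anc A (J - k) T) = 0 := by
      rw [anc_add, show k + (J - k) = J by omega, hT0]
    have hk1 : 1 ≤ k := by
      by_contra hcon
      have hk00 : k = 0 := by omega
      rw [hk00] at hkK
      have := root (anc A (J - 0) T) (by
        rw [Nat.sub_zero, hT0]; exact near_refl (by norm_num) _)
      unfold RR at hkK
      linarith only [hkK, this]
    rw [mem_biUnion]
    refine ⟨(k, anc A (J - k) T), (mem_Fam hA).mpr ⟨hk1, hkJ, hk0, hkK, ?_⟩, ?_⟩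
    · intro j hj hact
      by_contra hcon
      push Not at hcon
      have e : ∀ i ≤ k, anc A (k - i) (anc A (J - k) T) = anc A (J - i) T := by
        intro i hi
        rw [anc_add, show k - i + (J - k) = J - i by omega]
      simp only at hact hcon
      rw [e j hj.le] at hcon
      refine hmin j hj ⟨by omega, hcon, fun i h1 h2 => ?_⟩
      rcases lt_or_ge i k with h3 | h3
      · have := hact i h1 h3
        rwa [e i h3.le] at this
      · exact hka i h3 h2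
    · rw [hAc, mem_filter, mem_desc hA]
      exact ⟨rfl, hka⟩
  have hwt : ∀ x ∈ Fam A J K1 K2 (RR p y),
      ∑ T ∈ Ac x, (‖p J T‖ + y J T) ≤ (2 + 8 * C) * (CA * K2) * wt A J x := by
    intro x hx
    have h1 := hFb x hx
    rw [mem_Fam hA] at hx
    have h2 := bounded_active hA h hC hκ0 hκ he hK1 hx.2.1 (by omega : J ≤ J + ks)
      (q := x.2) (by rw [hx.2.2.1]; exact near_refl (by norm_num) _)
    refine h2.trans ?_
    unfold wt
    unfold RR at h1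
    gcongr
  have hsplit : ∑ T ∈ desc A J 0, (‖p J T‖ + y J T) =
      ∑ T ∈ (desc A J 0).filter (fun T => K2 ≤ ‖p J T‖ + y J T), (‖p J T‖ + y J T) +
      ∑ T ∈ (desc A J 0).filter (fun T => ¬ K2 ≤ ‖p J T‖ + y J T), (‖p J T‖ + y J T) :=
    (Finset.sum_filter_add_sum_filter_not _ _ _).symm
  have hlow : ∑ T ∈ (desc A J 0).filter (fun T => ¬ K2 ≤ ‖p J T‖ + y J T),
      (‖p J T‖ + y J T) ≤ K2 * (A : ℝ) ^ (2 * J) := by
    calc ∑ T ∈ (desc A J 0).filter (fun T => ¬ K2 ≤ ‖p J T‖ + y J T), (‖p J T‖ + y J T)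
        ≤ ∑ T ∈ (desc A J 0).filter (fun T => ¬ K2 ≤ ‖p J T‖ + y J T), K2 := by
          refine Finset.sum_le_sum fun T hT => ?_
          rw [mem_filter] at hT
          exact (not_le.mp hT.2).le
      _ ≤ ∑ T ∈ desc A J 0, K2 :=
          Finset.sum_le_sum_of_subset_of_nonneg (Finset.filter_subset _ _)
            fun _ _ _ => hK2p.le
      _ = K2 * (A : ℝ) ^ (2 * J) := by
          rw [Finset.sum_const, nsmul_eq_mul, card_desc]
          ring
  have hhigh : ∑ T ∈ (desc A J 0).filter (fun T => K2 ≤ ‖p J T‖ + y J T),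
      (‖p J T‖ + y J T) ≤ (2 + 8 * C) * (CA * K2) * ∑ x ∈ Fam A J K1 K2 (RR p y), wt A J x := by
    calc ∑ T ∈ (desc A J 0).filter (fun T => K2 ≤ ‖p J T‖ + y J T), (‖p J T‖ + y J T)
        ≤ ∑ T ∈ (Fam A J K1 K2 (RR p y)).biUnion Ac, (‖p J T‖ + y J T) :=
          Finset.sum_le_sum_of_subset_of_nonneg hcover fun T _ _ => hRn J T
      _ ≤ ∑ x ∈ Fam A J K1 K2 (RR p y), ∑ T ∈ Ac x, (‖p J T‖ + y J T) :=
          sum_biUnion_le' _ _ _ fun T => hRn J T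
      _ ≤ ∑ x ∈ Fam A J K1 K2 (RR p y), (2 + 8 * C) * (CA * K2) * wt A J x :=
          Finset.sum_le_sum hwt
      _ = _ := by rw [Finset.mul_sum]
  rw [hsplit]
  have hC0 : 0 ≤ (2 + 8 * C) * (CA * K2) := by positivity
  have hfin : ∑ x ∈ Fam A J K1 K2 (RR p y), wt A J x ≤ (1 + (2 * H + 3) ^ 2) *
      (18 / c0 * (2 * H + 1) ^ 2 * (A : ℝ) ^ (2 * J)) := hfam.trans (by gcongr)
  calc _ ≤ (2 + 8 * C) * (CA * K2) * ((1 + (2 * H + 3) ^ 2) *
      (18 / c0 * (2 * H + 1) ^ 2 * (A : ℝ) ^ (2 * J))) + K2 * (A : ℝ) ^ (2 * J) := by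
        refine add_le_add (hhigh.trans ?_) hlow
        gcongr
    _ = _ := by ring

end Pool.Agent.H88.Yau
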