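import Pool.Agent.H88.Yau.TreeData
import Pool.Agent.H24.Near.ThreeBall

set_option autoImplicit false

/-!
# The sum of the doubling indices over a grid of wavelength size
-/

namespace Pool.Agent.H88.Yau

open MeasureTheory Set Metric Pool.Agent.H24.Near

/-- The position of a root. -/
noncomputable def rt (i : ℤ × ℤ) : ℝ × ℝ := ((i.1 : ℝ) / 16, (i.2 : ℝ) / 16)

lemma cen_add_root {P : ℕ} (hP : 1 ≤ P) (i t : ℤ × ℤ) :
    cen P (t.1 + P * i.1, t.2 + P * i.2) = rt i + cen P t := by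
  have hP0 : (P : ℝ) ≠ 0 := by exact_mod_cast (by omega : P ≠ 0)
  unfold cen rt
  ext
  · simp only [Prod.fst_add]
    push_cast
    field_simp
    ring
  · simp only [Prod.snd_add]
    push_cast
    field_simp
    ring

lemma V_root {A : ℕ} (hA : 1 ≤ A) (u : ℝ × ℝ → ℝ) (J : ℕ) (i t : ℤ × ℤ) :
    V A (resc u (rt i) 1) J (sh A J t i) = V A u J t := by
  unfold V child
  rw [resc_resc, one_smul, one_mul]
  have h := cen_add_root (P := A ^ J) (Nat.one_le_pow _ _ hA) i (sh A J t i)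
  rw [← h]
  congr 2
  unfold sh
  ext <;> · push_cast; ring

/-- Positivity and lower bounds from the three ball inequality. -/
lemma low_bound (W C1 s : ℝ) (hW : 1 ≤ W) (hC1 : 0 ≤ C1) (hs : 0 < s) (hs1 : s ≤ 1) :
    ∃ C : ℝ, 0 ≤ C ∧ ∀ (N : ℝ) (q u : ℝ × ℝ → ℝ) (c : ℝ × ℝ), 1 ≤ N →
      Sol q u ((W * N) ^ 2) (closedBall c 8) → (∀ z ∈ closedBall c 8, |u z| ≤ 1) →
      Real.exp (-(C1 * N)) ≤ M u c 1 → Real.exp (-(C * N)) ≤ M u c s := by
  obtain ⟨K, hK, h⟩ := three_ball s hs hs1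
  have hlog : 0 ≤ Real.log (16 / s) := by
    apply Real.log_nonneg
    rw [le_div_iff₀ hs]; linarith
  refine ⟨(C1 + K * W) * (2 * Real.log (16 / s)), by positivity, ?_⟩
  intro N q u c hN hsol hu hlow
  have huc : Continuous u := hsol.smooth_u.continuous
  obtain ⟨y, hy, hyM⟩ := exists_M huc (z := c) (r := 1) zero_le_one
  have hKW : 0 ≤ K * W := by positivity
  have h1 := h ((C1 + K * W) * N) ((W * N) ^ 2) q u c y
    (by nlinarith only [hW, hC1, hK, hN, hKW]) (by positivity)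
    (by
      rw [← mul_pow]
      have : K * (W * N) ≤ (C1 + K * W) * N := by nlinarith only [hC1, hN]
      gcongr)
    hsol hu (closedBall_subset_closedBall (by norm_num) hy)
    (by
      rw [hyM]
      refine le_trans ?_ hlow
      apply Real.exp_le_exp.mpr
      nlinarith only [hN, hKW])
  refine le_trans (le_of_eq ?_) h1
  congr 1
  ring

lemma Sol.toSolS {q u : ℝ × ℝ → ℝ} {Λ : ℝ} {S : Set (ℝ × ℝ)} (h : Sol q u (Λ ^ 2) S) :
    SolS q u Λ 1 S :=
  ⟨h.smooth_q, h.smooth_u, h.eq, h.bq, fun p hp => by rw [one_mul]; exact h.bq1 p hp,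
    fun p hp => by rw [one_mul]; exact h.bq2 p hp⟩

lemma Sol.mono {q u : ℝ × ℝ → ℝ} {Λ : ℝ} {S T : Set (ℝ × ℝ)} (h : Sol q u Λ S) (hT : T ⊆ S) :
    Sol q u Λ T :=
  ⟨h.smooth_q, h.smooth_u, fun p hp => h.eq p (hT hp), fun p hp => h.bq p (hT hp),
    fun p hp => h.bq1 p (hT hp), fun p hp => h.bq2 p (hT hp)⟩

/-- A bounded number of grid points in a square. -/
lemma card_fiber_le {F : Finset (ℤ × ℤ)} {a b L : ℝ} (hL : 0 ≤ L)
    (h : ∀ n ∈ F, a ≤ n.1 ∧ (n.1 : ℝ) ≤ a + L ∧ b ≤ n.2 ∧ (n.2 : ℝ) ≤ b + L) :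
    (F.card : ℝ) ≤ (L + 1) ^ 2 := by
  have hsub : F ⊆ Finset.Icc ⌈a⌉ ⌊a + L⌋ ×ˢ Finset.Icc ⌈b⌉ ⌊b + L⌋ := by
    intro n hn
    obtain ⟨h1, h2, h3, h4⟩ := h n hn
    rw [Finset.mem_product, Finset.mem_Icc, Finset.mem_Icc]
    exact ⟨⟨Int.ceil_le.mpr h1, Int.le_floor.mpr h2⟩, Int.ceil_le.mpr h3, Int.le_floor.mpr h4⟩
  have key : ∀ x : ℝ, ((Finset.Icc ⌈x⌉ ⌊x + L⌋).card : ℝ) ≤ L + 1 := by
    intro x
    rw [Int.card_Icc]
    have h1 : ((⌊x + L⌋ + 1 - ⌈x⌉ : ℤ) : ℝ) ≤ L + 1 := by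
      push_cast
      have := Int.floor_le (x + L)
      have := Int.le_ceil x
      linarith
    rcases le_or_gt 0 (⌊x + L⌋ + 1 - ⌈x⌉) with h2 | h2
    · have : (((⌊x + L⌋ + 1 - ⌈x⌉).toNat : ℤ) : ℝ) = ((⌊x + L⌋ + 1 - ⌈x⌉ : ℤ) : ℝ) := by
        rw [Int.toNat_of_nonneg h2]
      rw [← this] at h1
      exact_mod_cast h1
    · rw [Int.toNat_of_nonpos h2.le]
      simp; linarith
  calc (F.card : ℝ) ≤ ((Finset.Icc ⌈a⌉ ⌊a + L⌋ ×ˢ Finset.Icc ⌈b⌉ ⌊b + L⌋).card : ℝ) := by
        exact_mod_cast Finset.card_le_card hsub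
    _ = ((Finset.Icc ⌈a⌉ ⌊a + L⌋).card : ℝ) * ((Finset.Icc ⌈b⌉ ⌊b + L⌋).card : ℝ) := by
        rw [Finset.card_product]; push_cast; rfl
    _ ≤ (L + 1) * (L + 1) := by
        gcongr
        · exact key a
        · exact key b
    _ = (L + 1) ^ 2 := by ring

set_option maxRecDepth 4000 in
/-- The bound of the sizes over all squares near the origin. -/
theorem sum_mo (h2 : U2) (h3 : U3) (h4 : U4) (W C1 : ℝ) (hW : 1 ≤ W) (hC1 : 0 ≤ C1)
    (n0 : ℕ) : ∃ (A ks : ℕ) (Cf : ℝ), 1000 ≤ A ∧ n0 ≤ ks ∧ 0 ≤ Cf ∧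
      ∀ (N : ℝ) (J : ℕ) (q u : ℝ × ℝ → ℝ), (A : ℝ) ^ (J + ks) ≤ N →
        Sol q u ((W * N) ^ 2) (closedBall 0 16) → PosM u (closedBall 0 5) →
        (∀ z ∈ closedBall (0 : ℝ × ℝ) 16, |u z| ≤ 1) →
        (∀ z ∈ closedBall (0 : ℝ × ℝ) 8, Real.exp (-(C1 * N)) ≤ M u z 1) →
        ∑ t ∈ (nbr 33 0).biUnion (desc A J), (A : ℝ) ^ J / N * mo (V A u J t) ≤
          Cf * (A : ℝ) ^ (2 * J) := by
  obtain ⟨C', hC', hlow⟩ := low_bound W C1 (1 / 16) hW hC1 (by norm_num) (by norm_num)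
  obtain ⟨A, ks, Cf, hA, hks, hCf, h⟩ := tree_main h2 h3 h4 W C' hW hC' n0
  have hA2 : 2 ≤ A := by omega
  have hA0 : (0 : ℝ) < A := by exact_mod_cast (by omega : 0 < A)
  refine ⟨A, ks, 67 ^ 2 * Cf, hA, hks, by positivity, ?_⟩
  intro N J q u hN hsol hpos hu1 hlow1
  have hN1 : 1 ≤ N := le_trans (one_le_pow₀ (by exact_mod_cast (by omega : 1 ≤ A))) hN
  have hN0 : 0 < N := by linarith only [hN1]
  have hu : Continuous u := hsol.smooth_u.continuous
  have hmon : ∀ t, 0 ≤ (A : ℝ) ^ J / N * mo (V A u J t) := fun t =>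
    mul_nonneg (by positivity) (mo_nonneg (continuous_child hu _ t))
  calc ∑ t ∈ (nbr 33 0).biUnion (desc A J), (A : ℝ) ^ J / N * mo (V A u J t)
      ≤ ∑ i ∈ nbr 33 0, ∑ t ∈ desc A J i, (A : ℝ) ^ J / N * mo (V A u J t) :=
        sum_biUnion_le' _ _ _ hmon
    _ ≤ ∑ i ∈ nbr 33 0, Cf * (A : ℝ) ^ (2 * J) := by
        apply Finset.sum_le_sum
        intro i hi
        rw [mem_nbr] at hi
        have hri : ‖rt i‖ ≤ 33 / 16 := by
          obtain ⟨a1, a2⟩ := hi
          simp only [Prod.fst_zero, Prod.snd_zero, sub_zero] at a1 a2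
          rw [Prod.norm_def, max_le_iff, Real.norm_eq_abs, Real.norm_eq_abs]
          unfold rt
          simp only
          have b1 : |(i.1 : ℝ)| ≤ 33 := by rw [← Int.cast_abs]; exact_mod_cast a1
          have b2 : |(i.2 : ℝ)| ≤ 33 := by rw [← Int.cast_abs]; exact_mod_cast a2
          rw [abs_div, abs_div, abs_of_pos (by norm_num : (0 : ℝ) < 16)]
          constructor <;> linarith
        have hmem : ∀ {ρ s : ℝ}, 33 / 16 + ρ ≤ s → ∀ p ∈ closedBall (0 : ℝ × ℝ) ρ,
            rt i + (1 : ℝ) • p ∈ closedBall (0 : ℝ × ℝ) s := by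
          intro ρ s hs p hp
          apply add_smul_mem zero_le_one _ hp
          rw [sub_zero]; linarith
        have hs := (Sol.toSolS hsol).resc (rt i) (r := 1) zero_le_one
          (T := closedBall 0 9) (hmem (by norm_num))
        rw [one_mul, one_mul] at hs
        have h5 := h N J _ (resc u (rt i) 1) hN hs (hpos.resc _ one_pos (hmem (by norm_num)))
          (fun z hz => hu1 _ (hmem (by norm_num) z hz))
          (fun z hz => by
            rw [M_resc _ one_pos, one_mul]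
            have hz4 := hmem (ρ := 1) (s := 4) (by norm_num) z hz
            have hsub : closedBall (rt i + (1 : ℝ) • z) 8 ⊆ closedBall (0 : ℝ × ℝ) 16 := by
              intro x hx
              rw [mem_closedBall] at *
              calc dist x 0 ≤ dist x (rt i + (1 : ℝ) • z) + dist (rt i + (1 : ℝ) • z) 0 :=
                    dist_triangle _ _ _
                _ ≤ 8 + 4 := add_le_add hx hz4
                _ ≤ 16 := by norm_num
            exact hlow N q u _ hN1 (Sol.mono hsol hsub) (fun x hx => hu1 x (hsub hx))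
              (hlow1 _ (closedBall_subset_closedBall (by norm_num) hz4)))
        calc ∑ t ∈ desc A J i, (A : ℝ) ^ J / N * mo (V A u J t)
            = ∑ t ∈ desc A J i, (A : ℝ) ^ J / N * mo (V A (resc u (rt i) 1) J (sh A J t i)) :=
              Finset.sum_congr rfl fun t _ => by rw [V_root (by omega)]
          _ = ∑ t ∈ desc A J 0, (A : ℝ) ^ J / N * mo (V A (resc u (rt i) 1) J t) :=
              sum_desc_sh hA2 J i (fun t => (A : ℝ) ^ J / N * mo (V A (resc u (rt i) 1) J t))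
          _ ≤ _ := h5
    _ = 67 ^ 2 * Cf * (A : ℝ) ^ (2 * J) := by
        rw [Finset.sum_const, nsmul_eq_mul]
        have := card_nbr 33 0
        rw [show ((33 : ℕ) : ℤ) = 33 from rfl] at this
        rw [this]
        norm_num
        ring

set_option maxRecDepth 4000 in
/-- The local form of the bound of the average doubling index. -/
theorem local_sum (h2 : U2) (h3 : U3) (h4 : U4) (W C1 K k : ℝ) (hW : 1 ≤ W) (hC1 : 0 ≤ C1)
    (hK : 1 ≤ K) (hk : 0 < k) : ∃ C N0 : ℝ, ∀ (N : ℝ) (q u : ℝ × ℝ → ℝ), N0 ≤ N →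
      Sol q u ((W * N) ^ 2) (closedBall 0 16) → (∀ z ∈ closedBall (0 : ℝ × ℝ) 16, |u z| ≤ 1) →
      (∀ z ∈ closedBall (0 : ℝ × ℝ) 8, Real.exp (-(C1 * N)) ≤ M u z 1) →
      ∀ F : Finset (ℤ × ℤ),
        (∀ n ∈ F, (((n.1 : ℝ) / N, (n.2 : ℝ) / N) : ℝ × ℝ) ∈ closedBall (0 : ℝ × ℝ) 2) →
        ∑ n ∈ F, (Real.log (M u ((n.1 : ℝ) / N, (n.2 : ℝ) / N) (K / N)) -
          Real.log (M u ((n.1 : ℝ) / N, (n.2 : ℝ) / N) (k / N))) ≤ C * N ^ 2 := by
  obtain ⟨n0, hn0⟩ := pow_unbounded_of_one_lt (2 * K) (one_lt_two)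
  obtain ⟨A, ks, Cf, hA, hks, hCf, hsum⟩ := sum_mo h2 h3 h4 W C1 hW hC1 n0
  have hA2 : 2 ≤ A := by omega
  have hA1 : 1 ≤ A := by omega
  have hA0 : (0 : ℝ) < A := by exact_mod_cast (by omega : 0 < A)
  have hAr : (1000 : ℝ) ≤ A := by exact_mod_cast hA
  -- the final resolution
  obtain ⟨A', hA'⟩ := exists_nat_ge ((A : ℝ) ^ (ks + 1) / (16 * k))
  set A2 : ℕ := max A' 12 with hA2def
  have hA2r : (A : ℝ) ^ (ks + 1) / (16 * k) ≤ A2 := by
    refine hA'.trans ?_
    exact_mod_cast le_max_left _ _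
  obtain ⟨K2, CA2, hK2, hCA2, hgr⟩ := U2_best h2 A2 (le_max_right _ _)
  have hA20 : (0 : ℝ) < A2 := by exact_mod_cast (by omega : 0 < A2)
  set L : ℝ := (A : ℝ) ^ (ks + 1) with hL
  have hL0 : 0 < L := by positivity
  have hPks : 2 * K ≤ (A : ℝ) ^ ks := by
    calc 2 * K ≤ 2 ^ n0 := hn0.le
      _ ≤ 2 ^ ks := pow_le_pow_right₀ (by norm_num) hks
      _ ≤ (A : ℝ) ^ ks := by gcongr; linarith only [hAr]
  refine ⟨(L + 1) ^ 2 * (CA2 * (L * Cf + 67 ^ 2 * (K2 * W * L))), (A : ℝ) ^ ks, ?_⟩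
  intro N q u hN0 hsol hu1 hlow F hF
  have hAks1 : 1 ≤ (A : ℝ) ^ ks := one_le_pow₀ (by linarith only [hAr])
  have hN1 : 1 ≤ N := hAks1.trans hN0
  have hNpos : 0 < N := by linarith
  have hu : Continuous u := hsol.smooth_u.continuous
  obtain ⟨j, hj1, hj2⟩ := exists_nat_pow_near hN1 (by linarith : (1 : ℝ) < A)
  have hjks : ks ≤ j := by
    have : (A : ℝ) ^ ks < (A : ℝ) ^ (j + 1) := lt_of_le_of_lt hN0 hj2
    have := (pow_lt_pow_iff_right₀ (by linarith : (1 : ℝ) < A)).mp this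
    omega
  set J := j - ks with hJ
  have hJj : J + ks = j := by omega
  have hPJ : 0 < (A : ℝ) ^ J := by positivity
  have hPJ1 : 1 ≤ (A : ℝ) ^ J := one_le_pow₀ (by linarith only [hAr])
  have hNP1 : (A : ℝ) ^ ks ≤ N / (A : ℝ) ^ J := by
    rw [le_div_iff₀ hPJ, ← pow_add, add_comm ks J, hJj]; exact hj1
  have hNP2 : N / (A : ℝ) ^ J ≤ L := by
    rw [div_le_iff₀ hPJ, hL, ← pow_add, show ks + 1 + J = j + 1 by omega]; exact hj2.le
  have hNP3 : 1 ≤ N / (A : ℝ) ^ J := hAks1.trans hNP1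
  -- positivity
  have hpos : PosM u (closedBall 0 5) := by
    intro z hz r hr
    have hsub : closedBall z 8 ⊆ closedBall (0 : ℝ × ℝ) 16 := by
      intro x hx
      rw [mem_closedBall] at *
      calc dist x 0 ≤ dist x z + dist z 0 := dist_triangle _ _ _
        _ ≤ 8 + 5 := add_le_add hx hz
        _ ≤ 16 := by norm_num
    obtain ⟨C', -, h'⟩ := low_bound W C1 (min r 1) hW hC1 (by positivity) (min_le_right _ _)
    have h5 := h' N q u z hN1 (Sol.mono hsol hsub) (fun x hx => hu1 x (hsub hx))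
      (hlow z (closedBall_subset_closedBall (by norm_num) hz))
    have h6 : M u z (min r 1) ≤ M u z r :=
      M_mono hu (by positivity) (closedBall_subset_closedBall (min_le_left _ _))
    exact lt_of_lt_of_le (Real.exp_pos _) (h5.trans h6)
  have hmain := hsum N J q u (by rw [hJj]; exact hj1) hsol hpos hu1 hlow
  -- the square of a grid point
  set P : ℝ := (A : ℝ) ^ J with hP
  set tt : ℤ × ℤ → ℤ × ℤ := fun n =>
    (⌊P * (16 * ((n.1 : ℝ) / N) + 1 / 2)⌋, ⌊P * (16 * ((n.2 : ℝ) / N) + 1 / 2)⌋) with htt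
  have hPint : P = ((A ^ J : ℕ) : ℝ) := by rw [hP]; push_cast; rfl
  have hcoord : ∀ x : ℝ, |x / N - (((⌊P * (16 * (x / N) + 1 / 2)⌋ : ℝ) + 1 / 2) / P - 1 / 2) / 16| ≤
      1 / 32 / P := by
    intro x
    have h5 := Int.floor_le (P * (16 * (x / N) + 1 / 2))
    have h6 := Int.lt_floor_add_one (P * (16 * (x / N) + 1 / 2))
    set f : ℝ := (⌊P * (16 * (x / N) + 1 / 2)⌋ : ℝ) with hf
    have e1 : x / N - ((f + 1 / 2) / P - 1 / 2) / 16 =
        (P * (16 * (x / N) + 1 / 2) - f - 1 / 2) / (16 * P) := by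
      field_simp
      ring
    rw [e1, abs_div, abs_of_pos (by positivity : 0 < 16 * P), div_div,
      div_le_div_iff₀ (by positivity) (by positivity)]
    have h7 : |P * (16 * (x / N) + 1 / 2) - f - 1 / 2| ≤ 1 / 2 := by
      rw [abs_le]; constructor <;> linarith only [h5, h6]
    nlinarith only [hPJ, h7]
  set pt : ℤ × ℤ → ℝ × ℝ := fun n => ((n.1 : ℝ) / N, (n.2 : ℝ) / N) with hpt
  have hcen : ∀ n, ‖pt n - cen (A ^ J) (tt n)‖ ≤ 1 / 32 / P := by
    intro n
    rw [Prod.norm_def, max_le_iff, Real.norm_eq_abs, Real.norm_eq_abs]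
    unfold cen
    rw [← hPint]
    exact ⟨hcoord n.1, hcoord n.2⟩
  have htt_mem : ∀ n ∈ F, tt n ∈ (nbr 33 0).biUnion (desc A J) := by
    intro n hn
    have hn2 := hF n hn
    rw [mem_closedBall_zero_iff, Prod.norm_def, max_le_iff, Real.norm_eq_abs,
      Real.norm_eq_abs] at hn2
    rw [Finset.mem_biUnion]
    refine ⟨anc A J (tt n), ?_, (mem_desc hA2).mpr rfl⟩
    rw [mem_nbr]
    have key : ∀ x : ℝ, |x / N| ≤ 2 → |⌊P * (16 * (x / N) + 1 / 2)⌋ / (A : ℤ) ^ J| ≤ 33 := by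
      intro x hx
      rw [abs_le] at hx
      have hpz := powpos hA2 J
      set f := ⌊P * (16 * (x / N) + 1 / 2)⌋ with hf
      have h5 := Int.floor_le (P * (16 * (x / N) + 1 / 2))
      have h6 := Int.lt_floor_add_one (P * (16 * (x / N) + 1 / 2))
      have e := (Int.ediv_eq_iff_of_pos hpz (x := f) (y := f / (A : ℤ) ^ J)).mp rfl
      set i := f / (A : ℤ) ^ J with hi
      have e1 : (i : ℝ) * P ≤ f := by rw [hP]; exact_mod_cast e.1
      have e2 : (f : ℝ) + 1 ≤ (i + 1) * P := by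
        have h7 : f + 1 ≤ (i + 1) * (A : ℤ) ^ J := by linarith only [e.2]
        rw [hP]
        exact_mod_cast h7
      have e3 : (i : ℝ) ≤ 16 * (x / N) + 1 / 2 := by
        have : (i : ℝ) * P ≤ (16 * (x / N) + 1 / 2) * P := by linarith only [h5, e1]
        exact le_of_mul_le_mul_right this hPJ
      have e4 : 16 * (x / N) + 1 / 2 ≤ (i : ℝ) + 1 := by
        have : (16 * (x / N) + 1 / 2) * P ≤ ((i : ℝ) + 1) * P := by linarith only [h6, e2]
        exact le_of_mul_le_mul_right this hPJ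
      have e5 : (i : ℝ) < 33 := by linarith only [e3, hx.2]
      have e6 : (-33 : ℝ) < i := by linarith only [e4, hx.1]
      have e7 : i < 33 := by exact_mod_cast e5
      have e8 : -33 < i := by exact_mod_cast e6
      rw [abs_le]
      constructor <;> omega
    constructor
    · simp only [anc, Prod.fst_zero, sub_zero]
      exact key n.1 hn2.1
    · simp only [anc, Prod.snd_zero, sub_zero]
      exact key n.2 hn2.2
  have hcen_le : ∀ n ∈ F, ‖cen (A ^ J) (tt n)‖ ≤ 17 / 8 := by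
    intro n hn
    have h5 := hcen n
    have h6 := hF n hn
    rw [mem_closedBall_zero_iff] at h6
    have h7 : 1 / 32 / P ≤ 1 / 8 := by
      rw [div_le_iff₀ hPJ]; linarith only [hPJ1]
    have h8 : cen (A ^ J) (tt n) = pt n - (pt n - cen (A ^ J) (tt n)) := by abel
    calc ‖cen (A ^ J) (tt n)‖ = ‖pt n - (pt n - cen (A ^ J) (tt n))‖ := by rw [← h8]
      _ ≤ ‖pt n‖ + ‖pt n - cen (A ^ J) (tt n)‖ := norm_sub_le _ _
      _ ≤ 2 + 1 / 8 := by linarith only [h5, h6, h7]
      _ = 17 / 8 := by norm_num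
  have hPinv : 1 / P ≤ 1 := by rw [div_le_one hPJ]; exact hPJ1
  have hPinv0 : 0 < 1 / P := by positivity
  have hterm : ∀ n ∈ F, Real.log (M u (pt n) (K / N)) - Real.log (M u (pt n) (k / N)) ≤
      CA2 * (mo (V A u J (tt n)) + K2 * W * L) := by
    intro n hn
    have hc1 := hcen_le n hn
    set c := cen (A ^ J) (tt n) with hc
    have hVe : V A u J (tt n) = resc u c (1 / P) := by
      unfold V child; rw [← hPint]
    have hmem : ∀ {ρ s : ℝ}, 0 ≤ ρ → 17 / 8 + ρ ≤ s → ∀ p ∈ closedBall (0 : ℝ × ℝ) ρ,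
        c + (1 / P) • p ∈ closedBall (0 : ℝ × ℝ) s := by
      intro ρ s hρ hs p hp
      apply add_smul_mem hPinv0.le _ hp
      rw [sub_zero]
      nlinarith only [hPinv, hc1, hρ, hs]
    have hs := (Sol.toSolS hsol).resc c (r := 1 / P) hPinv0.le
      (T := closedBall 0 8) (hmem (by norm_num) (by norm_num))
    have hp1 : PosM (resc u c (1 / P)) (closedBall 0 1) :=
      hpos.resc _ hPinv0 (hmem (by norm_num) (by norm_num))
    have hmo0 : 0 ≤ mo (resc u c (1 / P)) := mo_nonneg (continuous_resc hu _ _)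
    have hKWL : 0 ≤ K2 * W * L := by positivity
    have hL1 : 1 ≤ L := hNP3.trans hNP2
    have hKW1 : 1 ≤ K2 * W := by nlinarith only [hW, hK2]
    have hKWL2 : K2 ≤ K2 * W * L := by nlinarith only [hW, hK, hK2, hPks, hNP1, hNP2, hKW1]
    obtain ⟨g, -⟩ := hgr (mo (resc u c (1 / P)) + K2 * W * L) _ _ _ (resc u c (1 / P)) hs
      (by positivity) (by positivity) (by rw [mul_one]; exact hPinv) hp1 (by linarith only [hK2, hKWL2])
      (by linarith only [hmo0, hKWL2])
      (by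
        calc K2 * (1 / P * (W * N)) = K2 * W * (N / P) := by ring
          _ ≤ K2 * W * L := by gcongr
          _ ≤ _ := by linarith only [hmo0])
    rw [hVe]
    set m := mo (resc u c (1 / P)) + K2 * W * L with hm
    -- the position of the grid point in the square
    set z : ℝ × ℝ := P • (pt n - c) with hz
    have hcz : c + (1 / P) • z = pt n := by
      rw [hz, smul_smul, one_div_mul_cancel hPJ.ne', one_smul]; abel
    have hz1 : ‖z‖ ≤ 1 / 32 := by
      rw [hz, norm_smul, Real.norm_eq_abs, abs_of_pos hPJ]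
      have h5 := hcen n
      calc P * ‖pt n - c‖ ≤ P * (1 / 32 / P) := by gcongr
        _ = 1 / 32 := by field_simp
    have hz2 : z ∈ closedBall (0 : ℝ × ℝ) (1 / 4) := by
      rw [mem_closedBall_zero_iff]; linarith only [hz1]
    have hKP : K / (N / P) ≤ 1 / 2 := by
      rw [div_le_iff₀ (by linarith only [hK, hPks, hNP1])]
      linarith only [hPks, hNP1]
    have h7 : M u (pt n) (K / N) ≤ M u (pt n) (k / N) * Real.exp (CA2 * m) := by
      apply M_le (by positivity)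
      intro x hx
      have e1 : x = c + (1 / P) • (z + P • (x - pt n)) := by
        rw [smul_add, smul_smul (1 / P) P (x - pt n), one_div_mul_cancel hPJ.ne', one_smul,
          ← add_assoc, hcz]; abel
      have hx1 : z + P • (x - pt n) ∈ closedBall (0 : ℝ × ℝ) 1 := by
        rw [mem_closedBall_zero_iff]
        rw [mem_closedBall, dist_eq_norm] at hx
        calc ‖z + P • (x - pt n)‖ ≤ ‖z‖ + ‖P • (x - pt n)‖ := norm_add_le _ _
          _ = ‖z‖ + P * ‖x - pt n‖ := by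
            rw [norm_smul P (x - pt n), Real.norm_eq_abs, abs_of_pos hPJ]
          _ ≤ 1 / 32 + P * (K / N) := by gcongr
          _ = 1 / 32 + K / (N / P) := by congr 1; field_simp
          _ ≤ 1 := by linarith only [hKP]
      have h8 := g z hz2 _ hx1
      rw [M_resc _ hPinv0, hcz] at h8
      have e2 : |resc u c (1 / P) (z + P • (x - pt n))| = |u x| := by
        unfold resc; rw [← e1]
      rw [e2] at h8
      refine h8.trans ?_
      gcongr
      apply M_mono hu (by positivity)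
      apply closedBall_subset_closedBall
      have h9 : L ≤ A2 * (16 * k) := by
        rwa [div_le_iff₀ (by positivity)] at hA2r
      have h10 : N ≤ L * P := by
        rwa [div_le_iff₀ hPJ] at hNP2
      rw [div_mul_div_comm, mul_one, div_le_div_iff₀ (by positivity) hNpos]
      calc 1 * N ≤ L * P := by linarith only [h10]
        _ ≤ A2 * (16 * k) * P := by gcongr
        _ = k * (P * (16 * A2)) := by ring
    have hMk : 0 < M u (pt n) (k / N) := by
      apply hpos _ _ _ (by positivity)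
      exact closedBall_subset_closedBall (by norm_num) (hF n hn)
    have hMK : 0 < M u (pt n) (K / N) := by
      apply hpos _ _ _ (by positivity)
      exact closedBall_subset_closedBall (by norm_num) (hF n hn)
    have h9 := Real.log_le_log hMK h7
    rw [Real.log_mul hMk.ne' (Real.exp_pos _).ne', Real.log_exp] at h9
    linarith only [h9]
  -- summation
  set TT := (nbr 33 0).biUnion (desc A J) with hTT
  have hnonneg : ∀ t, 0 ≤ CA2 * (mo (V A u J t) + K2 * W * L) := by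
    intro t
    have := mo_nonneg (continuous_child hu (A ^ J) t)
    have h5 : 0 ≤ mo (V A u J t) := this
    positivity
  have hTTc : (TT.card : ℝ) ≤ 67 ^ 2 * P ^ 2 := by
    calc (TT.card : ℝ) ≤ ((∑ d ∈ nbr 33 0, (desc A J d).card : ℕ) : ℝ) := by
          exact_mod_cast Finset.card_biUnion_le
      _ = 67 ^ 2 * P ^ 2 := by
          rw [Nat.cast_sum, Finset.sum_congr rfl (fun d _ => card_desc (A := A) J d),
            Finset.sum_const, nsmul_eq_mul]
          have := card_nbr 33 0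
          rw [show ((33 : ℕ) : ℤ) = 33 from rfl] at this
          rw [this, hP]
          norm_num
          ring
  have hmo_sum : ∑ t ∈ TT, mo (V A u J t) ≤ N / P * (Cf * P ^ 2) := by
    have e1 : ∑ t ∈ TT, mo (V A u J t) = N / P * ∑ t ∈ TT, P / N * mo (V A u J t) := by
      rw [Finset.mul_sum]
      refine Finset.sum_congr rfl fun t _ => ?_
      field_simp
    rw [e1]
    gcongr
    refine hmain.trans (le_of_eq ?_)
    rw [hP]; ring
  have hfiber : ∀ t ∈ TT, ((F.filter fun n => tt n = t).card : ℝ) ≤ (L + 1) ^ 2 := by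
    intro t _
    have hLP : N / (16 * P) ≤ L := by
      calc N / (16 * P) ≤ N / P := by
            apply div_le_div_of_nonneg_left hNpos.le hPJ; linarith only [hPJ]
        _ ≤ L := hNP2
    set a1 : ℝ := ((t.1 : ℝ) / P - 1 / 2) / 16 * N with ha1
    set a2 : ℝ := ((t.2 : ℝ) / P - 1 / 2) / 16 * N with ha2
    refine card_fiber_le (a := a1) (b := a2) hL0.le ?_
    intro n hn
    rw [Finset.mem_filter] at hn
    obtain ⟨-, hn⟩ := hn
    have key : ∀ (x : ℝ) (f : ℤ), ⌊P * (16 * (x / N) + 1 / 2)⌋ = f →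
        ((f : ℝ) / P - 1 / 2) / 16 * N ≤ x ∧ x ≤ ((f : ℝ) / P - 1 / 2) / 16 * N + L := by
      intro x f hf
      have h5 := Int.floor_le (P * (16 * (x / N) + 1 / 2))
      have h6 := Int.lt_floor_add_one (P * (16 * (x / N) + 1 / 2))
      rw [hf] at h5 h6
      have e1 : x = ((P * (16 * (x / N) + 1 / 2)) / P - 1 / 2) / 16 * N := by
        field_simp
        ring
      constructor
      · calc ((f : ℝ) / P - 1 / 2) / 16 * N
            ≤ ((P * (16 * (x / N) + 1 / 2)) / P - 1 / 2) / 16 * N := by gcongr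
          _ = x := e1.symm
      · calc x = ((P * (16 * (x / N) + 1 / 2)) / P - 1 / 2) / 16 * N := e1
          _ ≤ (((f : ℝ) + 1) / P - 1 / 2) / 16 * N := by gcongr
          _ = ((f : ℝ) / P - 1 / 2) / 16 * N + N / (16 * P) := by field_simp; ring
          _ ≤ _ := by linarith only [hLP]
    have hn1 : ⌊P * (16 * ((n.1 : ℝ) / N) + 1 / 2)⌋ = t.1 := congrArg Prod.fst hn
    have hn2 : ⌊P * (16 * ((n.2 : ℝ) / N) + 1 / 2)⌋ = t.2 := congrArg Prod.snd hn
    exact ⟨(key _ _ hn1).1, (key _ _ hn1).2, (key _ _ hn2).1, (key _ _ hn2).2⟩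
  calc ∑ n ∈ F, (Real.log (M u (pt n) (K / N)) - Real.log (M u (pt n) (k / N)))
      ≤ ∑ n ∈ F, CA2 * (mo (V A u J (tt n)) + K2 * W * L) := Finset.sum_le_sum hterm
    _ = ∑ t ∈ TT, ∑ n ∈ F.filter (fun n => tt n = t), CA2 * (mo (V A u J (tt n)) + K2 * W * L) :=
        (Finset.sum_fiberwise_of_maps_to htt_mem _).symm
    _ = ∑ t ∈ TT, ((F.filter fun n => tt n = t).card : ℝ) *
          (CA2 * (mo (V A u J t) + K2 * W * L)) := by
        refine Finset.sum_congr rfl fun t _ => ?_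
        rw [← nsmul_eq_mul, ← Finset.sum_const]
        refine Finset.sum_congr rfl fun n hn => ?_
        rw [(Finset.mem_filter.mp hn).2]
    _ ≤ ∑ t ∈ TT, (L + 1) ^ 2 * (CA2 * (mo (V A u J t) + K2 * W * L)) := by
        apply Finset.sum_le_sum
        intro t ht
        exact mul_le_mul_of_nonneg_right (hfiber t ht) (hnonneg t)
    _ = (L + 1) ^ 2 * (CA2 * (∑ t ∈ TT, mo (V A u J t) + TT.card * (K2 * W * L))) := by
        rw [← Finset.mul_sum, ← Finset.mul_sum, Finset.sum_add_distrib, Finset.sum_const,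
          nsmul_eq_mul]
    _ ≤ (L + 1) ^ 2 * (CA2 * (N / P * (Cf * P ^ 2) + 67 ^ 2 * P ^ 2 * (K2 * W * L))) := by
        gcongr
    _ ≤ (L + 1) ^ 2 * (CA2 * (L * (Cf * N ^ 2) + 67 ^ 2 * N ^ 2 * (K2 * W * L))) := by
        have hPN : P ≤ N := by
          have : 1 * P ≤ N := by rwa [le_div_iff₀ hPJ] at hNP3
          linarith only [this]
        gcongr
    _ = _ := by ring

end Pool.Agent.H88.Yau
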