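import Pool.Agent.H88.Yau.Tree

set_option autoImplicit false

/-!
# The one-step hypotheses on the tree
-/

namespace Pool.Agent.H88.Yau

open Finset

/-- One step of the deviation `y` and of the slope `p`, for the squares of level less than `m`
below the nine roots `{-1, 0, 1}²`, where `‖p‖ + y` is at least `K1`. -/
structure OneStep {E : Type*} [NormedAddCommGroup E] (A m : ℕ) (K1 C κ : ℝ) (e : ℕ → ℝ)
    (p : ℕ → ℤ × ℤ → E) (y : ℕ → ℤ × ℤ → ℝ) : Prop where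
  y_nonneg : ∀ k q, 0 ≤ y k q
  e_nonneg : ∀ k, 0 ≤ e k
  contract : ∀ k < m, ∀ q, near 1 (anc A k q) 0 → K1 ≤ ‖p k q‖ + y k q →
    ∑ c ∈ desc A 1 q, y (k + 1) c ≤ (A : ℝ) ^ 2 * (κ * (y k q + e k * (‖p k q‖ + y k q)))
  slope : ∀ k < m, ∀ q, near 1 (anc A k q) 0 → K1 ≤ ‖p k q‖ + y k q →
    ∑ c ∈ desc A 1 q, ‖p (k + 1) c - p k q‖ ≤
      (A : ℝ) ^ 2 * (C * (y k q + e k * (‖p k q‖ + y k q)))

end Pool.Agent.H88.Yau
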