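import Pool.Agent.H88.Yau.OneStep

set_option autoImplicit false

/-!
# Persistence
-/

namespace Pool.Agent.H88.Yau

open Finset

/-- A recursion with contraction and summable errors. -/
lemma seq_bound {M : ℕ} {C ε : ℝ} {a b e : ℕ → ℝ} (hC : 1 ≤ C) (ha : ∀ n, 0 ≤ a n)
    (hb : ∀ n, 0 ≤ b n) (he : ∀ n, 0 ≤ e n) (hε : 8 * C * ε ≤ 1)
    (hsum : ∀ n ≤ M, ∑ i ∈ range n, e i ≤ ε)
    (h1 : ∀ n < M, a (n + 1) ≤ 1 / 2 * (a n + e n * b n))
    (h2 : ∀ n < M, b (n + 1) ≤ b n + 2 * C * (a n + e n * b n)) (n : ℕ) (hn : n ≤ M) :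
    b n ≤ 2 * b 0 + 8 * C * a 0 ∧
      ∑ i ∈ range n, (a i + e i * b i) ≤ 2 * a 0 + 2 * ε * (2 * b 0 + 8 * C * a 0) := by
  set B := 2 * b 0 + 8 * C * a 0 with hB
  have hB0 : 0 ≤ B := by have := ha 0; have := hb 0; positivity
  -- the sum is bounded as soon as the `b i` are
  have hS : ∀ n ≤ M, (∀ i < n, b i ≤ B) →
      ∑ i ∈ range n, (a i + e i * b i) ≤ 2 * a 0 + 2 * ε * B := by
    intro n hn hi
    rcases Nat.eq_zero_or_pos n with rfl | hpos
    · simp only [range_zero, sum_empty]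
      have hε0 : 0 ≤ ε := by
        have := hsum 0 (Nat.zero_le _)
        simpa using this
      have := ha 0
      positivity
    · obtain ⟨k, rfl⟩ : ∃ k, n = k + 1 := ⟨n - 1, by omega⟩
      have e1 : ∑ i ∈ range (k + 1), a i ≤
          a 0 + 1 / 2 * ∑ i ∈ range (k + 1), (a i + e i * b i) := by
        rw [sum_range_succ' a k, add_comm]
        have h3 : ∑ i ∈ range k, a (i + 1) ≤ 1 / 2 * ∑ i ∈ range k, (a i + e i * b i) := by
          rw [mul_sum]
          exact sum_le_sum fun i hi => h1 i (by have := mem_range.mp hi; omega)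
        have h4 : ∑ i ∈ range k, (a i + e i * b i) ≤ ∑ i ∈ range (k + 1), (a i + e i * b i) := by
          rw [sum_range_succ]
          have h5 := ha k
          have h6 := mul_nonneg (he k) (hb k)
          linarith
        linarith
      have e2 : ∑ i ∈ range (k + 1), e i * b i ≤ ε * B := by
        calc ∑ i ∈ range (k + 1), e i * b i ≤ ∑ i ∈ range (k + 1), e i * B :=
              sum_le_sum fun i hi' => mul_le_mul_of_nonneg_left (hi i (mem_range.mp hi')) (he i)
          _ = (∑ i ∈ range (k + 1), e i) * B := (sum_mul _ _ _).symm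
          _ ≤ ε * B := mul_le_mul_of_nonneg_right (hsum _ hn) hB0
      rw [sum_add_distrib] at e1 ⊢
      linarith
  have hbn : ∀ n ≤ M, ∀ i ≤ n, b i ≤ B := by
    intro n
    induction n with
    | zero =>
      intro _ i hi
      have : i = 0 := by omega
      subst this
      have h3 := ha 0
      have h4 := hb 0
      have h5 : 0 ≤ C * a 0 := mul_nonneg (by linarith) h3
      rw [hB]; linarith
    | succ n ih =>
      intro hn i hi
      rcases Nat.lt_or_ge i (n + 1) with hlt | hge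
      · exact ih (by omega) i (by omega)
      · have : i = n + 1 := by omega
        subst this
        have hb' : ∀ j ≤ n + 1, b j ≤ b 0 + 2 * C * ∑ i ∈ range j, (a i + e i * b i) := by
          intro j
          induction j with
          | zero => intro _; simp
          | succ j ihj =>
            intro hj
            rw [sum_range_succ]
            have h3 := h2 j (by omega)
            have h4 := ihj (by omega)
            linarith
        have h3 := hb' (n + 1) le_rfl
        have h4 := hS (n + 1) hn (fun i hi => ih (by omega) i (by omega))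
        have h5 : 2 * C * ∑ i ∈ range (n + 1), (a i + e i * b i) ≤
            2 * C * (2 * a 0 + 2 * ε * B) := mul_le_mul_of_nonneg_left h4 (by linarith)
        have h6 : 2 * C * (2 * ε * B) ≤ B / 2 := by
          have : 8 * C * ε * B ≤ 1 * B := mul_le_mul_of_nonneg_right hε hB0
          linarith
        have h7 : b 0 + 4 * C * a 0 = B / 2 := by rw [hB]; ring
        linarith
  exact ⟨hbn n hn n le_rfl, hS n hn fun i hi => hbn n hn i hi.le⟩

section

variable {E : Type*} [NormedAddCommGroup E] {A m : ℕ} {K1 C κ : ℝ} {e : ℕ → ℝ}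
    {p : ℕ → ℤ × ℤ → E} {y : ℕ → ℤ × ℤ → ℝ}

open Classical in
/-- The descendants `j` levels below `q` (of level `k`) whose chain keeps the size `th`. -/
noncomputable def act (A : ℕ) (p : ℕ → ℤ × ℤ → E) (y : ℕ → ℤ × ℤ → ℝ) (th : ℝ) (k : ℕ)
    (q : ℤ × ℤ) (j : ℕ) : Finset (ℤ × ℤ) :=
  (desc A j q).filter fun c => ∀ l ≤ j, th ≤ ‖p (k + l) (anc A (j - l) c)‖ +
    y (k + l) (anc A (j - l) c)

lemma mem_act (hA : 2 ≤ A) {th : ℝ} {k : ℕ} {q : ℤ × ℤ} {j : ℕ} {c : ℤ × ℤ} :
    c ∈ act A p y th k q j ↔ anc A j c = q ∧ ∀ l ≤ j,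
      th ≤ ‖p (k + l) (anc A (j - l) c)‖ + y (k + l) (anc A (j - l) c) := by
  unfold act
  rw [mem_filter, mem_desc hA]

lemma act_succ (hA : 2 ≤ A) {th : ℝ} {k : ℕ} {q : ℤ × ℤ} {j : ℕ} {d : ℤ × ℤ}
    (hd : d ∈ act A p y th k q (j + 1)) : anc A 1 d ∈ act A p y th k q j := by
  rw [mem_act hA] at hd ⊢
  obtain ⟨h1, h2⟩ := hd
  refine ⟨by rw [anc_add]; exact h1, fun l hl => ?_⟩
  have h3 := h2 l (by omega)
  have h4 : j - l + 1 = j + 1 - l := by omega
  rw [anc_add, h4]
  exact h3

lemma sum_act_succ (hA : 2 ≤ A) {th : ℝ} {k : ℕ} {q : ℤ × ℤ} {j : ℕ} {f : ℤ × ℤ → ℝ}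
    (hf : ∀ d, 0 ≤ f d) :
    ∑ d ∈ act A p y th k q (j + 1), f d ≤
      ∑ c ∈ act A p y th k q j, ∑ d ∈ desc A 1 c, f d := by
  rw [← Finset.sum_fiberwise_of_maps_to (s := act A p y th k q (j + 1))
    (t := act A p y th k q j) (g := anc A 1) (fun d hd => act_succ hA hd)]
  refine sum_le_sum fun c _ => ?_
  refine sum_le_sum_of_subset_of_nonneg (fun d hd => ?_) fun d _ _ => hf d
  rw [mem_filter] at hd
  rw [mem_desc hA]
  exact hd.2

lemma act_zero_le {th : ℝ} {k : ℕ} {q : ℤ × ℤ} {f : ℤ × ℤ → ℝ} (hA : 2 ≤ A) (hf : 0 ≤ f q) :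
    ∑ d ∈ act A p y th k q 0, f d ≤ f q := by
  have h1 : act A p y th k q 0 ⊆ {q} := by
    intro d hd
    rw [mem_act hA, anc_zero] at hd
    rw [mem_singleton]
    exact hd.1
  calc ∑ d ∈ act A p y th k q 0, f d ≤ ∑ d ∈ ({q} : Finset (ℤ × ℤ)), f d := by
        refine sum_le_sum_of_subset_of_nonneg h1 fun d hd _ => ?_
        rw [mem_singleton] at hd
        rw [hd]; exact hf
    _ = f q := sum_singleton _ _

/-- The bounds along the active descendants. -/
lemma act_bounds (hA : 2 ≤ A) (h : OneStep A m K1 C κ e p y)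
    (hC : 1 ≤ C) (hκ : κ ≤ 1 / 2) (he : ∑ k ∈ range m, e k ≤ 1 / (192 * C))
    {th : ℝ} (hth : K1 ≤ th) {k : ℕ} (hk : k ≤ m) {q : ℤ × ℤ} (hq : near 1 (anc A k q) 0) :
    (∀ n, k + n ≤ m → ∑ c ∈ act A p y th k q n, (‖p (k + n) c‖ + y (k + n) c) ≤
      (2 * (‖p k q‖ + y k q) + 8 * C * y k q) * (A : ℝ) ^ (2 * n)) ∧
    ∑ n ∈ range (m - k), (∑ c ∈ act A p y th k q n, ∑ d ∈ desc A 1 c,
      ‖p (k + n + 1) d - p (k + n) c‖) / (A : ℝ) ^ (2 * (n + 1)) ≤
      C * (2 * y k q + 1 / (96 * C) * (2 * (‖p k q‖ + y k q) + 8 * C * y k q)) := by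
  have hA0 : (0 : ℝ) < A := by exact_mod_cast (by omega : 0 < A)
  set a : ℕ → ℝ := fun n => (∑ c ∈ act A p y th k q n, y (k + n) c) / (A : ℝ) ^ (2 * n) with ha
  set b : ℕ → ℝ := fun n => (∑ c ∈ act A p y th k q n, (‖p (k + n) c‖ + y (k + n) c)) /
    (A : ℝ) ^ (2 * n) with hb
  have ha0 : ∀ n, 0 ≤ a n := fun n => div_nonneg (sum_nonneg fun c _ => h.y_nonneg _ _)
    (by positivity)
  have hb0 : ∀ n, 0 ≤ b n := fun n => div_nonneg
    (sum_nonneg fun c _ => add_nonneg (norm_nonneg _) (h.y_nonneg _ _)) (by positivity)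
  have hpow : ∀ n, (A : ℝ) ^ (2 * (n + 1)) = (A : ℝ) ^ 2 * (A : ℝ) ^ (2 * n) := by
    intro n; rw [← pow_add]; congr 1; ring
  -- every active square satisfies the one-step estimates
  have hnear : ∀ n, ∀ c ∈ act A p y th k q n, near 1 (anc A (k + n) c) 0 := by
    intro n c hc
    rw [mem_act hA] at hc
    rw [← anc_add, hc.1]
    exact hq
  have hK : ∀ n, ∀ c ∈ act A p y th k q n, K1 ≤ ‖p (k + n) c‖ + y (k + n) c := by
    intro n c hc
    rw [mem_act hA] at hc
    have := hc.2 n le_rfl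
    rw [Nat.sub_self, anc_zero] at this
    exact hth.trans this
  have key : ∀ n, k + n < m → ∀ (f : ℤ × ℤ → ℤ × ℤ → ℝ) (D : ℝ),
      (∀ c ∈ act A p y th k q n, ∑ d ∈ desc A 1 c, f c d ≤
        (A : ℝ) ^ 2 * (D * (y (k + n) c + e (k + n) * (‖p (k + n) c‖ + y (k + n) c)))) →
      (∑ c ∈ act A p y th k q n, ∑ d ∈ desc A 1 c, f c d) / (A : ℝ) ^ (2 * (n + 1)) ≤
        D * (a n + e (k + n) * b n) := by
    intro n hn f D hf
    rw [div_le_iff₀ (by positivity)]
    calc ∑ c ∈ act A p y th k q n, ∑ d ∈ desc A 1 c, f c d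
        ≤ ∑ c ∈ act A p y th k q n, (A : ℝ) ^ 2 * (D * (y (k + n) c +
            e (k + n) * (‖p (k + n) c‖ + y (k + n) c))) := sum_le_sum hf
      _ = D * (a n + e (k + n) * b n) * (A : ℝ) ^ (2 * (n + 1)) := by
          rw [← mul_sum, ← mul_sum, sum_add_distrib, ← mul_sum, hpow, ha, hb]
          have hne : ((A : ℝ) ^ (2 * n)) ≠ 0 := by positivity
          field_simp
  have step_a : ∀ n < m - k, a (n + 1) ≤ κ * (a n + e (k + n) * b n) := by
    intro n hn
    have h1 : a (n + 1) ≤ (∑ c ∈ act A p y th k q n, ∑ d ∈ desc A 1 c, y (k + n + 1) d) /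
        (A : ℝ) ^ (2 * (n + 1)) := by
      simp only [ha]
      apply div_le_div_of_nonneg_right _ (by positivity)
      exact sum_act_succ hA fun d => h.y_nonneg _ _
    refine h1.trans (key n (by omega) (fun _ d => y (k + n + 1) d) κ fun c hc => ?_)
    exact h.contract (k + n) (by omega) c (hnear n c hc) (hK n c hc)
  have step_v : ∀ n < m - k, (∑ c ∈ act A p y th k q n, ∑ d ∈ desc A 1 c,
      ‖p (k + n + 1) d - p (k + n) c‖) / (A : ℝ) ^ (2 * (n + 1)) ≤
        C * (a n + e (k + n) * b n) := by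
    intro n hn
    refine key n (by omega) (fun c d => ‖p (k + n + 1) d - p (k + n) c‖) C fun c hc => ?_
    exact h.slope (k + n) (by omega) c (hnear n c hc) (hK n c hc)
  have hz0 : ∀ n, 0 ≤ a n + e (k + n) * b n := fun n =>
    add_nonneg (ha0 n) (mul_nonneg (h.e_nonneg _) (hb0 n))
  have step_b : ∀ n < m - k, b (n + 1) ≤ b n + 2 * C * (a n + e (k + n) * b n) := by
    intro n hn
    have h1 : b (n + 1) ≤ (∑ c ∈ act A p y th k q n, ∑ d ∈ desc A 1 c,
        (‖p (k + n + 1) d‖ + y (k + n + 1) d)) / (A : ℝ) ^ (2 * (n + 1)) := by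
      simp only [hb]
      apply div_le_div_of_nonneg_right _ (by positivity)
      exact sum_act_succ hA (f := fun d => ‖p (k + (n + 1)) d‖ + y (k + (n + 1)) d)
        fun d => add_nonneg (norm_nonneg _) (h.y_nonneg _ _)
    have h2 : (∑ c ∈ act A p y th k q n, ∑ d ∈ desc A 1 c,
        (‖p (k + n + 1) d‖ + y (k + n + 1) d)) / (A : ℝ) ^ (2 * (n + 1)) ≤
        (∑ c ∈ act A p y th k q n, ∑ d ∈ desc A 1 c, ‖p (k + n) c‖) / (A : ℝ) ^ (2 * (n + 1)) +
        (∑ c ∈ act A p y th k q n, ∑ d ∈ desc A 1 c, ‖p (k + n + 1) d - p (k + n) c‖) /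
          (A : ℝ) ^ (2 * (n + 1)) +
        (∑ c ∈ act A p y th k q n, ∑ d ∈ desc A 1 c, y (k + n + 1) d) /
          (A : ℝ) ^ (2 * (n + 1)) := by
      rw [← add_div, ← add_div]
      apply div_le_div_of_nonneg_right _ (by positivity)
      rw [← sum_add_distrib, ← sum_add_distrib]
      refine sum_le_sum fun c _ => ?_
      rw [← sum_add_distrib, ← sum_add_distrib]
      refine sum_le_sum fun d _ => ?_
      have h3 : ‖p (k + n + 1) d‖ ≤ ‖p (k + n) c‖ + ‖p (k + n + 1) d - p (k + n) c‖ := by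
        calc ‖p (k + n + 1) d‖ = ‖p (k + n) c + (p (k + n + 1) d - p (k + n) c)‖ := by
              congr 1; abel
          _ ≤ _ := norm_add_le _ _
      linarith
    have h3 : (∑ c ∈ act A p y th k q n, ∑ d ∈ desc A 1 c, ‖p (k + n) c‖) /
        (A : ℝ) ^ (2 * (n + 1)) ≤ b n := by
      simp only [hb, sum_const, nsmul_eq_mul, card_desc, mul_one]
      rw [div_le_div_iff₀ (by positivity) (by positivity), hpow]
      have h4 : ∑ c ∈ act A p y th k q n, (A : ℝ) ^ 2 * ‖p (k + n) c‖ ≤
          (A : ℝ) ^ 2 * ∑ c ∈ act A p y th k q n, (‖p (k + n) c‖ + y (k + n) c) := by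
        rw [mul_sum]
        refine sum_le_sum fun c _ => mul_le_mul_of_nonneg_left ?_ (by positivity)
        have := h.y_nonneg (k + n) c
        linarith
      have h5 : (0 : ℝ) ≤ (A : ℝ) ^ (2 * n) := by positivity
      nlinarith [mul_le_mul_of_nonneg_right h4 h5]
    have h4 := step_v n hn
    have h5 : (∑ c ∈ act A p y th k q n, ∑ d ∈ desc A 1 c, y (k + n + 1) d) /
        (A : ℝ) ^ (2 * (n + 1)) ≤ κ * (a n + e (k + n) * b n) :=
      key n (by omega) (fun _ d => y (k + n + 1) d) κ fun c hc =>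
        h.contract (k + n) (by omega) c (hnear n c hc) (hK n c hc)
    have h6 : κ * (a n + e (k + n) * b n) ≤ C * (a n + e (k + n) * b n) :=
      mul_le_mul_of_nonneg_right (by linarith) (hz0 n)
    linarith
  have hsum : ∀ n ≤ m - k, ∑ i ∈ range n, e (k + i) ≤ 1 / (192 * C) := by
    intro n hn
    refine le_trans ?_ he
    have h1 : ∑ i ∈ range n, e (k + i) = ∑ i ∈ Ico k (k + n), e i := by
      rw [sum_Ico_eq_sum_range, Nat.add_sub_cancel_left]
    rw [h1]
    refine sum_le_sum_of_subset_of_nonneg (fun i hi => ?_) fun i _ _ => h.e_nonneg i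
    rw [mem_Ico] at hi
    rw [mem_range]
    omega
  have hC0 : (0 : ℝ) < C := by linarith
  have main := seq_bound (M := m - k) (C := C) (ε := 1 / (192 * C)) (a := a) (b := b)
    (e := fun n => e (k + n)) hC ha0 hb0 (fun n => h.e_nonneg _)
    (by rw [mul_one_div, div_le_one (by positivity)]; linarith) hsum
    (fun n hn => (step_a n hn).trans (mul_le_mul_of_nonneg_right hκ (hz0 n))) step_b
  have ea : a 0 ≤ y k q := by
    simp only [ha, mul_zero, pow_zero, div_one, add_zero]
    exact act_zero_le hA (h.y_nonneg _ _)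
  have eb : b 0 ≤ ‖p k q‖ + y k q := by
    simp only [hb, mul_zero, pow_zero, div_one, add_zero]
    exact act_zero_le (f := fun c => ‖p k c‖ + y k c) hA
      (add_nonneg (norm_nonneg _) (h.y_nonneg _ _))
  constructor
  · intro n hn
    have h1 := (main n (by omega)).1
    simp only [hb] at h1
    rw [div_le_iff₀ (by positivity)] at h1
    refine h1.trans (mul_le_mul_of_nonneg_right ?_ (by positivity))
    have h2 : C * a 0 ≤ C * y k q := mul_le_mul_of_nonneg_left ea hC0.le
    have h3 : b 0 ≤ ‖p k q‖ + y k q := eb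
    simp only [hb] at h3
    linarith
  · calc ∑ n ∈ range (m - k), (∑ c ∈ act A p y th k q n, ∑ d ∈ desc A 1 c,
          ‖p (k + n + 1) d - p (k + n) c‖) / (A : ℝ) ^ (2 * (n + 1))
        ≤ ∑ n ∈ range (m - k), C * (a n + e (k + n) * b n) :=
          sum_le_sum fun n hn => step_v n (mem_range.mp hn)
      _ = C * ∑ n ∈ range (m - k), (a n + e (k + n) * b n) := (mul_sum _ _ _).symm
      _ ≤ C * (2 * a 0 + 2 * (1 / (192 * C)) * (2 * b 0 + 8 * C * a 0)) :=
          mul_le_mul_of_nonneg_left (main (m - k) le_rfl).2 hC0.le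
      _ ≤ _ := by
          refine mul_le_mul_of_nonneg_left ?_ hC0.le
          have h2 : C * a 0 ≤ C * y k q := mul_le_mul_of_nonneg_left ea hC0.le
          have h3 : 2 * (1 / (192 * C)) = 1 / (96 * C) := by field_simp; norm_num
          rw [h3]
          have h4 : 1 / (96 * C) * (2 * b 0 + 8 * C * a 0) ≤
              1 / (96 * C) * (2 * (‖p k q‖ + y k q) + 8 * C * y k q) :=
            mul_le_mul_of_nonneg_left (by linarith) (by positivity)
          linarith

end

/-- Summation over all descendants of a function of an ancestor. -/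
lemma sum_anc {A : ℕ} (hA : 2 ≤ A) (n l : ℕ) (hl : l ≤ n) (q : ℤ × ℤ) (f : ℤ × ℤ → ℝ) :
    ∑ T ∈ desc A n q, f (anc A (n - l) T) = (∑ d ∈ desc A l q, f d) * (A : ℝ) ^ (2 * (n - l)) := by
  have h1 : desc A n q = desc A (l + (n - l)) q := by rw [Nat.add_sub_cancel' hl]
  rw [h1, sum_desc_add hA, sum_mul]
  refine sum_congr rfl fun d _ => ?_
  have h2 : ∀ c ∈ desc A (n - l) d, f (anc A (n - l) c) = f d := by
    intro c hc
    rw [mem_desc hA] at hc
    rw [hc]
  rw [sum_congr rfl h2, sum_const, nsmul_eq_mul, card_desc, mul_comm]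

open Classical in
/-- (P1) If the deviation is small compared with the slope, then at least half of the descendants
keep a quarter of `‖p‖ + y` at all levels. -/
theorem persist {E : Type*} [NormedAddCommGroup E] {A m : ℕ} {K1 C κ : ℝ} {e : ℕ → ℝ}
    {p : ℕ → ℤ × ℤ → E} {y : ℕ → ℤ × ℤ → ℝ} (hA : 2 ≤ A) (h : OneStep A m K1 C κ e p y)
    (hC : 1 ≤ C) (hκ0 : 0 ≤ κ) (hκ : κ ≤ 1 / 2) (he : ∑ k ∈ range m, e k ≤ 1 / (192 * C))
    (hK1 : 0 < K1) {k : ℕ} (hk : k ≤ m) {q : ℤ × ℤ} (hq : near 1 (anc A k q) 0)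
    (h1 : y k q ≤ 1 / (64 * C) * ‖p k q‖) (h2 : 4 * K1 ≤ ‖p k q‖ + y k q) :
    (A : ℝ) ^ (2 * (m - k)) / 2 ≤
      (((desc A (m - k) q).filter fun T => ∀ i, k ≤ i → i ≤ m →
        (‖p k q‖ + y k q) / 4 ≤ ‖p i (anc A (m - i) T)‖ + y i (anc A (m - i) T)).card : ℝ) := by
  obtain ⟨n, rfl⟩ : ∃ n, m = k + n := ⟨m - k, by omega⟩
  have hC0 : (0 : ℝ) < C := by linarith
  have hA0 : (0 : ℝ) < A := by exact_mod_cast (by omega : 0 < A)
  have hy0 := h.y_nonneg k q
  have hp0 := norm_nonneg (p k q)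
  rw [Nat.add_sub_cancel_left]
  set r := ‖p k q‖ + y k q with hr
  set th := r / 4 with hth
  have hr0 : 0 < r := by linarith
  have hCy : C * y k q ≤ ‖p k q‖ / 64 := by
    calc C * y k q ≤ C * (1 / (64 * C) * ‖p k q‖) := mul_le_mul_of_nonneg_left h1 hC0.le
      _ = ‖p k q‖ / 64 := by field_simp
  have hy1 : y k q ≤ ‖p k q‖ / 64 := by
    have : y k q ≤ C * y k q := by nlinarith
    linarith
  have hb := (act_bounds hA h hC hκ he (th := th) (by rw [hth]; linarith) hk hq).2
  rw [Nat.add_sub_cancel_left] at hb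
  have hb' : C * (2 * y k q + 1 / (96 * C) * (2 * r + 8 * C * y k q)) ≤ r / 16 := by
    have e1 : C * (2 * y k q + 1 / (96 * C) * (2 * r + 8 * C * y k q)) =
        2 * (C * y k q) + (2 * r + 8 * (C * y k q)) / 96 := by
      field_simp
    rw [e1]
    linarith
  -- the variation along the chain
  set V : ℤ × ℤ → ℝ := fun T => ∑ l ∈ range n,
    if anc A (n - l) T ∈ act A p y th k q l then
      ‖p (k + l + 1) (anc A (n - (l + 1)) T) - p (k + l) (anc A (n - l) T)‖ else 0 with hV
  have hV0 : ∀ T, 0 ≤ V T := fun T => sum_nonneg fun l _ => by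
    split_ifs
    · exact norm_nonneg _
    · exact le_rfl
  have hsumV : ∑ T ∈ desc A n q, V T ≤ (A : ℝ) ^ (2 * n) * (r / 16) := by
    have e1 : ∑ T ∈ desc A n q, V T = ∑ l ∈ range n, (∑ c ∈ act A p y th k q l,
        ∑ d ∈ desc A 1 c, ‖p (k + l + 1) d - p (k + l) c‖) / (A : ℝ) ^ (2 * (l + 1)) *
          (A : ℝ) ^ (2 * n) := by
      simp only [hV]
      rw [sum_comm]
      refine sum_congr rfl fun l hl => ?_
      have hl' := mem_range.mp hl
      have e2 : ∀ T, (if anc A (n - l) T ∈ act A p y th k q l then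
          ‖p (k + l + 1) (anc A (n - (l + 1)) T) - p (k + l) (anc A (n - l) T)‖ else 0) =
          (fun d => if anc A 1 d ∈ act A p y th k q l then
            ‖p (k + l + 1) d - p (k + l) (anc A 1 d)‖ else 0) (anc A (n - (l + 1)) T) := by
        intro T
        have e3 : anc A 1 (anc A (n - (l + 1)) T) = anc A (n - l) T := by
          rw [anc_add]; congr 1; omega
        simp only [e3]
      simp only [e2]
      rw [sum_anc hA n (l + 1) hl' q (fun d => if anc A 1 d ∈ act A p y th k q l then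
            ‖p (k + l + 1) d - p (k + l) (anc A 1 d)‖ else 0)]
      have e4 : (A : ℝ) ^ (2 * n) = (A : ℝ) ^ (2 * (l + 1)) * (A : ℝ) ^ (2 * (n - (l + 1))) := by
        rw [← pow_add]; congr 1; omega
      rw [e4, div_mul_eq_mul_div, eq_div_iff (by positivity)]
      rw [sum_desc_add hA l 1 q]
      have e5 : ∑ d ∈ desc A l q, ∑ c ∈ desc A 1 d, (if anc A 1 c ∈ act A p y th k q l then
            ‖p (k + l + 1) c - p (k + l) (anc A 1 c)‖ else 0) =
          ∑ c ∈ act A p y th k q l, ∑ d ∈ desc A 1 c, ‖p (k + l + 1) d - p (k + l) c‖ := by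
        have e6 : ∀ d ∈ desc A l q, ∑ c ∈ desc A 1 d, (if anc A 1 c ∈ act A p y th k q l then
            ‖p (k + l + 1) c - p (k + l) (anc A 1 c)‖ else 0) =
            if d ∈ act A p y th k q l then ∑ c ∈ desc A 1 d, ‖p (k + l + 1) c - p (k + l) d‖
              else 0 := by
          intro d _
          have e7 : ∀ c ∈ desc A 1 d, (if anc A 1 c ∈ act A p y th k q l then
              ‖p (k + l + 1) c - p (k + l) (anc A 1 c)‖ else 0) =
              if d ∈ act A p y th k q l then ‖p (k + l + 1) c - p (k + l) d‖ else 0 := by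
            intro c hc
            rw [mem_desc hA] at hc
            rw [hc]
          rw [sum_congr rfl e7]
          split_ifs
          · rfl
          · simp
        rw [sum_congr rfl e6, ← sum_filter]
        refine sum_congr ?_ fun _ _ => rfl
        ext d
        rw [mem_filter]
        constructor
        · exact fun hd => hd.2
        · intro hd
          refine ⟨?_, hd⟩
          rw [mem_act hA] at hd
          rw [mem_desc hA]
          exact hd.1
      rw [e5]
      ring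
    rw [e1, ← sum_mul, mul_comm]
    exact mul_le_mul_of_nonneg_left (hb.trans hb') (by positivity)
  -- bad descendants have a large variation
  have hbad : ∀ T ∈ desc A n q, (¬ ∀ i, k ≤ i → i ≤ k + n →
      th ≤ ‖p i (anc A (k + n - i) T)‖ + y i (anc A (k + n - i) T)) → r / 2 ≤ V T := by
    intro T hT hnot
    rw [mem_desc hA] at hT
    have hex : ∃ l, l ≤ n ∧ ‖p (k + l) (anc A (n - l) T)‖ + y (k + l) (anc A (n - l) T) < th := by
      push Not at hnot
      obtain ⟨i, hi1, hi2, hi3⟩ := hnot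
      refine ⟨i - k, by omega, ?_⟩
      rwa [show k + (i - k) = i by omega, show n - (i - k) = k + n - i by omega]
    classical
    set l := Nat.find hex with hl
    obtain ⟨hl1, hl2⟩ := Nat.find_spec hex
    rw [← hl] at hl1 hl2
    have hmin : ∀ l' < l, th ≤ ‖p (k + l') (anc A (n - l') T)‖ +
        y (k + l') (anc A (n - l') T) := by
      intro l' hl'
      by_contra hcon
      push Not at hcon
      exact Nat.find_min hex hl' ⟨by omega, hcon⟩
    have hact : ∀ l' < l, anc A (n - l') T ∈ act A p y th k q l' := by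
      intro l' hl'
      rw [mem_act hA, anc_add, show l' + (n - l') = n by omega]
      refine ⟨hT, fun l'' hl'' => ?_⟩
      rw [anc_add, show l' - l'' + (n - l') = n - l'' by omega]
      exact hmin l'' (by omega)
    have h3 : ∑ l' ∈ range l, dist (p (k + l') (anc A (n - l') T))
        (p (k + (l' + 1)) (anc A (n - (l' + 1)) T)) ≤ V T := by
      calc ∑ l' ∈ range l, dist (p (k + l') (anc A (n - l') T))
            (p (k + (l' + 1)) (anc A (n - (l' + 1)) T))
          ≤ ∑ l' ∈ range l, (if anc A (n - l') T ∈ act A p y th k q l' then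
            ‖p (k + l' + 1) (anc A (n - (l' + 1)) T) - p (k + l') (anc A (n - l') T)‖
              else 0) := by
            refine sum_le_sum fun l' hl' => ?_
            rw [if_pos (hact l' (mem_range.mp hl')), dist_comm, dist_eq_norm]
            exact le_rfl
        _ ≤ V T := by
            refine sum_le_sum_of_subset_of_nonneg
              (fun i hi => mem_range.mpr (by have := mem_range.mp hi; omega)) fun i _ _ => ?_
            split_ifs
            · exact norm_nonneg _
            · exact le_rfl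
    have h4 := dist_le_range_sum_dist (fun l' => p (k + l') (anc A (n - l') T)) l
    simp only [add_zero, Nat.sub_zero] at h4
    rw [hT] at h4
    have h5 : ‖p k q‖ ≤ dist (p k q) (p (k + l) (anc A (n - l) T)) +
        ‖p (k + l) (anc A (n - l) T)‖ := by
      rw [dist_eq_norm]
      calc ‖p k q‖ = ‖p k q - p (k + l) (anc A (n - l) T) + p (k + l) (anc A (n - l) T)‖ := by
            congr 1; abel
        _ ≤ _ := norm_add_le _ _
    have h6 := h.y_nonneg (k + l) (anc A (n - l) T)
    have h7 := h4.trans h3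
    linarith
  -- count
  set good := (desc A n q).filter fun T => ∀ i, k ≤ i → i ≤ k + n →
        th ≤ ‖p i (anc A (k + n - i) T)‖ + y i (anc A (k + n - i) T) with hgood
  set bad := (desc A n q).filter fun T => ¬ ∀ i, k ≤ i → i ≤ k + n →
        th ≤ ‖p i (anc A (k + n - i) T)‖ + y i (anc A (k + n - i) T) with hbadset
  have hcard : (good.card : ℝ) + bad.card = (A : ℝ) ^ (2 * n) := by
    rw [← card_desc n q, ← Finset.card_filter_add_card_filter_not (s := desc A n q)
      (fun T => ∀ i, k ≤ i → i ≤ k + n →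
        th ≤ ‖p i (anc A (k + n - i) T)‖ + y i (anc A (k + n - i) T))]
    push_cast
    rfl
  have h3 : (bad.card : ℝ) * (r / 2) ≤ (A : ℝ) ^ (2 * n) * (r / 16) := by
    calc (bad.card : ℝ) * (r / 2) = ∑ T ∈ bad, r / 2 := by rw [sum_const, nsmul_eq_mul]
      _ ≤ ∑ T ∈ bad, V T := sum_le_sum fun T hT => by
          rw [hbadset, mem_filter] at hT
          exact hbad T hT.1 hT.2
      _ ≤ ∑ T ∈ desc A n q, V T :=
          sum_le_sum_of_subset_of_nonneg (filter_subset _ _) fun T _ _ => hV0 T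
      _ ≤ _ := hsumV
  have h4 : (bad.card : ℝ) ≤ (A : ℝ) ^ (2 * n) / 8 := by
    have h5 : (bad.card : ℝ) * r ≤ (A : ℝ) ^ (2 * n) / 8 * r := by linarith
    exact le_of_mul_le_mul_right h5 hr0
  have h5 : (0 : ℝ) ≤ (A : ℝ) ^ (2 * n) := by positivity
  linarith

open Classical in
/-- (P2) The sum over the descendants whose chain stays active is bounded. -/
theorem bounded_active {E : Type*} [NormedAddCommGroup E] {A m : ℕ} {K1 C κ : ℝ} {e : ℕ → ℝ}
    {p : ℕ → ℤ × ℤ → E} {y : ℕ → ℤ × ℤ → ℝ} (hA : 2 ≤ A) (h : OneStep A m K1 C κ e p y)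
    (hC : 1 ≤ C) (hκ0 : 0 ≤ κ) (hκ : κ ≤ 1 / 2) (he : ∑ k ∈ range m, e k ≤ 1 / (192 * C))
    (hK1 : 0 < K1) {J k : ℕ} (hk : k ≤ J) (hJ : J ≤ m) {q : ℤ × ℤ}
    (hq : near 1 (anc A k q) 0) :
    ∑ T ∈ (desc A (J - k) q).filter (fun T => ∀ i, k ≤ i → i ≤ J →
        K1 ≤ ‖p i (anc A (J - i) T)‖ + y i (anc A (J - i) T)), (‖p J T‖ + y J T) ≤
      (2 + 8 * C) * (‖p k q‖ + y k q) * (A : ℝ) ^ (2 * (J - k)) := by
  obtain ⟨n, rfl⟩ : ∃ n, J = k + n := ⟨J - k, by omega⟩
  have h1 := (act_bounds hA h hC hκ he (th := K1) le_rfl (hk.trans hJ) hq).1 n hJ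
  have h2 : (desc A (k + n - k) q).filter (fun T => ∀ i, k ≤ i → i ≤ k + n →
      K1 ≤ ‖p i (anc A (k + n - i) T)‖ + y i (anc A (k + n - i) T)) = act A p y K1 k q n := by
    unfold act
    rw [Nat.add_sub_cancel_left]
    refine filter_congr fun T _ => ?_
    constructor
    · intro hT l hl
      have := hT (k + l) (by omega) (by omega)
      rwa [Nat.add_sub_add_left] at this
    · intro hT i hi1 hi2
      have := hT (i - k) (by omega)
      rwa [show k + (i - k) = i by omega, show n - (i - k) = k + n - i by omega] at this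
  rw [h2, Nat.add_sub_cancel_left]
  refine h1.trans (mul_le_mul_of_nonneg_right ?_ (by positivity))
  have h3 := h.y_nonneg k q
  have h4 := norm_nonneg (p k q)
  nlinarith [mul_nonneg (by linarith : (0 : ℝ) ≤ C) h4]

end Pool.Agent.H88.Yau
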