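import Pool.Agent.H88.Yau.Best
import Pool.Agent.H88.Yau.Endgame

set_option autoImplicit false

/-!
# The data on the tree
-/

namespace Pool.Agent.H88.Yau

open MeasureTheory Set Metric Pool.Agent.H24.Near

/-- The function seen from the square of level `k` and index `q`. -/
noncomputable def V (A : ℕ) (u : ℝ × ℝ → ℝ) (k : ℕ) (q : ℤ × ℤ) : ℝ × ℝ → ℝ := child u (A ^ k) q

lemma cen_mul {P A : ℕ} (hP : 1 ≤ P) (hA : 1 ≤ A) (q c : ℤ × ℤ) :
    cen (P * A) c = cen P q + (1 / (P : ℝ)) • cen A (c.1 - A * q.1, c.2 - A * q.2) := by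
  have hP0 : (P : ℝ) ≠ 0 := by exact_mod_cast (by omega : P ≠ 0)
  have hA0 : (A : ℝ) ≠ 0 := by exact_mod_cast (by omega : A ≠ 0)
  unfold cen
  ext
  · simp only [Prod.fst_add, Prod.smul_fst, smul_eq_mul]
    push_cast
    field_simp
    ring
  · simp only [Prod.snd_add, Prod.smul_snd, smul_eq_mul]
    push_cast
    field_simp
    ring

lemma child_child {P A : ℕ} (hP : 1 ≤ P) (hA : 1 ≤ A) (u : ℝ × ℝ → ℝ) (q c : ℤ × ℤ) :
    child u (P * A) c = child (child u P q) A (c.1 - A * q.1, c.2 - A * q.2) := by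
  unfold child
  rw [resc_resc, ← cen_mul hP hA]
  congr 1
  push_cast
  rw [one_div_mul_one_div]

/-- Translation of indices. -/
def sh (A j : ℕ) (c q : ℤ × ℤ) : ℤ × ℤ := (c.1 - (A : ℤ) ^ j * q.1, c.2 - (A : ℤ) ^ j * q.2)

lemma V_add {A : ℕ} (hA : 1 ≤ A) (u : ℝ × ℝ → ℝ) (k j : ℕ) (q c : ℤ × ℤ) :
    V A u (k + j) c = child (V A u k q) (A ^ j) (sh A j c q) := by
  unfold V
  rw [pow_add, child_child (Nat.one_le_pow _ _ hA) (Nat.one_le_pow _ _ hA) u q c]
  unfold sh
  push_cast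
  rfl

lemma anc_sh {A : ℕ} (hA : 2 ≤ A) (j : ℕ) (c q : ℤ × ℤ) :
    anc A j (sh A j c q) = anc A j c - q := by
  have hp := powpos hA j
  unfold anc sh
  ext
  · simp only [Prod.fst_sub]
    rw [Int.sub_mul_ediv_left _ _ hp.ne']
  · simp only [Prod.snd_sub]
    rw [Int.sub_mul_ediv_left _ _ hp.ne']

lemma near_sub_zero {H : ℤ} {a b : ℤ × ℤ} : near H (a - b) 0 ↔ near H a b := by
  unfold near
  simp

/-- Sums over descendants as sums over the descendants of `0`. -/
lemma sum_desc_sh {A : ℕ} (hA : 2 ≤ A) (j : ℕ) (q : ℤ × ℤ) (f : ℤ × ℤ → ℝ) :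
    ∑ c ∈ desc A j q, f (sh A j c q) = ∑ c ∈ desc A j 0, f c := by
  refine Finset.sum_nbij' (fun c => sh A j c q)
    (fun c => (c.1 + (A : ℤ) ^ j * q.1, c.2 + (A : ℤ) ^ j * q.2)) ?_ ?_ ?_ ?_ ?_
  · intro c hc
    rw [mem_desc hA] at hc ⊢
    rw [anc_sh hA, hc, sub_self]
  · intro c hc
    rw [mem_desc hA] at hc ⊢
    have h := anc_sh hA j (c.1 + (A : ℤ) ^ j * q.1, c.2 + (A : ℤ) ^ j * q.2) q
    have e : sh A j (c.1 + (A : ℤ) ^ j * q.1, c.2 + (A : ℤ) ^ j * q.2) q = c := by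
      unfold sh; ext <;> simp
    rw [e, hc] at h
    exact (sub_eq_zero.mp h.symm)
  · intro c _
    unfold sh; ext <;> simp
  · intro c _
    unfold sh; ext <;> simp
  · intro c _
    rfl

/-- The solution at unit scale. -/
lemma SolS.atLevel {A : ℕ} (hA : 2 ≤ A) {q u : ℝ × ℝ → ℝ} {Λ : ℝ} (h : SolS q u Λ 1 (closedBall 0 9))
    {k : ℕ} {c : ℤ × ℤ} (hc : near 1 (anc A k c) 0) {s : ℝ}
    (hs : 3 / 32 + 1 / (A : ℝ) ^ k * s ≤ 9) :
    ∃ q', SolS q' (V A u k c) (1 / (A : ℝ) ^ k * Λ) (1 / (A : ℝ) ^ k) (closedBall 0 s) := by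
  have hA0 : (0 : ℝ) < A := by exact_mod_cast (by omega : 0 < A)
  have h1 := h.resc (cen (A ^ k) c) (r := 1 / ((A ^ k : ℕ) : ℝ)) (T := closedBall 0 s)
    (by positivity) (fun p hp => by
      apply add_smul_mem (by positivity) _ hp
      rw [sub_zero]
      have := norm_cen_le (H := 1) hA hc
      push_cast at this ⊢
      linarith)
  rw [mul_one] at h1
  push_cast at h1
  have e : V A u k c = Yau.resc u (cen (A ^ k) c) (1 / (A : ℝ) ^ k) := by
    unfold V child; push_cast; rfl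
  rw [e]
  exact ⟨_, h1⟩

lemma PosM.atLevel {A : ℕ} (hA : 2 ≤ A) {u : ℝ × ℝ → ℝ} (h : PosM u (closedBall 0 2))
    {k : ℕ} {c : ℤ × ℤ} (hc : near 1 (anc A k c) 0) {s : ℝ}
    (hs : 3 / 32 + 1 / (A : ℝ) ^ k * s ≤ 2) : PosM (V A u k c) (closedBall 0 s) := by
  have hA0 : (0 : ℝ) < A := by exact_mod_cast (by omega : 0 < A)
  refine h.resc _ (by positivity) (fun p hp => ?_)
  apply add_smul_mem (by positivity) _ hp
  rw [sub_zero]
  have := norm_cen_le (H := 1) hA hc
  push_cast at this ⊢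
  linarith

/-- The main theorem on the tree, from the statements at unit scale. -/
theorem tree_main (h2 : U2) (h3 : U3) (h4 : U4) (W C1 : ℝ) (hW : 1 ≤ W) (hC1 : 0 ≤ C1)
    (n0 : ℕ) : ∃ (A ks : ℕ) (Cf : ℝ), 1000 ≤ A ∧ n0 ≤ ks ∧ 0 ≤ Cf ∧
      ∀ (N : ℝ) (J : ℕ) (q u : ℝ × ℝ → ℝ), (A : ℝ) ^ (J + ks) ≤ N →
        SolS q u (W * N) 1 (closedBall 0 9) → PosM u (closedBall 0 2) →
        (∀ z ∈ closedBall (0 : ℝ × ℝ) 9, |u z| ≤ 1) →
        (∀ z ∈ closedBall (0 : ℝ × ℝ) 1, Real.exp (-(C1 * N)) ≤ M u z (1 / 16)) →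
        ∑ T ∈ desc A J 0, (A : ℝ) ^ J / N * mo (V A u J T) ≤ Cf * (A : ℝ) ^ (2 * J) := by
  obtain ⟨C0, hC0, h1⟩ := u1
  obtain ⟨A0, h3⟩ := U3_best h3 (1 / 4) (by norm_num)
  set A : ℕ := max A0 1000 with hAdef
  have hA1000 : 1000 ≤ A := le_max_right _ _
  have hA2 : 2 ≤ A := by omega
  have hA1 : 1 ≤ A := by omega
  have hA0 : (0 : ℝ) < A := by exact_mod_cast (by omega : 0 < A)
  have hAr : (1000 : ℝ) ≤ A := by exact_mod_cast hA1000
  obtain ⟨K3, CA3, hK3, hCA3, h3⟩ := h3 A (le_max_left _ _)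
  obtain ⟨K2, CA2, hK2, hCA2, h2⟩ := U2_best h2 A (by omega)
  obtain ⟨B0, h4⟩ := U4_best h4 (CA2 * A) (1 / (64 * CA3)) (by positivity) (by positivity)
  set ks : ℕ := max n0 (max B0 1) with hks
  have hksn : n0 ≤ ks := le_max_left _ _
  have hksB : B0 ≤ ks := le_trans (le_max_left _ _) (le_max_right _ _)
  have hB : B0 ≤ A ^ ks := by
    have h5 : ks < 2 ^ ks := Nat.lt_two_pow_self
    have h6 : 2 ^ ks ≤ A ^ ks := Nat.pow_le_pow_left hA2 ks
    omega
  obtain ⟨c0, c1, K4, hc0, hc1, hK4, h4⟩ := h4 (A ^ ks) hB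
  -- the constants
  set K1 : ℝ := K3 * W + K2 * W + (384 * CA3) ^ 2 + 768 * CA3 * W with hK1
  have hK1pos : 0 < K1 := by positivity
  have hK1a : K3 * W ≤ K1 := by rw [hK1]; nlinarith only [mul_nonneg (by linarith : 0 ≤ K2) (by linarith : 0 ≤ W), mul_nonneg (by linarith : 0 ≤ CA3) (by linarith : 0 ≤ W)]
  have hK1b : K2 * W ≤ K1 := by rw [hK1]; nlinarith only [mul_nonneg (by linarith : 0 ≤ K3) (by linarith : 0 ≤ W), mul_nonneg (by linarith : 0 ≤ CA3) (by linarith : 0 ≤ W)]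
  have hK1c : (384 * CA3) ^ 2 ≤ K1 := by rw [hK1]; nlinarith only [mul_nonneg (by linarith : 0 ≤ K3) (by linarith : 0 ≤ W), mul_nonneg (by linarith : 0 ≤ K2) (by linarith : 0 ≤ W), mul_nonneg (by linarith : 0 ≤ CA3) (by linarith : 0 ≤ W)]
  have hK1d : 768 * CA3 * W ≤ K1 := by rw [hK1]; nlinarith only [mul_nonneg (by linarith : 0 ≤ K3) (by linarith : 0 ≤ W), mul_nonneg (by linarith : 0 ≤ K2) (by linarith : 0 ≤ W)]
  have hK1e : K3 ≤ K1 := le_trans (by nlinarith only [hW, hK3]) hK1a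
  have hK1f : K2 ≤ K1 := le_trans (by nlinarith only [hW, hK2]) hK1b
  set CA : ℝ := A * CA2 with hCA
  have hCA1 : 1 ≤ CA := by rw [hCA]; nlinarith only [hAr, hCA2]
  set Kr : ℝ := (2 * C0 + 1) * C1 + C0 + 1 with hKr
  set K : ℝ := 4 * (CA ^ (ks + 1) * K1) / c1 + CA * K1 + K4 * W + K2 * W + Kr + 1 with hK
  have hCAp : 0 < CA ^ (ks + 1) := by positivity
  have hKr0 : 0 ≤ Kr := by rw [hKr]; positivity
  have q1 : 0 ≤ 4 * (CA ^ (ks + 1) * K1) / c1 := by positivity
  have q2 : 0 ≤ CA * K1 := by positivity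
  have q3 : 0 ≤ K4 * W := by positivity
  have q4 : 0 ≤ K2 * W := by positivity
  have hKa : 4 * (CA ^ (ks + 1) * K1) < c1 * K := by
    have : 4 * (CA ^ (ks + 1) * K1) = c1 * (4 * (CA ^ (ks + 1) * K1) / c1) := by field_simp
    rw [this]
    apply mul_lt_mul_of_pos_left _ hc1
    rw [hK]; linarith only [hKr0, q2, q3, q4]
  have hKb : CA * K1 ≤ K := by rw [hK]; linarith only [hKr0, q1, q3, q4]
  have hKc : K4 * W ≤ K := by rw [hK]; linarith only [hKr0, q1, q2, q4]
  have hKd : K2 * W ≤ K := by rw [hK]; linarith only [hKr0, q1, q2, q3]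
  have hKe : Kr < K := by rw [hK]; linarith only [q1, q2, q3, q4]
  have hKpos : 0 < K := by linarith only [hKr0, q1, q2, q3, q4]
  refine ⟨A, ks, (K + (2 + 8 * CA3) * CA * K * (1 + (2 * (145 : ℕ) + 3) ^ 2) *
    (18 / c0 * (2 * (145 : ℕ) + 1) ^ 2)), hA1000, hksn, by positivity, ?_⟩
  intro N J q u hNA hsol hpos hu1 hlow
  have hu : Continuous u := hsol.smooth_u.continuous
  have hN1 : 1 ≤ N := le_trans (one_le_pow₀ (by linarith only [hAr])) hNA
  have hN0 : 0 < N := by linarith only [hN1]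
  have hpk : ∀ k : ℕ, (0 : ℝ) < (A : ℝ) ^ k := fun k => by positivity
  have hpk1 : ∀ k : ℕ, (1 : ℝ) ≤ (A : ℝ) ^ k := fun k => one_le_pow₀ (by linarith only [hAr])
  have hVc : ∀ k c, Continuous (V A u k c) := fun k c => continuous_child hu _ c
  have hNk : ∀ k ≤ J + ks, 1 ≤ N / (A : ℝ) ^ k := by
    intro k hk
    rw [le_div_iff₀ (hpk k), one_mul]
    exact le_trans (pow_le_pow_right₀ (by linarith only [hAr]) hk) hNA
  -- the data
  set p : ℕ → ℤ × ℤ → ℝ × ℝ := fun k c => ((A : ℝ) ^ k / N) • Bs (V A u k c) with hp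
  set y : ℕ → ℤ × ℤ → ℝ := fun k c => (A : ℝ) ^ k / N * Ds (V A u k c) with hy
  set e : ℕ → ℝ := fun k => 1 / Real.sqrt (K1 * (N / (A : ℝ) ^ k)) +
    CA3 * W ^ 2 / ((A : ℝ) ^ k * K1 ^ 2) with he
  have hR : ∀ k c, ‖p k c‖ + y k c = (A : ℝ) ^ k / N * mo (V A u k c) := by
    intro k c
    have := hpk k
    rw [hp, hy]
    simp only
    rw [norm_smul, Real.norm_eq_abs, abs_of_pos (by positivity)]
    unfold mo
    ring
  have hRmo : ∀ k c, mo (V A u k c) = (‖p k c‖ + y k c) * (N / (A : ℝ) ^ k) := by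
    intro k c
    rw [hR]
    have := (hpk k).ne'
    field_simp
  have hkinv : ∀ k : ℕ, 1 / (A : ℝ) ^ k ≤ 1 := by
    intro k
    rw [div_le_one (hpk k)]; exact hpk1 k
  have hkinv0 : ∀ k : ℕ, 0 ≤ 1 / (A : ℝ) ^ k := fun k => (by have := hpk k; positivity)
  -- one step
  have hone : OneStep A (J + ks) K1 CA3 (1 / 4) e p y := by
    have key : ∀ k < J + ks, ∀ c, near 1 (anc A k c) 0 → K1 ≤ ‖p k c‖ + y k c →
        ∃ S : ℝ, (A : ℝ) ^ k / N * S ≤ y k c + e k * (‖p k c‖ + y k c) ∧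
        ∑ d ∈ desc A 1 0, Ds (child (V A u k c) A d) ≤ (A : ℝ) ^ 2 * (1 / 4 / A * S) ∧
        ∑ d ∈ desc A 1 0, ‖(A : ℝ) • Bs (child (V A u k c) A d) - Bs (V A u k c)‖ ≤
          (A : ℝ) ^ 2 * (CA3 * S) := by
      intro k hk c hc hKR
      have hNk1 := hNk k hk.le
      have hmo : K1 * (N / (A : ℝ) ^ k) ≤ mo (V A u k c) := by
        rw [hRmo]; gcongr
      have hmo1 : K1 ≤ mo (V A u k c) := le_trans (by nlinarith only [hK1pos, hNk1]) hmo
      obtain ⟨q', hs⟩ := hsol.atLevel hA2 hc (s := 8) (by have := hkinv k; linarith only [this])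
      have hP := hpos.atLevel hA2 hc (s := 1) (by have := hkinv k; linarith only [this])
      have hΛ : K3 * (1 / (A : ℝ) ^ k * (W * N)) ≤ mo (V A u k c) := by
        refine le_trans ?_ hmo
        calc K3 * (1 / (A : ℝ) ^ k * (W * N)) = (K3 * W) * (N / (A : ℝ) ^ k) := by ring
          _ ≤ K1 * (N / (A : ℝ) ^ k) := by gcongr
      obtain ⟨g1, g2⟩ := h3 _ _ q' (V A u k c) hs (by positivity) (hkinv0 k) (hkinv k) hP
        (hK1e.trans hmo1) hΛ
      refine ⟨_, ?_, g1, g2⟩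
      have hmopos : 0 < mo (V A u k c) := lt_of_lt_of_le hK1pos hmo1
      set m := mo (V A u k c) with hm
      have t1 : Real.sqrt m ≤ 1 / Real.sqrt (K1 * (N / (A : ℝ) ^ k)) * m := by
        have hx : 0 < K1 * (N / (A : ℝ) ^ k) := by positivity
        have hsx : 0 < Real.sqrt (K1 * (N / (A : ℝ) ^ k)) := Real.sqrt_pos.mpr hx
        rw [one_div, inv_mul_eq_div, le_div_iff₀ hsx]
        calc Real.sqrt m * Real.sqrt (K1 * (N / (A : ℝ) ^ k)) ≤ Real.sqrt m * Real.sqrt m := by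
              gcongr
          _ = m := Real.mul_self_sqrt hmopos.le
      have t2 : CA3 * (1 / (A : ℝ) ^ k * (1 / (A : ℝ) ^ k * (W * N)) ^ 2) / m ≤
          CA3 * W ^ 2 / ((A : ℝ) ^ k * K1 ^ 2) * m := by
        have hpk' := hpk k
        have t3 : (K1 * (N / (A : ℝ) ^ k)) ^ 2 ≤ m ^ 2 := by gcongr
        have t4 : CA3 * (1 / (A : ℝ) ^ k * (1 / (A : ℝ) ^ k * (W * N)) ^ 2) =
            CA3 * W ^ 2 / ((A : ℝ) ^ k * K1 ^ 2) * (K1 * (N / (A : ℝ) ^ k)) ^ 2 := by
          field_simp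
        rw [t4, div_le_iff₀ hmopos]
        calc CA3 * W ^ 2 / ((A : ℝ) ^ k * K1 ^ 2) * (K1 * (N / (A : ℝ) ^ k)) ^ 2
            ≤ CA3 * W ^ 2 / ((A : ℝ) ^ k * K1 ^ 2) * m ^ 2 := by gcongr
          _ = _ := by ring
      have hpk' := hpk k
      have hek : e k * m = 1 / Real.sqrt (K1 * (N / (A : ℝ) ^ k)) * m +
          CA3 * W ^ 2 / ((A : ℝ) ^ k * K1 ^ 2) * m := by
        rw [he]; simp only; ring
      calc (A : ℝ) ^ k / N * (Ds (V A u k c) + Real.sqrt m +
          CA3 * (1 / (A : ℝ) ^ k * (1 / (A : ℝ) ^ k * (W * N)) ^ 2) / m)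
          ≤ (A : ℝ) ^ k / N * (Ds (V A u k c) + e k * m) := by
            refine mul_le_mul_of_nonneg_left ?_ (by positivity)
            rw [hek]; linarith only [t1, t2]
        _ = y k c + e k * (‖p k c‖ + y k c) := by
            rw [hR, hy]; simp only; ring
    refine ⟨?_, ?_, ?_, ?_⟩
    · intro k c
      have := hpk k
      have := Ds_nonneg (hVc k c)
      rw [hy]; positivity
    · intro k
      have := hpk k
      rw [he]; positivity
    · intro k hk c hc hKR
      obtain ⟨S, s1, s2, -⟩ := key k hk c hc hKR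
      have hpk' := hpk k
      have e1 : ∑ d ∈ desc A 1 c, y (k + 1) d = (A : ℝ) ^ (k + 1) / N *
          ∑ d ∈ desc A 1 0, Ds (child (V A u k c) A d) := by
        rw [← sum_desc_sh hA2 1 c, Finset.mul_sum]
        refine Finset.sum_congr rfl fun d _ => ?_
        rw [hy]
        simp only
        rw [V_add hA1 u k 1 c d, pow_one]
      rw [e1]
      calc (A : ℝ) ^ (k + 1) / N * ∑ d ∈ desc A 1 0, Ds (child (V A u k c) A d)
          ≤ (A : ℝ) ^ (k + 1) / N * ((A : ℝ) ^ 2 * (1 / 4 / A * S)) := by gcongr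
        _ = (A : ℝ) ^ 2 * (1 / 4 * ((A : ℝ) ^ k / N * S)) := by
            rw [pow_succ]; field_simp
        _ ≤ _ := by gcongr
    · intro k hk c hc hKR
      obtain ⟨S, s1, -, s2⟩ := key k hk c hc hKR
      have hpk' := hpk k
      have e1 : ∑ d ∈ desc A 1 c, ‖p (k + 1) d - p k c‖ = (A : ℝ) ^ k / N *
          ∑ d ∈ desc A 1 0, ‖(A : ℝ) • Bs (child (V A u k c) A d) - Bs (V A u k c)‖ := by
        rw [← sum_desc_sh hA2 1 c, Finset.mul_sum]
        refine Finset.sum_congr rfl fun d _ => ?_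
        rw [hp]
        simp only
        rw [V_add hA1 u k 1 c d, pow_one]
        have : ((A : ℝ) ^ (k + 1) / N) • Bs (child (V A u k c) A (sh A 1 d c)) -
            ((A : ℝ) ^ k / N) • Bs (V A u k c) = ((A : ℝ) ^ k / N) •
            ((A : ℝ) • Bs (child (V A u k c) A (sh A 1 d c)) - Bs (V A u k c)) := by
          rw [smul_sub, smul_smul]
          congr 2
          rw [pow_succ]; ring
        rw [this, norm_smul, Real.norm_eq_abs, abs_of_pos (by positivity)]
      rw [e1]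
      calc (A : ℝ) ^ k / N *
          ∑ d ∈ desc A 1 0, ‖(A : ℝ) • Bs (child (V A u k c) A d) - Bs (V A u k c)‖
          ≤ (A : ℝ) ^ k / N * ((A : ℝ) ^ 2 * (CA3 * S)) := by gcongr
        _ = (A : ℝ) ^ 2 * (CA3 * ((A : ℝ) ^ k / N * S)) := by ring
        _ ≤ _ := by gcongr
  have hesum : ∑ k ∈ Finset.range (J + ks), e k ≤ 1 / (192 * CA3) := by
    set L := J + ks with hL
    have hsK : 384 * CA3 ≤ Real.sqrt K1 := Real.le_sqrt_of_sq_le hK1c
    have hsK0 : 0 < Real.sqrt K1 := by linarith only [hCA3, hsK]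
    have e1 : ∀ k ∈ Finset.range L, e k ≤
        1 / (384 * CA3) * (1 / 2 : ℝ) ^ (L - 1 - k + 1) + 1 / (768 * CA3) * (1 / 2 : ℝ) ^ k := by
      intro k hk
      rw [Finset.mem_range] at hk
      have hpk' := hpk k
      have a1 : (4 : ℝ) ^ (L - k) ≤ N / (A : ℝ) ^ k := by
        rw [le_div_iff₀ (hpk k)]
        calc (4 : ℝ) ^ (L - k) * (A : ℝ) ^ k ≤ (A : ℝ) ^ (L - k) * (A : ℝ) ^ k := by
              gcongr; linarith only [hAr]
          _ = (A : ℝ) ^ L := by rw [← pow_add]; congr 1; omega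
          _ ≤ N := hNA
      have a2 : Real.sqrt K1 * 2 ^ (L - k) ≤ Real.sqrt (K1 * (N / (A : ℝ) ^ k)) := by
        rw [Real.sqrt_mul hK1pos.le]
        gcongr
        apply Real.le_sqrt_of_sq_le
        calc ((2 : ℝ) ^ (L - k)) ^ 2 = 4 ^ (L - k) := by rw [← pow_mul, mul_comm, pow_mul]; norm_num
          _ ≤ _ := a1
      have a3 : 1 / Real.sqrt (K1 * (N / (A : ℝ) ^ k)) ≤
          1 / (384 * CA3) * (1 / 2 : ℝ) ^ (L - 1 - k + 1) := by
        rw [show L - 1 - k + 1 = L - k by omega]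
        calc 1 / Real.sqrt (K1 * (N / (A : ℝ) ^ k)) ≤ 1 / (384 * CA3 * 2 ^ (L - k)) := by
              apply one_div_le_one_div_of_le (by positivity)
              exact le_trans (by gcongr) a2
          _ = _ := by rw [one_div_pow]; field_simp
      have a4 : CA3 * W ^ 2 / ((A : ℝ) ^ k * K1 ^ 2) ≤ 1 / (768 * CA3) * (1 / 2 : ℝ) ^ k := by
        have b1 : (768 * CA3 * W) ^ 2 ≤ K1 ^ 2 := by gcongr
        have b2 : (2 : ℝ) ^ k ≤ (A : ℝ) ^ k := by gcongr; linarith only [hAr]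
        calc CA3 * W ^ 2 / ((A : ℝ) ^ k * K1 ^ 2)
            ≤ CA3 * W ^ 2 / (2 ^ k * (768 * CA3 * W) ^ 2) := by gcongr
          _ = 1 / (768 * CA3) * (1 / 768) * (1 / 2 : ℝ) ^ k := by
              rw [one_div_pow]; field_simp
          _ ≤ 1 / (768 * CA3) * 1 * (1 / 2 : ℝ) ^ k := by gcongr; norm_num
          _ = _ := by ring
      calc e k = 1 / Real.sqrt (K1 * (N / (A : ℝ) ^ k)) +
            CA3 * W ^ 2 / ((A : ℝ) ^ k * K1 ^ 2) := by rw [he]
        _ ≤ _ := add_le_add a3 a4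
    refine (Finset.sum_le_sum e1).trans ?_
    rw [Finset.sum_add_distrib, ← Finset.mul_sum, ← Finset.mul_sum,
      Finset.sum_range_reflect (fun j => (1 / 2 : ℝ) ^ (j + 1)) L]
    have s1 := sum_geometric_two_le L
    have s2 : ∑ j ∈ Finset.range L, (1 / 2 : ℝ) ^ (j + 1) =
        1 / 2 * ∑ j ∈ Finset.range L, (1 / 2 : ℝ) ^ j := by
      rw [Finset.mul_sum]
      refine Finset.sum_congr rfl fun j _ => ?_
      rw [pow_succ]; ring
    rw [s2]
    calc 1 / (384 * CA3) * (1 / 2 * ∑ j ∈ Finset.range L, (1 / 2 : ℝ) ^ j) +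
          1 / (768 * CA3) * ∑ j ∈ Finset.range L, (1 / 2 : ℝ) ^ j
        ≤ 1 / (384 * CA3) * (1 / 2 * 2) + 1 / (768 * CA3) * 2 := by gcongr
      _ = 1 / (192 * CA3) := by field_simp; norm_num
  have F1 : ∀ k < J + ks, ∀ c d, near 1 (anc A k c) 0 → near 1 (anc A (k + 1) d) 0 →
      near 1 (anc A 1 d) c →
      ‖p (k + 1) d‖ + y (k + 1) d ≤ CA * max (‖p k c‖ + y k c) K1 := by
    intro k hk c d hc hd hdc
    have hNk1 := hNk k hk.le
    have hpk' := hpk k
    obtain ⟨q', hs⟩ := hsol.atLevel hA2 hc (s := 8) (by have := hkinv k; linarith only [this])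
    have hP := hpos.atLevel hA2 hc (s := 1) (by have := hkinv k; linarith only [this])
    set R := max (‖p k c‖ + y k c) K1 with hRdef
    have hRK : K1 ≤ R := le_max_right _ _
    have hR0 : 0 < R := lt_of_lt_of_le hK1pos hRK
    obtain ⟨-, g⟩ := h2 (R * (N / (A : ℝ) ^ k)) _ _ q' (V A u k c) hs (by positivity) (hkinv0 k)
      (hkinv k) hP
      (by rw [hRmo]; gcongr; exact le_max_left _ _)
      (by nlinarith only [hW, hK2, hK1pos, hK1b, hNk1, hRK])
      (by
        calc K2 * (1 / (A : ℝ) ^ k * (W * N)) = (K2 * W) * (N / (A : ℝ) ^ k) := by ring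
          _ ≤ R * (N / (A : ℝ) ^ k) := by gcongr; linarith only [hK1b, hRK])
    have g1 := g (sh A 1 d c) (by
      rw [anc_sh hA2]
      exact near_sub_zero.mpr hdc)
    rw [hR, V_add hA1 u k 1 c d, pow_one]
    calc (A : ℝ) ^ (k + 1) / N * mo (child (V A u k c) A (sh A 1 d c))
        ≤ (A : ℝ) ^ (k + 1) / N * (CA2 * (R * (N / (A : ℝ) ^ k))) := by gcongr
      _ = CA * R := by rw [hCA, pow_succ]; field_simp
  have F3 : ∀ k, 1 ≤ k → k ≤ J → ∀ c, anc A k c = 0 → K ≤ ‖p k c‖ + y k c →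
      ‖p (k - 1) (anc A 1 c)‖ + y (k - 1) (anc A 1 c) < K →
      ∃ G : Finset (ℤ × ℤ), c0 * (A : ℝ) ^ (2 * ks) ≤ G.card ∧
        ∀ d ∈ G, near (145 : ℕ) (anc A ks d) c ∧ c1 * K ≤ ‖p (k + ks) d‖ ∧
          y (k + ks) d ≤ 1 / (64 * CA3) * ‖p (k + ks) d‖ := by
    intro k hk1 hkJ c hc hKc' hpar
    have hpk' := hpk k
    have hNk1 := hNk k (by omega)
    have hNkp := hNk (k - 1) (by omega)
    have hkk : k - 1 + 1 = k := by omega
    have hnear : near 1 (anc A k c) 0 := by rw [hc]; exact near_refl (by norm_num) _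
    have hnearp : near 1 (anc A (k - 1) (anc A 1 c)) 0 := by
      rw [anc_add, hkk, hc]; exact near_refl (by norm_num) _
    have hinvk : 1 / (A : ℝ) ^ k ≤ 1 / 1000 := by
      apply one_div_le_one_div_of_le (by norm_num)
      calc (1000 : ℝ) ≤ A := hAr
        _ = (A : ℝ) ^ 1 := (pow_one _).symm
        _ ≤ (A : ℝ) ^ k := pow_le_pow_right₀ (by linarith only [hAr]) hk1
    have hpkm := hpk (k - 1)
    obtain ⟨q', hs⟩ := hsol.atLevel hA2 hnear (s := 64) (by linarith only [hinvk])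
    have hP := hpos.atLevel hA2 hnear (s := 64) (by linarith only [hinvk])
    obtain ⟨q'', hs'⟩ := hsol.atLevel hA2 hnearp (s := 8) (by have := hkinv (k - 1); linarith only [this])
    have hP' := hpos.atLevel hA2 hnearp (s := 1) (by have := hkinv (k - 1); linarith only [this])
    set m := K * (N / (A : ℝ) ^ k) with hm
    have hAm : K * (N / (A : ℝ) ^ (k - 1)) = A * m := by
      rw [hm]
      have : (A : ℝ) ^ k = (A : ℝ) ^ (k - 1) * A := by rw [← pow_succ, hkk]
      rw [this]; field_simp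
    obtain ⟨g, -⟩ := h2 (A * m) _ _ q'' (V A u (k - 1) (anc A 1 c)) hs' (by positivity)
      (hkinv0 _) (hkinv _) hP'
      (by rw [hRmo, ← hAm]; gcongr)
      (by rw [← hAm]; nlinarith only [hW, hC0, hAr, hK3, hCA3, hK2, hCA2, hK4, hK1e, hCA1, hKr0, q1, q2, q3, q4, hNkp])
      (by
        rw [← hAm]
        calc K2 * (1 / (A : ℝ) ^ (k - 1) * (W * N)) = (K2 * W) * (N / (A : ℝ) ^ (k - 1)) := by ring
          _ ≤ K * (N / (A : ℝ) ^ (k - 1)) := by gcongr)
    have hVk : V A u k c = child (V A u (k - 1) (anc A 1 c)) A (sh A 1 c (anc A 1 c)) := by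
      have := V_add hA1 u (k - 1) 1 (anc A 1 c) c
      rw [hkk, pow_one] at this
      exact this
    have hcn : ‖cen A (sh A 1 c (anc A 1 c))‖ ≤ 1 / 32 := by
      have h5 := norm_cen_le (k := 1) (H := 0) hA2 (c := sh A 1 c (anc A 1 c)) (by
        rw [anc_sh hA2, sub_self]; exact near_refl (by norm_num) _)
      rw [pow_one] at h5
      norm_num at h5
      linarith only [h5]
    have hAinv : 1 / (A : ℝ) ≤ 1 / 1000 := by gcongr
    have hAinv0 : 0 < 1 / (A : ℝ) := by positivity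
    have hgrow : ∀ z ∈ closedBall (0 : ℝ × ℝ) 64, ∀ z' ∈ closedBall (0 : ℝ × ℝ) 64,
        |V A u k c z'| ≤ M (V A u k c) z (1 / 16) * Real.exp (CA2 * A * m) := by
      intro z hz z' hz'
      rw [hVk]
      unfold child
      rw [M_resc _ hAinv0]
      have g1 := g (cen A (sh A 1 c (anc A 1 c)) + (1 / (A : ℝ)) • z)
        (by apply add_smul_mem hAinv0.le _ hz; rw [sub_zero]; linarith only [hcn, hAinv, hAinv0])
        (cen A (sh A 1 c (anc A 1 c)) + (1 / (A : ℝ)) • z')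
        (by apply add_smul_mem hAinv0.le _ hz'; rw [sub_zero]; linarith only [hcn, hAinv])
      rw [show 1 / (A : ℝ) * (1 / 16) = 1 / (16 * A) by ring, mul_assoc]
      exact g1
    rcases h4 m _ _ q' (V A u k c) hs (by positivity) (hkinv0 k) (hkinv k) hP
      (by rw [hm]; nlinarith only [hW, hC0, hAr, hK3, hK2, hCA2, hK4, hK1pos, hKr0, q1, q2, q3, q4, hNk1, hAinv0])
      (by
        calc K4 * (1 / (A : ℝ) ^ k * (W * N)) = (K4 * W) * (N / (A : ℝ) ^ k) := by ring
          _ ≤ m := by rw [hm]; gcongr)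
      hgrow with hlt | ⟨G, hG1, hG2⟩
    · exfalso
      rw [hRmo] at hlt
      have : m ≤ (‖p k c‖ + y k c) * (N / (A : ℝ) ^ k) := by rw [hm]; gcongr
      linarith only [hlt, this]
    · have hinj : Function.Injective (fun d : ℤ × ℤ =>
          ((d.1 + (A : ℤ) ^ ks * c.1, d.2 + (A : ℤ) ^ ks * c.2) : ℤ × ℤ)) := by
        intro d d' hdd
        simp only [Prod.mk.injEq, add_left_inj] at hdd
        exact Prod.ext hdd.1 hdd.2
      refine ⟨G.image (fun d => (d.1 + (A : ℤ) ^ ks * c.1, d.2 + (A : ℤ) ^ ks * c.2)), ?_, ?_⟩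
      · rw [Finset.card_image_of_injective _ hinj]
        refine le_trans (le_of_eq ?_) hG1
        push_cast
        ring
      · intro d' hd'
        rw [Finset.mem_image] at hd'
        obtain ⟨d, hd, rfl⟩ := hd'
        obtain ⟨b1, b2, b3⟩ := hG2 d hd
        set d' : ℤ × ℤ := (d.1 + (A : ℤ) ^ ks * c.1, d.2 + (A : ℤ) ^ ks * c.2) with hd'
        have hsh : sh A ks d' c = d := by
          rw [hd']; unfold sh; ext <;> simp
        have hVd : V A u (k + ks) d' = child (V A u k c) (A ^ ks) d := by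
          rw [V_add hA1 u k ks c d', hsh]
        have hpks := hpk ks
        have hnorm : ‖p (k + ks) d'‖ = (A : ℝ) ^ k / N *
            (((A ^ ks : ℕ) : ℝ) * ‖Bs (child (V A u k c) (A ^ ks) d)‖) := by
          rw [hp]
          simp only
          rw [hVd, norm_smul, Real.norm_eq_abs, abs_of_pos (by have := hpk (k + ks); positivity),
            pow_add]
          push_cast
          ring
        refine ⟨?_, ?_, ?_⟩
        · have h5 : near (145 : ℕ) (anc A ks (sh A ks d' c)) 0 := by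
            rw [hsh]
            have hpz := powpos hA2 ks
            rw [mem_closedBall_zero_iff, Prod.norm_def, max_le_iff, Real.norm_eq_abs,
              Real.norm_eq_abs] at b1
            have key : ∀ x : ℤ, |(((x : ℝ) + 1 / 2) / ((A ^ ks : ℕ) : ℝ) - 1 / 2) / 16| ≤ 9 →
                |x / (A : ℤ) ^ ks| ≤ 145 := by
              intro x hx
              have e := (Int.ediv_eq_iff_of_pos hpz (x := x) (y := x / (A : ℤ) ^ ks)).mp rfl
              set i := x / (A : ℤ) ^ ks with hi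
              have e1 : (i : ℝ) * (A : ℝ) ^ ks ≤ x := by exact_mod_cast e.1
              have e2 : (x : ℝ) + 1 ≤ (i + 1) * (A : ℝ) ^ ks := by
                have := e.2
                have h6 : x + 1 ≤ (i + 1) * (A : ℤ) ^ ks := by linarith only [e]
                exact_mod_cast h6
              push_cast at hx
              have e3 : (i : ℝ) ≤ ((x : ℝ) + 1 / 2) / (A : ℝ) ^ ks := by
                rw [le_div_iff₀ hpks]; linarith only [e1]
              have e4 : ((x : ℝ) + 1 / 2) / (A : ℝ) ^ ks ≤ i + 1 := by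
                rw [div_le_iff₀ hpks]; linarith only [e2]
              rw [abs_le] at hx
              have e5 : (i : ℝ) < 146 := by linarith only [e3, hx.2]
              have e6 : (-146 : ℝ) < i := by linarith only [e4, hx.1]
              have e7 : i < 146 := by exact_mod_cast e5
              have e8 : -146 < i := by exact_mod_cast e6
              rw [abs_le]
              constructor <;> omega
            constructor
            · simp only [anc, Prod.fst_zero, sub_zero]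
              exact key d.1 b1.1
            · simp only [anc, Prod.snd_zero, sub_zero]
              exact key d.2 b1.2
          rw [anc_sh hA2] at h5
          exact near_sub_zero.mp h5
        · rw [hnorm]
          calc c1 * K = (A : ℝ) ^ k / N * (c1 * m) := by rw [hm]; field_simp
            _ ≤ _ := by gcongr
        · rw [hnorm, hy]
          simp only
          rw [hVd, pow_add]
          calc (A : ℝ) ^ k * (A : ℝ) ^ ks / N * Ds (child (V A u k c) (A ^ ks) d)
              ≤ (A : ℝ) ^ k * (A : ℝ) ^ ks / N *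
                (1 / (64 * CA3) * ‖Bs (child (V A u k c) (A ^ ks) d)‖) := by gcongr
            _ = _ := by push_cast; ring
  have root : ∀ c, near 1 c 0 → ‖p 0 c‖ + y 0 c < K := by
    intro c hc
    have hc' : near 1 (anc A 0 c) 0 := by rw [anc_zero]; exact hc
    have hcn := norm_cen_le (k := 0) (H := 1) hA2 hc'
    rw [pow_zero] at hcn
    norm_num at hcn
    have hP := hpos.atLevel hA2 hc' (s := 1) (by norm_num)
    have hVe : V A u 0 c = resc u (cen 1 c) 1 := by
      unfold V child; simp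
    have hmaj : IsMaj (V A u 0 c) 0 0 := by
      intro z hz
      rw [hVe]
      unfold resc aff
      simp only [Prod.fst_zero, Prod.snd_zero, zero_mul, add_zero, Real.exp_zero]
      apply hu1
      apply add_smul_mem zero_le_one _ hz
      rw [sub_zero]; linarith only [hcn]
    have hdef : Defi (V A u 0 c) 0 0 ≤ C1 * N := by
      apply Defi_le (hVc 0 c) (hP.mono (closedBall_subset_closedBall (by norm_num)))
      intro z hz
      have e1 : tw (V A u 0 c) 0 0 = V A u 0 c := by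
        funext x
        unfold tw aff
        simp
      rw [e1, hVe, M_resc _ one_pos, one_mul]
      have h5 := hlow (cen 1 c + (1 : ℝ) • z) (by
        apply add_smul_mem zero_le_one _ hz
        rw [sub_zero]; linarith only [hcn])
      have h6 := Real.log_le_log (Real.exp_pos _) h5
      rw [Real.log_exp] at h6
      linarith only [h6]
    have h5 := (best_spec (hVc 0 c)).2 _ _ hmaj
    have h6 := Bs_sub_le hC0 h1 (hVc 0 c)
      (hP.mono (closedBall_subset_closedBall (by norm_num))) hmaj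
    rw [sub_zero] at h6
    have h7 : C0 * (2 * Defi (V A u 0 c) 0 0 + 1) ≤ C0 * (2 * (C1 * N) + 1) := by gcongr
    have h8 : mo (V A u 0 c) ≤ Kr * N := by
      unfold mo
      rw [hKr]
      nlinarith only [hC0, hN1, hdef, h5, h6]
    rw [hR, pow_zero]
    calc 1 / N * mo (V A u 0 c) ≤ 1 / N * (Kr * N) := by gcongr
      _ = Kr := by field_simp
      _ < K := hKe
  have hfin := endgame (H := 145) hA2 (by omega) hone hCA3 (by norm_num) (by norm_num) hesum
    hK1pos hCA1 hc0 F1 F3 hKa hKb root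
  calc ∑ T ∈ desc A J 0, (A : ℝ) ^ J / N * mo (V A u J T)
      = ∑ T ∈ desc A J 0, (‖p J T‖ + y J T) := Finset.sum_congr rfl fun T _ => (hR J T).symm
    _ ≤ _ := hfin

end Pool.Agent.H88.Yau
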