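import Pool.Agent.H88.Yau.Basic

set_option autoImplicit false

/-!
# Two majorants have close slopes
-/

namespace Pool.Agent.H88.Yau

open MeasureTheory Set Metric Pool.Agent.H24.Near

lemma integral_square (f : ℝ × ℝ → ℝ) (hf : Continuous f) :
    ∫ z in closedBall (0 : ℝ × ℝ) (1 / 2), f z =
      ∫ x in (-(1 / 2 : ℝ))..(1 / 2), ∫ y in (-(1 / 2 : ℝ))..(1 / 2), f (x, y) := by
  have e : closedBall (0 : ℝ × ℝ) (1 / 2) = Icc (-(1 / 2 : ℝ)) (1 / 2) ×ˢ Icc (-(1 / 2 : ℝ)) (1 / 2) := by
    rw [show (0 : ℝ × ℝ) = ((0 : ℝ), (0 : ℝ)) from rfl, ← closedBall_prod_same,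
      Real.closedBall_eq_Icc, zero_sub, zero_add]
  rw [e, Measure.volume_eq_prod, setIntegral_prod]
  · rw [integral_Icc_eq_integral_Ioc, intervalIntegral.integral_of_le (by norm_num)]
    refine setIntegral_congr_fun measurableSet_Ioc fun x _ => ?_
    rw [integral_Icc_eq_integral_Ioc, intervalIntegral.integral_of_le (by norm_num)]
  · exact hf.continuousOn.integrableOn_compact (isCompact_Icc.prod isCompact_Icc)

lemma integral_aff_fst (a : ℝ) (b : ℝ × ℝ) :
    ∫ z in closedBall (0 : ℝ × ℝ) (1 / 2), aff a b z * (2 * z.1) = b.1 / 6 := by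
  rw [integral_square _ (by unfold aff; fun_prop)]
  have h1 : ∀ x : ℝ, ∫ y in (-(1 / 2 : ℝ))..(1 / 2), aff a b (x, y) * (2 * x) =
      2 * a * x + 2 * b.1 * x ^ 2 := by
    intro x
    have : ∀ y : ℝ, aff a b (x, y) * (2 * x) = (2 * a * x + 2 * b.1 * x ^ 2) + (2 * b.2 * x) * y := by
      intro y; unfold aff; ring
    simp_rw [this]
    rw [intervalIntegral.integral_add (by simp) (by
      apply Continuous.intervalIntegrable; fun_prop), intervalIntegral.integral_const,
      intervalIntegral.integral_const_mul, integral_id]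
    norm_num
  simp_rw [h1]
  rw [intervalIntegral.integral_add (by apply Continuous.intervalIntegrable; fun_prop)
    (by apply Continuous.intervalIntegrable; fun_prop), intervalIntegral.integral_const_mul,
    intervalIntegral.integral_const_mul, integral_id, integral_pow]
  norm_num
  ring

lemma integral_aff_snd (a : ℝ) (b : ℝ × ℝ) :
    ∫ z in closedBall (0 : ℝ × ℝ) (1 / 2), aff a b z * (2 * z.2) = b.2 / 6 := by
  rw [integral_square _ (by unfold aff; fun_prop)]
  have h1 : ∀ x : ℝ, ∫ y in (-(1 / 2 : ℝ))..(1 / 2), aff a b (x, y) * (2 * y) =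
      b.2 / 6 := by
    intro x
    have : ∀ y : ℝ, aff a b (x, y) * (2 * y) = (2 * a + 2 * b.1 * x) * y + 2 * b.2 * y ^ 2 := by
      intro y; unfold aff; ring
    simp_rw [this]
    rw [intervalIntegral.integral_add (by apply Continuous.intervalIntegrable; fun_prop)
      (by apply Continuous.intervalIntegrable; fun_prop), intervalIntegral.integral_const_mul,
      intervalIntegral.integral_const_mul, integral_id, integral_pow]
    norm_num
    ring
  simp_rw [h1]
  rw [intervalIntegral.integral_const]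
  norm_num

/-- The pointwise inequality. -/
lemma aff_lower {u : ℝ × ℝ → ℝ} (hu : Continuous u) (hp : PosM u (closedBall 0 (1 / 2)))
    {a a' : ℝ} {b b' : ℝ × ℝ} (h' : IsMaj u a' b') {z : ℝ × ℝ}
    (hz : z ∈ closedBall (0 : ℝ × ℝ) (1 / 2)) :
    -(-Real.log (M (tw u a b) z (1 / 16))) - (|b'.1 - b.1| + |b'.2 - b.2|) / 16 ≤
      aff (a' - a) (b' - b) z := by
  obtain ⟨w, hw, hwM⟩ := exists_M (continuous_tw hu a b) (z := z) (r := 1 / 16) (by norm_num)
  have hpos := M_pos_tw hu a b z (by norm_num) (hp z hz (1 / 16) (by norm_num))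
  have hw8 : w ∈ closedBall (0 : ℝ × ℝ) 8 := by
    rw [mem_closedBall] at *
    calc dist w 0 ≤ dist w z + dist z 0 := dist_triangle _ _ _
      _ ≤ 1 / 16 + 1 / 2 := add_le_add hw hz
      _ ≤ 8 := by norm_num
  have h1 := h' w hw8
  have h2 : |u w| = M (tw u a b) z (1 / 16) * Real.exp (aff a b w) := by
    rw [← hwM]
    unfold tw
    rw [abs_mul, Real.abs_exp, mul_assoc, ← Real.exp_add]
    simp
  have h3 : Real.log (M (tw u a b) z (1 / 16)) + aff a b w ≤ aff a' b' w := by
    have h4 : Real.log (|u w|) ≤ aff a' b' w := by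
      rw [Real.log_le_iff_le_exp]
      · exact h1
      · rw [h2]; positivity
    rw [h2, Real.log_mul hpos.ne' (Real.exp_pos _).ne', Real.log_exp] at h4
    exact h4
  have hwz := hw
  rw [mem_closedBall, dist_eq_norm, Prod.norm_def, max_le_iff, Real.norm_eq_abs,
    Real.norm_eq_abs] at hwz
  obtain ⟨hw1, hw2⟩ := hwz
  simp only [Prod.fst_sub, Prod.snd_sub] at hw1 hw2
  have h5 : |(b'.1 - b.1) * (w.1 - z.1)| ≤ |b'.1 - b.1| * (1 / 16) := by
    rw [abs_mul]; gcongr
  have h6 : |(b'.2 - b.2) * (w.2 - z.2)| ≤ |b'.2 - b.2| * (1 / 16) := by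
    rw [abs_mul]; gcongr
  have h7 := (abs_le.mp h5).2
  have h8 := (abs_le.mp h6).2
  unfold aff at *
  simp only [Prod.fst_sub, Prod.snd_sub]
  nlinarith

theorem u1 : U1 := by
  refine ⟨48, by norm_num, ?_⟩
  intro u a a' b b' hu hp h h'
  set S : ℝ := |b'.1 - b.1| + |b'.2 - b.2| with hS
  set B := closedBall (0 : ℝ × ℝ) (1 / 2) with hB
  have hpt : ∀ z ∈ B, |aff (a' - a) (b' - b) z| ≤
      (-Real.log (M (tw u a b) z (1 / 16))) + (-Real.log (M (tw u a' b') z (1 / 16))) + S / 16 := by
    intro z hz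
    have h1 := aff_lower hu hp (a := a) (b := b) h' hz
    have h2 := aff_lower hu hp (a := a') (b := b') h hz
    have h3 : aff (a - a') (b - b') z = - aff (a' - a) (b' - b) z := by
      unfold aff; simp only [Prod.fst_sub, Prod.snd_sub]; ring
    rw [h3, abs_sub_comm b.1, abs_sub_comm b.2] at h2
    have h4 := deficit_nonneg h hz
    have h5 := deficit_nonneg h' hz
    rw [abs_le]
    constructor <;> linarith
  have hi1 := integrableOn_deficit hu a b hp
  have hi2 := integrableOn_deficit hu a' b' hp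
  have hic : IntegrableOn (fun _ : ℝ × ℝ => S / 16) B :=
    integrableOn_const (measure_closedBall_lt_top).ne
  have hia : IntegrableOn (fun z => |aff (a' - a) (b' - b) z|) B :=
    ((continuous_aff _ _).abs).continuousOn.integrableOn_compact (isCompact_closedBall _ _)
  have hup : ∫ z in B, |aff (a' - a) (b' - b) z| ≤ Defi u a b + Defi u a' b' + S / 16 := by
    calc ∫ z in B, |aff (a' - a) (b' - b) z|
        ≤ ∫ z in B, ((-Real.log (M (tw u a b) z (1 / 16))) +
          (-Real.log (M (tw u a' b') z (1 / 16))) + S / 16) :=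
          setIntegral_mono_on hia ((hi1.add hi2).add hic) measurableSet_closedBall hpt
      _ = _ := by
          have e1 : ∫ z in B, ((-Real.log (M (tw u a b) z (1 / 16))) +
              (-Real.log (M (tw u a' b') z (1 / 16))) + S / 16) =
              (∫ z in B, ((-Real.log (M (tw u a b) z (1 / 16))) +
              (-Real.log (M (tw u a' b') z (1 / 16))))) + ∫ z in B, S / 16 :=
            integral_add (hi1.add hi2) hic
          have e2 : ∫ z in B, ((-Real.log (M (tw u a b) z (1 / 16))) +
              (-Real.log (M (tw u a' b') z (1 / 16)))) = Defi u a b + Defi u a' b' :=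
            integral_add hi1 hi2
          rw [e1, e2, setIntegral_const, smul_eq_mul, Measure.real, hB, volume_half, one_mul]
  have hlow : ∀ f : ℝ × ℝ → ℝ, Continuous f → (∀ z ∈ B, |f z| ≤ 1) →
      |∫ z in B, aff (a' - a) (b' - b) z * f z| ≤ ∫ z in B, |aff (a' - a) (b' - b) z| := by
    intro f hf hf1
    calc |∫ z in B, aff (a' - a) (b' - b) z * f z|
        ≤ ∫ z in B, |aff (a' - a) (b' - b) z * f z| := abs_integral_le_integral_abs
      _ ≤ _ := by
          apply setIntegral_mono_on _ hia measurableSet_closedBall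
          · intro z hz
            rw [abs_mul]
            have := hf1 z hz
            have h0 := abs_nonneg (aff (a' - a) (b' - b) z)
            nlinarith
          · exact (((continuous_aff _ _).mul hf).abs).continuousOn.integrableOn_compact
              (isCompact_closedBall _ _)
  have hcoord : ∀ z ∈ B, |z.1| ≤ 1 / 2 ∧ |z.2| ≤ 1 / 2 := by
    intro z hz
    rw [hB, mem_closedBall_zero_iff, Prod.norm_def, max_le_iff] at hz
    exact hz
  have h1 := hlow (fun z => 2 * z.1) (by fun_prop) (fun z hz => by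
    rw [abs_mul, abs_two]; have := (hcoord z hz).1; linarith)
  have h2 := hlow (fun z => 2 * z.2) (by fun_prop) (fun z hz => by
    rw [abs_mul, abs_two]; have := (hcoord z hz).2; linarith)
  rw [integral_aff_fst, abs_div] at h1
  rw [integral_aff_snd, abs_div] at h2
  simp only [Prod.fst_sub, Prod.snd_sub] at h1 h2
  rw [abs_of_pos (by norm_num : (0 : ℝ) < 6)] at h1 h2
  have h3 : S ≤ 48 * (Defi u a b + Defi u a' b') := by
    rw [hS]
    rw [hS] at hup
    linarith
  refine le_trans ?_ h3
  rw [Prod.norm_def, max_le_iff, Real.norm_eq_abs, Real.norm_eq_abs, Prod.fst_sub, Prod.snd_sub,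
    abs_sub_comm b.1, abs_sub_comm b.2, hS]
  exact ⟨by linarith [abs_nonneg (b'.2 - b.2)], by linarith [abs_nonneg (b'.1 - b.1)]⟩

end Pool.Agent.H88.Yau
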